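import Pool.Agent.Helper45.TW.Defs
import Pool.Agent.Helper45.M.INT

/-!
# Project TW: automorphisms and levels
-/

set_option autoImplicit false

namespace Pool.Agent.TOW

open VC IntermediateField NumberField IsDedekindDomain Pool.Agent.SC Pool.Agent.L Pool.Agent.M
open Pool.Agent.HG (Pr nm IsOdd)

section basic

variable {E K0 U : Type} [Field E] [Field K0] [Field U] [Algebra E U] [Algebra K0 U]

theorem AuE.au {T : U ≃+* U} (h : AuE E K0 T) : Au E K0 T := ⟨h.fixK, fun e => ⟨e, h.fixE e⟩⟩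

theorem AuE.one : AuE E K0 (1 : U ≃+* U) := ⟨fun _ => rfl, fun _ => rfl⟩

theorem AuE.mul {T T' : U ≃+* U} (h : AuE E K0 T) (h' : AuE E K0 T') : AuE E K0 (T * T') :=
  ⟨fun x => by show T (T' _) = _; rw [h'.fixK, h.fixK],
    fun x => by show T (T' _) = _; rw [h'.fixE, h.fixE]⟩

theorem inv_fix {T : U ≃+* U} {x : U} (h : T x = x) : T⁻¹ x = x := by
  show T.symm x = x
  rw [RingEquiv.symm_apply_eq, h]

theorem AuE.inv {T : U ≃+* U} (h : AuE E K0 T) : AuE E K0 T⁻¹ :=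
  ⟨fun x => inv_fix (h.fixK x), fun x => inv_fix (h.fixE x)⟩

theorem Au.mul {T T' : U ≃+* U} (h : Au E K0 T) (h' : Au E K0 T') : Au E K0 (T * T') :=
  ⟨fun x => by show T (T' _) = _; rw [h'.fixK, h.fixK], fun e => by
    obtain ⟨e', he'⟩ := h'.presE e
    obtain ⟨e'', he''⟩ := h.presE e'
    exact ⟨e'', by show T (T' _) = _; rw [he', he'']⟩⟩

theorem AuE.onL0 {T : U ≃+* U} (h : AuE E K0 T) : ∀ z ∈ L0 E K0 (U := U), T z = z := by
  intro z hz
  refine IntermediateField.adjoin_induction (p := fun z _ => T z = z) E ?_ ?_ ?_ ?_ ?_ hz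
  · rintro _ ⟨x, rfl⟩
    exact h.fixK x
  · intro e
    exact h.fixE e
  · intro a b _ _ ha hb
    rw [map_add, ha, hb]
  · intro a _ ha
    rw [map_inv₀, ha]
  · intro a b _ _ ha hb
    rw [map_mul, ha, hb]

theorem AuE.onMM {T : U ≃+* U} (h : AuE E K0 T) {r : U} (hr : T r = r) :
    ∀ z ∈ MM E K0 r, T z = z := by
  intro z hz
  refine IntermediateField.adjoin_induction (p := fun z _ => T z = z) E ?_ ?_ ?_ ?_ ?_ hz
  · rintro _ (⟨x, rfl⟩ | hx)
    · exact h.fixK x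
    · rw [Set.mem_singleton_iff.1 hx, hr]
  · intro e
    exact h.fixE e
  · intro a b _ _ ha hb
    rw [map_add, ha, hb]
  · intro a _ ha
    rw [map_inv₀, ha]
  · intro a b _ _ ha hb
    rw [map_mul, ha, hb]

/-- automorphisms which agree on `E`, `K0`, `r` and the roots agree on the level -/
theorem eq_on_NX {r : U} {m : ℕ} {T T' : U ≃+* U} (hM : ∀ z ∈ MM E K0 r, T z = T' z)
    (hR : ∀ w, RX E K0 r m w → T w = T' w) : ∀ z ∈ NX E K0 r m, T z = T' z := by
  intro z hz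
  refine IntermediateField.adjoin_induction (p := fun z _ => T z = T' z) E ?_ ?_ ?_ ?_ ?_ hz
  · rintro x (hx | hx)
    · exact hM x hx
    · exact hR x hx
  · intro e
    exact hM _ ((Pool.Agent.L.MM E K0 r).algebraMap_mem e)
  · intro a b _ _ ha hb
    rw [map_add, map_add, ha, hb]
  · intro a _ ha
    rw [map_inv₀, map_inv₀, ha]
  · intro a b _ _ ha hb
    rw [map_mul, map_mul, ha, hb]

theorem L0_le_MM {r : U} : L0 E K0 (U := U) ≤ Pool.Agent.L.MM E K0 r :=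
  IntermediateField.adjoin.mono E _ _ Set.subset_union_left

theorem MM_le_NX {r : U} {m : ℕ} : Pool.Agent.L.MM E K0 r ≤ NX E K0 r m := fun _ hx =>
  IntermediateField.subset_adjoin _ _ (Or.inl hx)

theorem RX.mem {r : U} {m : ℕ} {w : U} (h : RX E K0 r m w) : w ∈ NX E K0 r m :=
  IntermediateField.subset_adjoin _ _ (Or.inr h)

theorem RX.mul {r : U} {m : ℕ} {w w' : U} (h : RX E K0 r m w) (h' : RX E K0 r m w') :
    RX E K0 r m (w * w') := ⟨mul_ne_zero h.1 h'.1, by rw [mul_pow]; exact mul_mem h.2 h'.2⟩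

theorem RX.inv {r : U} {m : ℕ} {w : U} (h : RX E K0 r m w) : RX E K0 r m w⁻¹ :=
  ⟨inv_ne_zero h.1, by rw [inv_pow]; exact inv_mem h.2⟩

theorem RX.of_MM {r : U} {m : ℕ} {w : U} (h0 : w ≠ 0) (h : w ∈ Pool.Agent.L.MM E K0 r) :
    RX E K0 r m w := ⟨h0, pow_mem h _⟩

theorem RX.succ {r : U} {n : ℕ} {w : U} (h : RX E K0 r (2 ^ n) w) : RX E K0 r (2 ^ (n + 1)) w :=
  ⟨h.1, by rw [pow_succ, pow_mul]; exact pow_mem h.2 _⟩

theorem RX.sq {r : U} {n : ℕ} {w : U} (h : RX E K0 r (2 ^ (n + 1)) w) :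
    RX E K0 r (2 ^ n) (w ^ 2) :=
  ⟨pow_ne_zero 2 h.1, by rw [← pow_mul, mul_comm, ← pow_succ]; exact h.2⟩

theorem RX.prod {r : U} {m : ℕ} {ι : Type} (S : Finset ι) {u : ι → U}
    (h : ∀ i ∈ S, RX E K0 r m (u i)) : RX E K0 r m (∏ i ∈ S, u i) := by
  classical
  induction S using Finset.induction_on with
  | empty =>
    rw [Finset.prod_empty]
    exact RX.of_MM one_ne_zero (one_mem _)
  | insert i S hi ih =>
    rw [Finset.prod_insert hi]
    exact (h i (Finset.mem_insert_self _ _)).mul (ih fun j hj => h j (Finset.mem_insert_of_mem hj))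

theorem NX_le_succ {r : U} {n : ℕ} : NX E K0 r (2 ^ n) ≤ NX E K0 r (2 ^ (n + 1)) := by
  refine IntermediateField.adjoin_le_iff.2 ?_
  rintro x (hx | hx)
  · exact MM_le_NX hx
  · exact (RX.succ hx).mem

/-- the image of a place of a stable level -/
theorem exists_im {N : IntermediateField E U} {T : U ≃+* U} (h1 : ∀ x ∈ N, T x ∈ N)
    (h2 : ∀ x ∈ N, T⁻¹ x ∈ N) (hE : ∀ e : E, ∃ e' : E, T⁻¹ (algebraMap E U e) = algebraMap E U e')
    (Q : Place E N) : ∃ Q' : Place E N, Moves T N Q Q' := by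
  let ρ : N ≃+* N := restr N T h1 h2
  refine ⟨⟨Q.ring.comap (ρ.symm : N →+* N), fun e => ?_, ?_⟩, ?_⟩
  · show ρ.symm (algebraMap E N e) ∈ Q.ring
    obtain ⟨e', he'⟩ := hE e
    have h3 : ρ.symm (algebraMap E N e) = algebraMap E N e' := Subtype.ext he'
    rw [h3]
    exact Q.algebraMap_mem e'
  · intro htop
    apply Q.ne_top
    rw [eq_top_iff]
    intro x _
    have h3 : ρ x ∈ Q.ring.comap (ρ.symm : N →+* N) := by rw [htop]; exact ValuationSubring.mem_top _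
    have h4 : ρ.symm (ρ x) ∈ Q.ring := h3
    rwa [RingEquiv.symm_apply_apply] at h4
  · intro x hx hx'
    show _ ↔ ρ.symm ⟨T x, hx'⟩ ∈ Q.ring
    have h3 : ρ.symm ⟨T x, hx'⟩ = ⟨x, hx⟩ := Subtype.ext (T.symm_apply_apply x)
    rw [h3]

theorem moves_inv {N : IntermediateField E U} {T : U ≃+* U} {Q Q' : Place E N}
    (h1 : ∀ x ∈ N, T⁻¹ x ∈ N) (h : Moves T N Q Q') : Moves T⁻¹ N Q' Q := by
  intro x hx hx'
  have h2 : T (T⁻¹ x) = x := T.apply_symm_apply x
  have h3 := h (T⁻¹ x) hx' (by rw [h2]; exact hx)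
  have h4 : (⟨T (T⁻¹ x), by rw [h2]; exact hx⟩ : N) = ⟨x, hx⟩ := Subtype.ext h2
  rw [h4] at h3
  exact h3.symm

end basic

end Pool.Agent.TOW
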