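import Pool.Agent.Helper45.TW.Defs
import Pool.Agent.Helper90.TW.OrbDefs

/-!
# Project TW (MP_e66f84_ag): separable `f`

`Hyp` with `f` separable instead of irreducible, and the blocks which we need at the level `2`.
-/

set_option autoImplicit false

namespace Pool.Agent.TOWS

open VC IntermediateField NumberField IsDedekindDomain Pool.Agent.SC Pool.Agent.L Pool.Agent.M
open Filter
open Pool.Agent.TOW (RX NX Au AuE Infp)
open Pool.Agent.HG (Pr nm IsOdd)

noncomputable section

/-- The hyperelliptic situation: `K0 = k(x)`, `h = f(x)`, `f` separable of odd degree `≥ 5`. -/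
structure Hyp {k K0 : Type} (E : Type) {U : Type} [Field k] [Field K0] [Field E] [Field U]
    [Algebra k K0] [Algebra k E] [Algebra E U] [Algebra K0 U] [Algebra k U] (x : K0)
    (f : Polynomial k) (r : U) : Prop where
  geo : Geo k K0 E U (Polynomial.aeval x f) r
  gen : IntermediateField.adjoin k {x} = ⊤
  tr : Transcendental k x
  sep : f.Separable
  odd : Odd f.natDegree
  deg : 5 ≤ f.natDegree

def StmtINF : Prop :=
  ∀ (k K0 E U : Type) [Field k] [NumberField k] [Field K0] [Field E] [Field U] [Algebra k K0]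
    [Algebra k E] [Algebra E U] [Algebra K0 U] [Algebra k U] [IsScalarTower k E U]
    [IsScalarTower k K0 U] (x : K0) (f : Polynomial k) (r : U), Hyp E x f r →
    ∃ b₀ : Place E (L0 E K0 (U := U)), BPl (Polynomial.aeval x f) b₀ ∧
      (∀ (n : ℕ) (Q : Place E (NX E K0 r (2 ^ n))), Infp x Q ↔ OverPl b₀ Q) ∧
      ∀ T : U ≃+* U, Au E K0 T → Moves T _ b₀ b₀

def StmtKX2 : Prop :=
  ∀ (k K0 E U : Type) [Field k] [NumberField k] [Field K0] [Field E] [Field U] [Algebra k K0]
    [Algebra k E] [Algebra E U] [Algebra K0 U] [Algebra k U] [IsScalarTower k E U]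
    [IsScalarTower k K0 U] (x : K0) (f : Polynomial k) (r : U), Hyp E x f r →
    (∀ β : E, Polynomial.aeval β f = 0 → ∃ w : U, w ^ 2 = algebraMap K0 U x - algebraMap E U β) ∧
    (∀ T : U ≃+* U, AuE E K0 T → T r = -r → ∀ (j : ℕ) (w : U), RX E K0 r (2 ^ j) w →
      w * T w ∈ MM E K0 r) ∧
    ∀ ww : E → U, (∀ β : E, Polynomial.aeval β f = 0 →
        ww β ^ 2 = algebraMap K0 U x - algebraMap E U β) →
      (∀ w : U, RX E K0 r 2 w → ∃ S : Finset E, (∀ β ∈ S, Polynomial.aeval β f = 0) ∧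
        w * ∏ β ∈ S, ww β ∈ MM E K0 r) ∧
      ∀ S : Finset E, (∀ β ∈ S, Polynomial.aeval β f = 0) →
        (∏ β ∈ S, ww β ∈ MM E K0 r ↔ S = ∅ ∨ ∀ β : E, Polynomial.aeval β f = 0 → β ∈ S)

def StmtOI3 : Prop :=
  ∀ (k K0 E U : Type) [Field k] [NumberField k] [Field K0] [Field E] [Field U] [Algebra k K0]
    [Algebra k E] [Algebra E U] [Algebra K0 U] [Algebra k U] [IsScalarTower k E U]
    [IsScalarTower k K0 U] (x : K0) (f : Polynomial k) (r : U), Hyp E x f r →
    (∀ b : Place E (L0 E K0 (U := U)), BPl (Polynomial.aeval x f) b → inL0 x ∈ b.ring →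
      ∃ β : E, Polynomial.aeval β f = 0 ∧ b.ring.valuation (inL0 x - algebraMap E _ β) < 1) ∧
    ∀ β : E, Polynomial.aeval β f = 0 → ∃ b : Place E (L0 E K0 (U := U)),
      BPl (Polynomial.aeval x f) b ∧ b.ring.valuation (inL0 x - algebraMap E _ β) < 1

/-- **Level 2** for separable `f` without rational root. -/
def StmtOne : Prop :=
  ∀ (k K0 E U : Type) [Field k] [NumberField k] [Field K0] [Field E] [Field U] [Algebra k K0]
    [Algebra k E] [Algebra E U] [Algebra K0 U] [Algebra k U] [IsScalarTower k E U]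
    [IsScalarTower k K0 U] (x : K0) (f : Polynomial k) (r : U), Hyp E x f r →
    (∀ a : k, Polynomial.eval a f ≠ 0) →
    Pool.Agent.TOW.Rare (fun c : k => ∃ Φ : (E ≃ₐ[k] E) →* (U ≃+* U), Act (K0 := K0) r c Φ ∧
      ¬ ∃ Q : Place E (NX E K0 r (2 ^ 1)), Infp x Q ∧ ∀ g : E ≃ₐ[k] E, Moves (Φ g) _ Q Q)

end

end Pool.Agent.TOWS
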