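import Pool.Agent.Helper45.TW.STEP

/-!
# Project TW, the tower theorem
-/

set_option autoImplicit false

namespace Pool.Agent.TOW

open VC IntermediateField NumberField IsDedekindDomain Pool.Agent.SC Pool.Agent.L Pool.Agent.M
open Filter
open Pool.Agent.HG (Pr nm IsOdd)

/-- **The tower theorem.** -/
theorem tower (hPX1 : StmtPX1) (hINF : StmtINF) (hSTEP : StmtSTEP) : StmtTower := by
  intro k K0 E U _ _ _ _ _ _ _ _ _ _ _ _ x f r H n
  classical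
  obtain ⟨b₀, hb₀, hinf, hbfix⟩ := hINF k K0 E U x f r H
  induction n with
  | zero =>
    refine Rare.of_none ?_
    rintro c hc ⟨Φ, hΦ, hno⟩
    obtain ⟨p1, -, -, p4, -, p6, p7, -⟩ := hPX1 k K0 E U _ r H.geo 0
    obtain ⟨-, Q, hQ⟩ := p7 b₀
    have hbQ : OverPl b₀ Q := hQ
    refine hno ⟨Q, (hinf 0 Q).2 hbQ, fun g => ?_⟩
    have hT := act_au hΦ g
    have hTi := act_au_inv hΦ g
    have hmb := hbfix _ hT
    obtain ⟨Q₁, hQ₁⟩ := exists_im (p1 _ hT) (p1 _ hTi) hTi.presE Q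
    have hL0 : ∀ T : U ≃+* U, Au E K0 T → ∀ z ∈ L0 E K0 (U := U), T z ∈ L0 E K0 (U := U) := by
      intro T hT z hz
      refine IntermediateField.adjoin_induction (p := fun z _ => T z ∈ L0 E K0 (U := U)) E
        ?_ ?_ ?_ ?_ ?_ hz
      · rintro _ ⟨x, rfl⟩
        rw [hT.fixK]
        exact subset_adjoin _ _ ⟨x, rfl⟩
      · intro e
        obtain ⟨e', he'⟩ := hT.presE e
        rw [he']
        exact (L0 E K0 (U := U)).algebraMap_mem e'
      · intro a b _ _ ha hb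
        rw [map_add]; exact add_mem ha hb
      · intro a _ ha
        rw [map_inv₀]; exact inv_mem ha
      · intro a b _ _ ha hb
        rw [map_mul]; exact mul_mem ha hb
    have hbQ₁ : OverPl b₀ Q₁ := over_im L0_le_NX (hL0 _ hT) (hL0 _ hTi) hbQ hmb hQ₁
    obtain ⟨T, hTE, hTm⟩ := p4 Q₁ Q fun b => ⟨fun hb => by
      rw [over_unique L0_le_NX hb hbQ₁]; exact hbQ, fun hb => by
      rw [over_unique L0_le_NX hb hbQ]; exact hbQ₁⟩
    -- we may assume that `T r = r`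
    obtain ⟨T', hTE', hTr', hTm'⟩ : ∃ T' : U ≃+* U, AuE E K0 T' ∧ T' r = r ∧ Moves T' _ Q₁ Q := by
      rcases au_sign H.geo.rsq hTE.au with h2 | h2
      · exact ⟨T, hTE, h2, hTm⟩
      · obtain ⟨i, hi, h3, hm'⟩ := p6 b₀ Q hb₀ hbQ
        refine ⟨i * T, hi.mul hTE, ?_, moves_comp (p1 T hTE.au) hTm hm'⟩
        show i (T r) = r
        rw [h2, map_neg, h3, neg_neg]
    have htriv : ∀ z ∈ NX E K0 r (2 ^ 0), T' z = z := by
      refine eq_on_NX (T' := 1) (fun z hz => hTE'.onMM hTr' z hz) fun w hw => ?_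
      have h1 : w ∈ MM E K0 r := by
        have := hw.2
        rwa [pow_zero, pow_one] at this
      exact hTE'.onMM hTr' w h1
    have h1 : Moves (1 : U ≃+* U) (NX E K0 r (2 ^ 0)) Q₁ Q :=
      moves_congr (T := T') (T' := 1) htriv hTm'
    have h2 : Q₁ = Q := moves_unique (T := 1) (fun z hz => hz) (moves_one Q₁) h1
    rw [h2] at hQ₁
    exact hQ₁
  | succ n ih =>
    obtain ⟨-, -, -, -, -, -, p7, -⟩ := hPX1 k K0 E U _ r H.geo n
    obtain ⟨hfin, -⟩ := p7 b₀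
    have hS : ∀ Q ∈ hfin.toFinset, Rare (fun c : k => ∃ Φ : (E ≃ₐ[k] E) →* (U ≃+* U),
        Act (K0 := K0) r c Φ ∧ (∀ g : E ≃ₐ[k] E, Moves (Φ g) _ Q Q) ∧
        ¬ ∃ Q' : Place E (NX E K0 r (2 ^ (n + 1))), OverPl Q Q' ∧
          ∀ g : E ≃ₐ[k] E, Moves (Φ g) _ Q' Q') := by
      intro Q hQ
      have h1 : OverPl b₀ Q := hfin.mem_toFinset.1 hQ
      exact hSTEP k K0 E U x f r H n Q ((hinf n Q).2 h1)
    refine (ih.or (Rare.finite _ hS)).mono ?_
    rintro c hc ⟨Φ, hΦ, hno⟩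
    by_cases hex : ∃ Q : Place E (NX E K0 r (2 ^ n)), Infp x Q ∧
        ∀ g : E ≃ₐ[k] E, Moves (Φ g) _ Q Q
    · obtain ⟨Q, hQ, hfix⟩ := hex
      right
      have hbQ : OverPl b₀ Q := (hinf n Q).1 hQ
      refine ⟨Q, hfin.mem_toFinset.2 hbQ, Φ, hΦ, hfix, ?_⟩
      rintro ⟨Q', hQQ', hfix'⟩
      exact hno ⟨Q', (hinf (n + 1) Q').2 (over_trans' L0_le_NX hbQ hQQ'), hfix'⟩
    · exact Or.inl ⟨Φ, hΦ, hex⟩

end Pool.Agent.TOW
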