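import Pool.Agent.Helper45.TW.SB
import Pool.Agent.Helper45.TW.SDefs
import Pool.Agent.Helper45.TW.Tower
import Pool.Agent.Helper59.M.NR

/-!
# Project TW: level `2` for separable `f` without rational root
-/

set_option autoImplicit false

namespace Pool.Agent.TOWS

open VC IntermediateField NumberField IsDedekindDomain Pool.Agent.SC Pool.Agent.L Pool.Agent.M
open Filter
open Pool.Agent.TOW (RX NX Au AuE Infp RD Lv Sg Rare over_im over_unique over_trans' exists_im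
  moves_inv eq_on_NX L0_le_MM MM_le_NX L0_le_NX act_au act_au_inv au_sign NX_le_succ)
open Pool.Agent.HG (Pr nm IsOdd)

section

variable {k K0 E U : Type} [Field k] [NumberField k]
    [Field K0] [Field E] [Field U] [Algebra k K0]
    [Algebra k E] [Algebra E U] [Algebra K0 U] [Algebra k U] [IsScalarTower k E U]
    [IsScalarTower k K0 U] {x : K0} {f : Polynomial k} {r : U}

/-- existence of the root data -/
theorem exists_RDS (hKX2 : StmtKX2) (H : Hyp E x f r) :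
    ∃ (R : Finset E) (ww : E → U), (∀ β, β ∈ R ↔ Polynomial.aeval β f = 0) ∧ Odd R.card ∧
      RD E K0 r x 0 R ww ww := by
  classical
  have hcl : IsAlgClosed E := H.geo.clE
  have hf0 : f ≠ 0 := H.sep.ne_zero
  obtain ⟨R, hRdef⟩ : ∃ R : Finset E, R = (f.rootSet E).toFinset := ⟨_, rfl⟩
  have hR : ∀ β, β ∈ R ↔ Polynomial.aeval β f = 0 := by
    intro β
    rw [hRdef, Set.mem_toFinset, Polynomial.mem_rootSet]
    exact ⟨fun h => h.2, fun h => ⟨hf0, h⟩⟩
  have hcard : R.card = f.natDegree := by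
    rw [hRdef, Set.toFinset_card]
    exact Polynomial.card_rootSet_eq_natDegree H.sep (IsAlgClosed.splits _)
  obtain ⟨hroot, -, hrest⟩ := hKX2 k K0 E U x f r H
  have hww : ∀ β : E, ∃ w : U, Polynomial.aeval β f = 0 →
      w ^ 2 = algebraMap K0 U x - algebraMap E U β := by
    intro β
    by_cases hβ : Polynomial.aeval β f = 0
    · obtain ⟨w, hw⟩ := hroot β hβ
      exact ⟨w, fun _ => hw⟩
    · exact ⟨0, fun h => absurd h hβ⟩
  choose ww hww using hww
  obtain ⟨hdec, hind⟩ := hrest ww hww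
  have hxβ : ∀ β : E, algebraMap K0 U x - algebraMap E U β ≠ 0 := by
    intro β h0
    have hch' : Algebra.IsAlgebraic k E := H.geo.algE
    have h1 : algebraMap K0 U x = algebraMap E U β := sub_eq_zero.1 h0
    apply H.tr
    have h2 : IsAlgebraic k (algebraMap K0 U x) := by
      rw [h1]
      exact (Algebra.IsAlgebraic.isAlgebraic (R := k) β).algebraMap
    exact (isAlgebraic_algebraMap_iff (algebraMap K0 U).injective).1 h2
  have hwne : ∀ β : E, Polynomial.aeval β f = 0 → ww β ≠ 0 := by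
    intro β hβ h0
    have h1 := hww β hβ
    rw [h0, zero_pow two_ne_zero] at h1
    exact hxβ β h1.symm
  have hwRX : ∀ β : E, Polynomial.aeval β f = 0 → RX E K0 r 2 (ww β) := by
    intro β hβ
    refine ⟨hwne β hβ, ?_⟩
    rw [hww β hβ]
    exact sub_mem (L0_le_MM (subset_adjoin _ _ ⟨x, rfl⟩)) ((MM E K0 r).algebraMap_mem β)
  refine ⟨R, ww, hR, by rw [hcard]; exact H.odd, fun β hβ => hww β ((hR β).1 hβ),
    fun β hβ => by rw [zero_add, pow_one]; exact hwRX β ((hR β).1 hβ),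
    fun β hβ => ⟨1, one_mem _, one_ne_zero, by rw [pow_zero, pow_one, mul_one]⟩, ?_, ?_⟩
  · intro w hw
    rw [zero_add, pow_one] at hw
    obtain ⟨S, hS, h2⟩ := hdec _ hw
    refine ⟨S, fun β hβ => (hR β).2 (hS β hβ), ?_⟩
    rw [pow_zero, pow_one]
    exact h2
  · intro S hS
    rw [hind S fun β hβ => (hR β).1 (hS hβ)]
    constructor
    · rintro (h | h)
      · exact Or.inl h
      · exact Or.inr (Finset.Subset.antisymm hS fun β hβ => h β ((hR β).1 hβ))
    · rintro (h | h)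
      · exact Or.inl h
      · exact Or.inr fun β hβ => by rw [h]; exact (hR β).2 hβ

/-- The levels. -/
theorem exists_LvS (hPX1 : Pool.Agent.TOW.StmtPX1) (H : Hyp E x f r) {n : ℕ}
    {b₀ : Place E (L0 E K0 (U := U))} (hb₀ : BPl (Polynomial.aeval x f) b₀)
    {Q : Place E (NX E K0 r (2 ^ n))} (hbQ : OverPl b₀ Q) :
    Lv E K0 r n Q ∧ ∃ Q' : Place E (NX E K0 r (2 ^ (n + 1))), OverPl Q Q' := by
  obtain ⟨h1, -, -, -, h5, -, -, h8⟩ := hPX1 k K0 E U _ r H.geo n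
  obtain ⟨g1, -, -, g4, g5, g6, -, -⟩ := hPX1 k K0 E U _ r H.geo (n + 1)
  have hrr : ∀ T : U ≃+* U, Au E K0 T → T r = r ∨ T r = -r := fun T hT => au_sign H.geo.rsq hT
  refine ⟨⟨h1, g1, fun T hT hr hm => h5 T Q hT hr hm, g5, ?_, hrr⟩, ?_⟩
  · intro Q' Q'' h' h''
    have hb' : OverPl b₀ Q' := over_trans' L0_le_NX hbQ h'
    have hb'' : OverPl b₀ Q'' := over_trans' L0_le_NX hbQ h''
    obtain ⟨T, hT, hm⟩ := g4 Q' Q'' fun b => ⟨fun hb => by
      rw [over_unique L0_le_NX hb hb']; exact hb'', fun hb => by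
      rw [over_unique L0_le_NX hb hb'']; exact hb'⟩
    rcases hrr T hT.au with h2 | h2
    · exact ⟨T, hT, h2, hm⟩
    · obtain ⟨T', hT', h3, hm'⟩ := g6 b₀ Q'' hb₀ hb''
      refine ⟨T' * T, hT'.mul hT, ?_, moves_comp (g1 T hT.au) hm hm'⟩
      show T' (T r) = r
      rw [h2, map_neg, h3, neg_neg]
  · exact h8 Q

theorem L0_au {T : U ≃+* U} (hT : Au E K0 T) : ∀ z ∈ L0 E K0 (U := U), T z ∈ L0 E K0 (U := U) := by
  intro z hz
  refine IntermediateField.adjoin_induction (p := fun z _ => T z ∈ L0 E K0 (U := U)) E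
    ?_ ?_ ?_ ?_ ?_ hz
  · rintro _ ⟨x, rfl⟩
    rw [hT.fixK]
    exact subset_adjoin _ _ ⟨x, rfl⟩
  · intro e
    obtain ⟨e', he'⟩ := hT.presE e
    rw [he']
    exact (L0 E K0 (U := U)).algebraMap_mem e'
  · intro a b _ _ ha hb
    rw [map_add]; exact add_mem ha hb
  · intro a _ ha
    rw [map_inv₀]; exact inv_mem ha
  · intro a b _ _ ha hb
    rw [map_mul]; exact mul_mem ha hb

/-- the place of level `1` over a branch point is unique -/
theorem unique0 (hPX1 : Pool.Agent.TOW.StmtPX1) {h : K0} (G : Geo k K0 E U h r)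
    {b₀ : Place E (L0 E K0 (U := U))} (hb₀ : BPl h b₀)
    {Q₁ Q : Place E (NX E K0 r (2 ^ 0))} (hbQ₁ : OverPl b₀ Q₁) (hbQ : OverPl b₀ Q) : Q₁ = Q := by
  obtain ⟨p1, -, -, p4, -, p6, p7, -⟩ := hPX1 k K0 E U _ r G 0
  obtain ⟨T, hTE, hTm⟩ := p4 Q₁ Q fun b => ⟨fun hb => by
    rw [over_unique L0_le_NX hb hbQ₁]; exact hbQ, fun hb => by
    rw [over_unique L0_le_NX hb hbQ]; exact hbQ₁⟩
  obtain ⟨T', hTE', hTr', hTm'⟩ : ∃ T' : U ≃+* U, AuE E K0 T' ∧ T' r = r ∧ Moves T' _ Q₁ Q := by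
    rcases au_sign G.rsq hTE.au with h2 | h2
    · exact ⟨T, hTE, h2, hTm⟩
    · obtain ⟨i, hi, h3, hm'⟩ := p6 b₀ Q hb₀ hbQ
      refine ⟨i * T, hi.mul hTE, ?_, moves_comp (p1 T hTE.au) hTm hm'⟩
      show i (T r) = r
      rw [h2, map_neg, h3, neg_neg]
  have htriv : ∀ z ∈ NX E K0 r (2 ^ 0), T' z = z := by
    refine eq_on_NX (T' := 1) (fun z hz => hTE'.onMM hTr' z hz) fun w hw => ?_
    have h1 : w ∈ MM E K0 r := by
      have := hw.2
      rwa [pow_zero, pow_one] at this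
    exact hTE'.onMM hTr' w h1
  have h1 : Moves (1 : U ≃+* U) (NX E K0 r (2 ^ 0)) Q₁ Q :=
    moves_congr (T := T') (T' := 1) htriv hTm'
  exact moves_unique (T := 1) (fun z hz => hz) (moves_one Q₁) h1

/-- the point at infinity is the only rational branch point -/
theorem oneRatS (hINF : StmtINF) (hOI3 : StmtOI3) (hPX1 : Pool.Agent.TOW.StmtPX1)
    (H : Hyp E x f r) (hnr : ∀ a : k, Polynomial.eval a f ≠ 0) :
    ∃ b₀ : Place E (L0 E K0 (U := U)),
      Pool.Agent.TW.OneRat (k := k) (Polynomial.aeval x f) r b₀ ∧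
      (∀ (n : ℕ) (Q : Place E (NX E K0 r (2 ^ n))), Infp x Q ↔ OverPl b₀ Q) ∧
      ∀ T : U ≃+* U, Au E K0 T → Moves T _ b₀ b₀ := by
  classical
  obtain ⟨b₀, hb₀, hinf, hbfix⟩ := hINF k K0 E U x f r H
  obtain ⟨o1, o2⟩ := hOI3 k K0 E U x f r H
  have hcl : IsAlgClosed E := H.geo.clE
  have halg : Algebra.IsAlgebraic k E := H.geo.algE
  have hclo : IsAlgClosure k E := ⟨hcl, halg⟩
  have hnorm : Normal k E := IsAlgClosure.normal k E
  have hgal : IsGalois k E := ⟨⟩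
  refine ⟨b₀, ⟨hb₀, fun c Φ hc hΦ σ => hbfix _ (act_au hΦ σ), ?_, ?_⟩, hinf, hbfix⟩
  · intro c Φ hc hΦ b hb hne
    have hxb : inL0 x ∈ b.ring := by
      by_contra hcon
      apply hne
      obtain ⟨-, -, -, -, -, -, p7, -⟩ := hPX1 k K0 E U _ r H.geo 0
      obtain ⟨-, Q, hQ⟩ := p7 b
      have hbQ : OverPl b Q := hQ
      have h1 : Infp x Q := by
        intro hx hmem
        exact hcon ((hbQ _ _ hx).2 hmem)
      exact over_unique L0_le_NX hbQ ((hinf 0 Q).1 h1)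
    obtain ⟨β, hβ, hval⟩ := o1 b hb hxb
    have hσ : ∃ σ : E ≃ₐ[k] E, σ β ≠ β := by
      by_contra hcon
      push Not at hcon
      have h1 : β ∈ (⊥ : IntermediateField k E) :=
        (InfiniteGalois.mem_bot_iff_fixed β).2 hcon
      obtain ⟨a, ha⟩ := IntermediateField.mem_bot.1 h1
      apply hnr a
      have h2 : algebraMap k E (Polynomial.eval a f) = 0 := by
        rw [← hβ, ← ha, Polynomial.aeval_algebraMap_apply]
        rfl
      exact (map_eq_zero_iff _ (algebraMap k E).injective).1 h2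
    obtain ⟨σ, hσ⟩ := hσ
    refine ⟨σ, fun hm => hσ ?_⟩
    have hx0 : algebraMap K0 U x ∈ L0 E K0 (U := U) := subset_adjoin _ _ ⟨x, rfl⟩
    have hTx : Φ σ (algebraMap K0 U x) = algebraMap K0 U x := hΦ.fixK σ x
    have hTx' : Φ σ (algebraMap K0 U x) ∈ L0 E K0 (U := U) := by rw [hTx]; exact hx0
    have h1 : Cg b.ring (⟨algebraMap K0 U x, hx0⟩ : L0 E K0 (U := U)) β := hval
    have h2 := (Moves.cg (σ := σ.toRingEquiv) (fun e => hΦ.const σ e) hm hx0 hTx').1 h1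
    have e : (⟨Φ σ (algebraMap K0 U x), hTx'⟩ : L0 E K0 (U := U)) = ⟨algebraMap K0 U x, hx0⟩ :=
      Subtype.ext hTx
    rw [e] at h2
    exact (Cg.unique b.algebraMap_mem h2 h1)
  · have hf0 : f ≠ 0 := H.sep.ne_zero
    have hfin := (Pool.Agent.M.nR k K0 E U _ r H.geo).2.1
    have hch : ∀ β : f.rootSet E, ∃ b : Place E (L0 E K0 (U := U)),
        BPl (Polynomial.aeval x f) b ∧ b.ring.valuation (inL0 x - algebraMap E _ (β : E)) < 1 :=
      fun β => o2 β ((Polynomial.mem_rootSet.1 β.2).2)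
    choose B hB1 hB2 using hch
    have hinj : Function.Injective B := by
      intro β β' h1
      have h2 : Cg (B β).ring (inL0 (E := E) (U := U) x) (β : E) := hB2 β
      have h3 : Cg (B β').ring (inL0 (E := E) (U := U) x) (β' : E) := hB2 β'
      rw [← h1] at h3
      exact Subtype.ext (Cg.unique (B β).algebraMap_mem h2 h3)
    have hcard : Nat.card (f.rootSet E) = f.natDegree := by
      rw [Nat.card_eq_fintype_card]
      exact Polynomial.card_rootSet_eq_natDegree H.sep (IsAlgClosed.splits _)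
    have h1 : Set.range B ⊆ {b : Place E (L0 E K0 (U := U)) | BPl (Polynomial.aeval x f) b} := by
      rintro _ ⟨β, rfl⟩
      exact hB1 β
    have h2 := Set.ncard_le_ncard h1 hfin
    have h3 : (Set.range B).ncard = Nat.card (f.rootSet E) := by
      rw [← Nat.card_coe_set_eq]
      exact Nat.card_range_of_injective hinj
    rw [h3, hcard] at h2
    rw [← Set.coe_ofPred, Nat.card_coe_set_eq]
    exact H.deg.trans h2

/-- **Level `2`.** -/
theorem one (hLVL : Pool.Agent.TW.StmtLVL) (hPX1 : Pool.Agent.TOW.StmtPX1)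
    (hKD : Pool.Agent.TOW.StmtKD) (hKX2 : StmtKX2) (hINF : StmtINF)
    (hOI3 : StmtOI3) : StmtOne := by
  intro k K0 E U _ _ _ _ _ _ _ _ _ _ _ _ x f r H hnr
  classical
  have hcl : IsAlgClosed E := H.geo.clE
  have halg : Algebra.IsAlgebraic k E := H.geo.algE
  have hchE : CharZero E := charZero_of_injective_algebraMap (algebraMap k E).injective
  have hchU : CharZero U := charZero_of_injective_algebraMap (algebraMap k U).injective
  obtain ⟨b₀, hOne, hinf, hbfix⟩ := oneRatS hINF hOI3 hPX1 H hnr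
  have hb₀ := hOne.br
  obtain ⟨p1, -, -, p4, -, p6, p7, -⟩ := hPX1 k K0 E U _ r H.geo 0
  obtain ⟨q1, -, q3, -, -, -, -, -⟩ := hPX1 k K0 E U _ r H.geo (0 + 1)
  obtain ⟨-, Q, hQ⟩ := p7 b₀
  have hbQ : OverPl b₀ Q := hQ
  obtain ⟨hL, Q', hQ'⟩ := exists_LvS hPX1 H hb₀ hbQ
  obtain ⟨R, ww, hR, hodd, D⟩ := exists_RDS hKX2 H
  have hexp : ∀ a : U ≃ₐ[E] U, (∀ z ∈ L0 E K0 (U := U), a z = z) →
      ∀ z ∈ NX E K0 r (2 ^ (0 + 1)), a (a z) = z := by
    intro a ha
    have haE : AuE E K0 a.toRingEquiv :=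
      ⟨fun z => ha _ (IntermediateField.subset_adjoin _ _ ⟨_, rfl⟩), fun e => a.commutes e⟩
    have hMM : ∀ z ∈ MM E K0 r, (a.toRingEquiv * a.toRingEquiv) z = z := by
      refine (haE.mul haE).onMM ?_
      show a.toRingEquiv (a.toRingEquiv r) = r
      rcases au_sign H.geo.rsq haE.au with h | h
      · rw [h, h]
      · rw [h, map_neg, h, neg_neg]
    have hww : ∀ β ∈ R, (a.toRingEquiv * a.toRingEquiv) (ww β) = ww β := by
      intro β hβ
      have h1 : a.toRingEquiv (ww β) = ww β ∨ a.toRingEquiv (ww β) = -ww β := by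
        apply sq_eq_sq_iff_eq_or_eq_neg.1
        rw [← map_pow, D.hww β hβ, map_sub, haE.fixK, haE.fixE]
      show a.toRingEquiv (a.toRingEquiv (ww β)) = ww β
      rcases h1 with h | h
      · rw [h, h]
      · rw [h, map_neg, h, neg_neg]
    have hNX0 : ∀ z ∈ NX E K0 r (2 ^ 0), (a.toRingEquiv * a.toRingEquiv) z = (1 : U ≃+* U) z := by
      refine eq_on_NX (T' := 1) hMM fun w hw => ?_
      have h1 : w ∈ MM E K0 r := by
        have := hw.2
        rwa [pow_zero, pow_one] at this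
      exact hMM w h1
    exact D.triv (T' := 1) hNX0 hww
  have hR1 := hLVL k K0 E U _ r H.geo b₀ hOne (NX E K0 r (2 ^ (0 + 1)))
    ⟨q3, fun z => L0_le_NX (IntermediateField.subset_adjoin _ _ ⟨z, rfl⟩),
      fun T hT hE => q1 T ⟨hT, hE⟩⟩ MM_le_NX hexp
  refine Rare.mono hR1 ?_
  rintro c hc ⟨Φ, hΦ, hno⟩
  refine ⟨Φ, hΦ, ?_⟩
  by_contra hcon
  push Not at hcon
  have hfix : ∀ g : E ≃ₐ[k] E, Moves (Φ g) _ Q Q := by
    intro g
    have hT := act_au hΦ g
    have hTi := act_au_inv hΦ g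
    obtain ⟨Q₁, hQ₁⟩ := exists_im (p1 _ hT) (p1 _ hTi) hTi.presE Q
    have hbQ₁ : OverPl b₀ Q₁ := over_im L0_le_NX (L0_au hT) (L0_au hTi) hbQ (hbfix _ hT) hQ₁
    rw [unique0 hPX1 H.geo hb₀ hbQ₁ hbQ] at hQ₁
    exact hQ₁
  obtain ⟨a, s, S⟩ := Pool.Agent.TOW.exists_Sg hL D hΦ hfix hQ'
  have hgR : ∀ (g : E ≃ₐ[k] E), ∀ β ∈ R, g β ∈ R := by
    intro g β hβ
    rw [hR] at hβ ⊢
    have h1 : Polynomial.aeval (g β) f = g (Polynomial.aeval β f) :=
      Polynomial.aeval_algHom_apply g.toAlgHom β f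
    rw [h1, hβ, map_zero]
  have hnormal : Normal K0 U := H.geo.normal
  have hall : ∀ g : E ≃ₐ[k] E, ∃ Q' : Place E (NX E K0 r (2 ^ (0 + 1))), OverPl Q Q' ∧
      Moves (Φ g) _ Q' Q' := by
    intro g
    obtain ⟨Q', h1, h2⟩ := hcon g
    obtain ⟨Q₁, hQ₁⟩ := exists_down (K0 := K0) (NX_le_succ (r := r) (n := 0))
      (fun z => L0_le_NX (IntermediateField.subset_adjoin _ _ ⟨z, rfl⟩))
      (fun z => hnormal.isIntegral z) Q'
    have h3 : OverPl b₀ Q₁ := by
      intro z hz hz'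
      rw [h1 z hz (NX_le_succ (L0_le_NX hz)), hQ₁ z hz' (NX_le_succ hz')]
    rw [unique0 hPX1 H.geo hb₀ h3 hbQ] at hQ₁
    exact ⟨Q', hQ₁, h2⟩
  have hone : ∀ β ∈ R, ∀ g : E ≃ₐ[k] E, g β = β → s g β = 1 := by
    intro β hβ g hg
    obtain ⟨P, hP, hm⟩ := hall g
    exact S.one_of_fix hL D hΦ hQ' hβ hg hP hm
  obtain ⟨t, ht1, ht2⟩ := Pool.Agent.TOW.exists_cob (G := E ≃ₐ[k] E) hgR hodd
    (fun g g' β hβ => S.mul hL D hΦ hgR g g' hβ) hone
  obtain ⟨P, hP, hPfix⟩ := S.fix_of_cob hL D hΦ hQ' hgR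
    (fun χ h1 h2 h3 => hKD k K0 E U _ r H.geo (0 + 1) χ h1 h2 h3) ht1 ht2
  exact hno ⟨P, (hinf (0 + 1) P).2 (over_trans' L0_le_NX hbQ hP), hPfix⟩

end

end Pool.Agent.TOWS
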