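import Pool.Agent.Helper97.TW.Fin
import Pool.Agent.Helper45.TW.SOne

/-!
# Project TW: the transfer for separable `f` (copy of helper97's file for irreducible `f`)
-/

set_option autoImplicit false
set_option linter.unusedSectionVars false

namespace Pool.Agent.TOWS

open VC Polynomial NumberField Filter Topology Pool.Agent.SC Pool.Agent.L Pool.Agent.M
  Pool.Agent.TW Pool.Agent.Helper91.Sect
open Pool.Agent.TOW (Au NX Infp StmtPX1)

noncomputable section

/-- **The transfer** for `y² = c f(x)`. -/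
theorem trS (hGC : StmtGC) (k : Type) [Field k] [NumberField k]
    (f : k[X]) (hsep : f.Separable) (hodd : Odd f.natDegree) (hdeg : 5 ≤ f.natDegree) :
    ∃ (E U : Type) (_ : Field E) (_ : Field U) (_ : Algebra k E) (_ : Algebra E U)
      (_ : Algebra (FractionRing k[X]) U) (_ : Algebra k U) (_ : IsScalarTower k E U)
      (_ : IsScalarTower k (FractionRing k[X]) U) (r : U),
      Pool.Agent.TOWS.Hyp E (algebraMap k[X] (FractionRing k[X]) X) f r ∧
      ∀ c : k, c ≠ 0 → ∀ (K : Type) [Field K] [Algebra k K] (x y : K), Transcendental k x →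
        y ^ 2 = algebraMap k K c * aeval x f → ∀ s : GaloisSection k K,
        ∃ Φ : (E ≃ₐ[k] E) →* (U ≃+* U), Act (K0 := FractionRing k[X]) r c Φ ∧
          (∀ m : ℕ, 0 < m → ∀ w ∈ Lev k x y m, w ∈ Kur k K) ∧
          ∀ m : ℕ, 0 < m → (∀ T : U ≃+* U, Au E (FractionRing k[X]) T →
              ∀ z ∈ NX E (FractionRing k[X]) r m, T z ∈ NX E (FractionRing k[X]) r m) →
            ∀ Q : Place E (NX E (FractionRing k[X]) r m),
            Infp (algebraMap k[X] (FractionRing k[X]) X) Q →
            (∀ g : E ≃ₐ[k] E, Moves (Φ g) _ Q Q) → AgrInf s x y m := by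
  obtain ⟨E, U, _, _, _, _, _, _, _, _, r, G, hsec⟩ :=
    trX k (FractionRing k[X]) (algebraMap k[X] (FractionRing k[X]) f) (hGC k f hsep hdeg)
  have G' := G
  rw [← aeval_X97] at G'
  refine ⟨E, U, inferInstance, inferInstance, inferInstance, inferInstance, inferInstance,
    inferInstance, inferInstance, inferInstance, r, ⟨G', adjoin_X97, trans_X97, hsep, hodd, hdeg⟩,
    fun c hc0 K _ _ x y hx hy s => ?_⟩
  have hinj : Function.Injective ((aeval x : k[X] →ₐ[k] K) : k[X] →+* K) := by
    have := transcendental_iff_injective.1 hx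
    exact this
  let φ : FractionRing k[X] →+* K := IsFractionRing.lift hinj
  let _ : Algebra (FractionRing k[X]) K := φ.toAlgebra
  have hφ : ∀ p : k[X], algebraMap (FractionRing k[X]) K (algebraMap k[X] (FractionRing k[X]) p) =
      aeval x p := fun p => IsFractionRing.lift_algebraMap hinj p
  have hst' : IsScalarTower k (FractionRing k[X]) K := by
    refine IsScalarTower.of_algebraMap_eq fun a => ?_
    have e1 : algebraMap k (FractionRing k[X]) a = algebraMap k[X] (FractionRing k[X]) (C a) := rfl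
    rw [e1, hφ, aeval_C]
  obtain ⟨Φ, hΦ, j, hj1, hj2, hj3, hj4, hj5⟩ := hsec c hc0 K y (by rw [hφ, hy]) s
  have hx₀ : algebraMap (FractionRing k[X]) K (algebraMap k[X] (FractionRing k[X]) X) = x := by
    rw [hφ, aeval_X]
  refine ⟨Φ, hΦ, fun m hm w hw => ?_, fun m hm hst Q hQ hQΦ => ?_⟩
  · rw [← hx₀] at hw
    obtain ⟨u, hu, rfl⟩ := lev_sub97 (x₀ := algebraMap k[X] (FractionRing k[X]) X) G
      (by rw [hφ, hy]) hj1 hj2 hj3 hm hw
    exact hj4 u
  · have h2 := agr97 (x₀ := algebraMap k[X] (FractionRing k[X]) X) G (by rw [hφ, hy]) hj1 hj2 hj3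
      hm hst hΦ (s := s) hj4 hj5 hQ hQΦ
    rwa [hx₀] at h2

theorem fin_one (hGC : StmtGC) (hPX1 : StmtPX1) (hT : StmtOne) (k : Type) [Field k]
    [NumberField k] (f : k[X]) (hsep : f.Separable) (hodd : Odd f.natDegree)
    (hdeg : 5 ≤ f.natDegree) (hnr : ∀ a : k, eval a f ≠ 0) :
    Rare (fun c : k => Oth f (2 ^ 1) c) := by
  obtain ⟨E, U, _, _, _, _, _, _, _, _, r, H, hsec⟩ := trS hGC k f hsep hodd hdeg
  have h1 := hT k (FractionRing k[X]) E U (algebraMap k[X] (FractionRing k[X]) X) f r H hnr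
  have hst := (hPX1 k (FractionRing k[X]) E U _ r H.geo 1).1
  intro ε hε
  filter_upwards [h1 ε hε] with Y hY
  intro T hT hTc
  refine hY T hT fun c hc => ?_
  obtain ⟨hc0, hcY, K, _, _, x, y, hx, hy, s, hs⟩ := hTc c hc
  obtain ⟨Φ, hΦ, _, h3⟩ := hsec c hc0 K x y hx hy s
  refine ⟨hc0, hcY, Φ, hΦ, ?_⟩
  rintro ⟨Q, hQ, hQΦ⟩
  exact hs (h3 (2 ^ 1) (by positivity) hst Q hQ hQΦ)

/-- The curve `y² = c f(x)` has a section which agrees with the point at infinity modulo all
numbers. -/
theorem exists_agrS (hGC : StmtGC) {k : Type} [Field k] [NumberField k] {f : k[X]}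
    (hsep : f.Separable) (hodd : Odd f.natDegree) (hdeg : 5 ≤ f.natDegree) {c : k}
    (hc : c ≠ 0) :
    ∃ (K : Type) (_ : Field K) (_ : Algebra k K) (x y : K), Transcendental k x ∧
      y ^ 2 = algebraMap k K c * aeval x f ∧ IntermediateField.adjoin k {x, y} = ⊤ ∧
      ∃ s : GaloisSection k K, ∀ m : ℕ, 0 < m → AgrInf s x y m := by
  obtain ⟨x, y, hx, hy, hxV⟩ := Pool.Agent.HG.laurent_odd hodd hc
  let E := IntermediateField.adjoin k {x, y}
  have hxE : x ∈ E := IntermediateField.subset_adjoin _ _ (by simp)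
  have hyE : y ∈ E := IntermediateField.subset_adjoin _ _ (by simp)
  have hcoe : ∀ p : k[X], ((aeval (⟨x, hxE⟩ : E) p : E) : LaurentSeries k) = aeval x p := fun p =>
    (aeval_algebraMap_apply (LaurentSeries k) (⟨x, hxE⟩ : E) p).symm
  have hx' : Transcendental k (⟨x, hxE⟩ : E) := fun halg =>
    hx (halg.algebraMap (A := LaurentSeries k))
  have hxy' : (⟨y, hyE⟩ : E) ^ 2 = algebraMap k E c * aeval (⟨x, hxE⟩ : E) f := by
    apply Subtype.ext
    show y ^ 2 = algebraMap k (LaurentSeries k) c * ((aeval (⟨x, hxE⟩ : E) f : E) :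
      LaurentSeries k)
    rw [hcoe, hy]
  refine ⟨E, inferInstance, inferInstance, ⟨x, hxE⟩, ⟨y, hyE⟩, hx', hxy', ?_, ?_⟩
  · have h2 : IntermediateField.lift (IntermediateField.adjoin k
        {(⟨x, hxE⟩ : E), (⟨y, hyE⟩ : E)}) = IntermediateField.lift (⊤ : IntermediateField k E) := by
      rw [IntermediateField.lift_adjoin, IntermediateField.lift_top]
      show IntermediateField.adjoin k ((fun z : E => (z : LaurentSeries k)) ''
        {⟨x, hxE⟩, ⟨y, hyE⟩}) = E
      rw [Set.image_pair]
    exact IntermediateField.lift_injective E h2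
  · obtain ⟨s, W, hW, hz, hσ⟩ := Pool.Agent.HG.section_of_place'
      ((Pool.Agent.Helper88.HG.pvr k).comap (algebraMap E (LaurentSeries k))) (by
        intro c
        rw [ValuationSubring.mem_comap, ← IsScalarTower.algebraMap_apply k E (LaurentSeries k)]
        exact Pool.Agent.Helper88.HG.pvr_const k c) (by
        intro z hz
        rw [ValuationSubring.mem_comap] at hz
        obtain ⟨c, hc⟩ := Pool.Agent.Helper88.HG.pvr_res k _ hz
        refine ⟨c, ?_⟩
        rw [← ValuationSubring.mem_nonunits_iff, ValuationSubring.mem_nonunits_iff_or] at hc ⊢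
        rcases hc with hc | hc
        · left
          apply Subtype.ext
          exact hc
        · right
          rw [ValuationSubring.mem_comap, map_inv₀]
          exact hc)
    refine ⟨s, fun m hm => ⟨W, ?_, ?_, ?_⟩⟩
    · intro z hz
      have h1 : IsIntegral W z := by
        obtain ⟨p, hp, hpz⟩ := hz.isIntegral
        let i : k →+* W := (algebraMap k (AlgebraicClosure E)).codRestrict W.toSubring hW
        refine ⟨p.map i, hp.map i, ?_⟩
        rw [eval₂_map]
        exact hpz
      obtain ⟨z', hz'⟩ := IsIntegrallyClosed.isIntegral_iff.mp h1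
      rw [← hz']
      exact z'.2
    · have h1 := hz (⟨x, hxE⟩ : E)⁻¹ (by
        rw [← ValuationSubring.mem_nonunits_iff, ValuationSubring.mem_nonunits_iff_or]
        right
        rw [inv_inv, ValuationSubring.mem_comap]
        exact hxV)
      rw [← ValuationSubring.mem_nonunits_iff, ValuationSubring.mem_nonunits_iff_or] at h1
      rcases h1 with h1 | h1
      · rw [map_eq_zero, inv_eq_zero] at h1
        intro _
        have h2 : x = 0 := congrArg Subtype.val h1
        exact hxV (by rw [h2]; exact zero_mem _)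
      · rwa [map_inv₀, inv_inv] at h1
    · intro w hw
      obtain ⟨_, _, _, _, _, _, _, _, _, _, _, _, hsec⟩ := trS hGC k f hsep hodd hdeg
      obtain ⟨_, _, h4, _⟩ := hsec c hc E ⟨x, hxE⟩ ⟨y, hyE⟩ hx' hxy' s
      refine ⟨h4 m hm w hw, fun g => ?_⟩
      obtain ⟨τ, hτ1, hτ2⟩ := hσ g
      rw [hτ2, hτ1]

end

end Pool.Agent.TOWS
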