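import Pool.Agent.Helper13.M.Defs

/-!
# Project TW (MP_e66f84_ag): quadratic twists of curves with a rational Weierstrass point

`k` number field, `f ∈ k[x]` irreducible of odd degree `≥ 5`, `X : y² = f(x)`, twists
`X_c : y² = c f(x)`.  For every `n`, for 100% of `c ∈ k* / k*²` every Galois section of `X_c` (and of
every curve above `X_c`) agrees modulo `[2 ^ n]` with the section of the point at infinity.

This file: the interface with the arithmetic half (`StmtTypes`: for a double cover of any curve `Y`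
with exactly one rational branch point `b₁`, for 100% of the twists all the local types of all
sections are `b₁`), and the blocks of the tower.

The tower: `N n = NX (2 ^ n)` is generated over `M = E(X)` by all `w ∈ U` with `w ^ 2 ^ n ∈ M` (the
function field of `[2 ^ n]⁻¹ X`).  If `Φ` (the action of a section of `X_c`) fixes a place `Q` of
`N n` over infinity then it fixes the elements of `KQ Q`, the field of elements of `N n` fixed by the
stabiliser of `Q`: it is the function field over `k` of the quotient of `[2 ^ n]⁻¹ X` by `± 1`.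
-/

set_option autoImplicit false

namespace Pool.Agent.TOW

open VC IntermediateField NumberField IsDedekindDomain Pool.Agent.SC Pool.Agent.L Pool.Agent.M
open Filter
open Pool.Agent.HG (Pr nm IsOdd)

noncomputable section

/-! ## The interface -/

/-- The property `P` holds for `0 %` of the classes `c ∈ k* / k*²`, ordered by `cond`. -/
def Rare {k : Type} [Field k] [NumberField k] (P : k → Prop) : Prop :=
  ∀ ε : ℝ, 0 < ε → ∀ᶠ X : ℕ in atTop, ∀ T : Finset k,
    (∀ c ∈ T, ∀ c' ∈ T, (∃ d : k, c = c' * d ^ 2) → c = c') →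
    (∀ c ∈ T, c ≠ 0 ∧ Pool.Agent.HG.cond c ≤ X ∧ P c) → (T.card : ℝ) ≤ ε * X

/-- `N` is generated over `L0` by finitely many elements -/
def FGL (E K0 : Type) {U : Type} [Field E] [Field K0] [Field U] [Algebra E U] [Algebra K0 U]
    (N : IntermediateField E U) : Prop :=
  ∃ Z : Finset U, ∀ N' : IntermediateField E U, L0 E K0 ≤ N' → (∀ z ∈ Z, z ∈ N') → N ≤ N'

/-- THEOREM TYPES: exactly one rational branch point `b₁` and at least five branch points. -/
def StmtTypes : Prop :=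
  ∀ (k K0 E U : Type) [Field k] [NumberField k] [Field K0] [Field E] [Field U] [Algebra k K0]
    [Algebra k E] [Algebra E U] [Algebra K0 U] [Algebra k U] [IsScalarTower k E U]
    [IsScalarTower k K0 U] (h : K0) (r : U), Geo k K0 E U h r →
    ∀ b₁ : Place E (L0 E K0 (U := U)), BPl h b₁ →
    (∀ (c : k) (Φ : (E ≃ₐ[k] E) →* (U ≃+* U)), c ≠ 0 → Act (K0 := K0) r c Φ →
      (∀ σ : E ≃ₐ[k] E, Moves (Φ σ) _ b₁ b₁) ∧
      ∀ b : Place E (L0 E K0 (U := U)), BPl h b → b ≠ b₁ → ∃ σ : E ≃ₐ[k] E, ¬ Moves (Φ σ) _ b b) →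
    5 ≤ Set.ncard {b : Place E (L0 E K0 (U := U)) | BPl h b} →
    ∀ N : IntermediateField E U, L0 E K0 ≤ N → FGL E K0 N →
    ∃ Bad : Set (Pr k), Bad.Finite ∧
      Rare (fun c : k => ∃ Φ : (E ≃ₐ[k] E) →* (U ≃+* U), Act (K0 := K0) r c Φ ∧
        ∃ v ∉ Bad, IsOdd v c ∧ ∃ (O : ValuationSubring E) (F : E ≃ₐ[k] E) (p f : ℕ),
          DecPt v O F p f ∧ ¬ ∃ Q : Place E N, OverPl b₁ Q ∧ Moves (Φ F) N Q Q ∧
            ∀ τ : E ≃ₐ[k] E, Inert O τ.toRingEquiv → Moves (Φ τ) N Q Q)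

/-- BLOCK CH (from `M.StmtHF`, the Frobenius density theorem and `L.StmtCT`): for 100% of `c` no
character of `Gal(E / L)` of order two, unramified outside `Bad`, is trivial on all Frobenius elements
at the primes `v ∉ Bad` with `v(c)` odd. -/
def StmtCH : Prop :=
  ∀ (k E : Type) [Field k] [NumberField k] [Field E] [IsAlgClosed E] [Algebra k E]
    [Algebra.IsAlgebraic k E] (L : IntermediateField k E), FiniteDimensional k L →
    ∀ Bad : Set (Pr k), Bad.Finite →
    Rare (fun c : k => ∃ χ : L.fixingSubgroup →* ℤˣ, χ ≠ 1 ∧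
      (∃ L' : IntermediateField k E, FiniteDimensional k L' ∧
        ∀ g : L.fixingSubgroup, (∀ x ∈ L', (g : E ≃ₐ[k] E) x = x) → χ g = 1) ∧
      (∀ v ∉ Bad, ∀ O : ValuationSubring E, OverV v O → ∀ τ : L.fixingSubgroup,
        Inert O (τ : E ≃ₐ[k] E).toRingEquiv → χ τ = 1) ∧
      ∀ v ∉ Bad, IsOdd v c → ∀ (O : ValuationSubring E) (F : E ≃ₐ[k] E) (p f : ℕ),
        DecPt v O F p f → ∀ hF : F ∈ L.fixingSubgroup, χ ⟨F, hF⟩ = 1)

/-! ## The levels -/

section defs

variable {U : Type} [Field U]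

/-- `w` is an `m`-th root of an element of `M = MM E K0 r` -/
def RX (E K0 : Type) [Field E] [Field K0] [Algebra E U] [Algebra K0 U] (r : U) (m : ℕ) (w : U) :
    Prop := w ≠ 0 ∧ w ^ m ∈ MM E K0 r

/-- the field generated by all these roots -/
def NX (E K0 : Type) [Field E] [Field K0] [Algebra E U] [Algebra K0 U] (r : U) (m : ℕ) :
    IntermediateField E U :=
  IntermediateField.adjoin E ((MM E K0 r : Set U) ∪ {w | RX E K0 r m w})

/-- automorphisms of `U` over `K0` which preserve `E` -/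
structure Au (E K0 : Type) [Field E] [Field K0] [Algebra E U] [Algebra K0 U] (T : U ≃+* U) :
    Prop where
  fixK : ∀ x : K0, T (algebraMap K0 U x) = algebraMap K0 U x
  presE : ∀ e : E, ∃ e' : E, T (algebraMap E U e) = algebraMap E U e'

/-- automorphisms of `U` over `L0` -/
structure AuE (E K0 : Type) [Field E] [Field K0] [Algebra E U] [Algebra K0 U] (T : U ≃+* U) :
    Prop where
  fixK : ∀ x : K0, T (algebraMap K0 U x) = algebraMap K0 U x
  fixE : ∀ e : E, T (algebraMap E U e) = algebraMap E U e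

/-- `Q` is a place over the point at infinity of `x` -/
def Infp {E K0 : Type} [Field E] [Field K0] [Algebra E U] [Algebra K0 U] (x : K0)
    {N : IntermediateField E U} (Q : Place E N) : Prop :=
  ∀ hx : algebraMap K0 U x ∈ N, (⟨algebraMap K0 U x, hx⟩ : N) ∉ Q.ring

/-- the elements of `K0 N`, `N = NX m`, fixed by the stabiliser of the place `Q` -/
def KQ {E K0 : Type} [Field E] [Field K0] [Algebra E U] [Algebra K0 U] {r : U} {m : ℕ}
    (Q : Place E (NX E K0 r m)) : IntermediateField K0 U where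
  carrier := {z | z ∈ NX E K0 r m ∧
    ∀ T : U ≃+* U, Au E K0 T → Moves T (NX E K0 r m) Q Q → T z = z}
  mul_mem' := fun {a b} ha hb => ⟨mul_mem ha.1 hb.1, fun T hT hm => by
    rw [map_mul, ha.2 T hT hm, hb.2 T hT hm]⟩
  add_mem' := fun {a b} ha hb => ⟨add_mem ha.1 hb.1, fun T hT hm => by
    rw [map_add, ha.2 T hT hm, hb.2 T hT hm]⟩
  algebraMap_mem' := fun a => ⟨IntermediateField.subset_adjoin _ _
    (Or.inl (IntermediateField.subset_adjoin _ _ (Or.inl ⟨a, rfl⟩))), fun T hT _ => hT.fixK a⟩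
  inv_mem' := fun a ha => ⟨inv_mem ha.1, fun T hT hm => by rw [map_inv₀, ha.2 T hT hm]⟩

end defs

/-- The hyperelliptic situation: `K0 = k(x)`, `h = f(x)`, `f` irreducible of odd degree `≥ 5`. -/
structure Hyp {k K0 : Type} (E : Type) {U : Type} [Field k] [Field K0] [Field E] [Field U]
    [Algebra k K0] [Algebra k E] [Algebra E U] [Algebra K0 U] [Algebra k U] (x : K0)
    (f : Polynomial k) (r : U) : Prop where
  geo : Geo k K0 E U (Polynomial.aeval x f) r
  gen : IntermediateField.adjoin k {x} = ⊤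
  tr : Transcendental k x
  irr : Irreducible f
  odd : Odd f.natDegree
  deg : 5 ≤ f.natDegree

/-! ## The blocks of the tower -/

/-- BLOCK PX1 (places of an arbitrary level, any `Y`): conjugation, stabilisers, finiteness. -/
def StmtPX1 : Prop :=
  ∀ (k K0 E U : Type) [Field k] [NumberField k] [Field K0] [Field E] [Field U] [Algebra k K0]
    [Algebra k E] [Algebra E U] [Algebra K0 U] [Algebra k U] [IsScalarTower k E U]
    [IsScalarTower k K0 U] (h : K0) (r : U), Geo k K0 E U h r → ∀ n : ℕ,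
    (∀ T : U ≃+* U, Au E K0 T → ∀ z ∈ NX E K0 r (2 ^ n), T z ∈ NX E K0 r (2 ^ n)) ∧
    FGL E K0 (NX E K0 r (2 ^ n)) ∧ IsFunctionField E (NX E K0 r (2 ^ n)) ∧
    (∀ Q Q' : Place E (NX E K0 r (2 ^ n)),
      (∀ b : Place E (L0 E K0 (U := U)), OverPl b Q ↔ OverPl b Q') →
      ∃ T : U ≃+* U, AuE E K0 T ∧ Moves T _ Q Q') ∧
    (∀ (T : U ≃+* U) (Q : Place E (NX E K0 r (2 ^ n))), AuE E K0 T → T r = r → Moves T _ Q Q →
      ∀ z ∈ NX E K0 r (2 ^ n), T z = z) ∧
    (∀ (b : Place E (L0 E K0 (U := U))) (Q : Place E (NX E K0 r (2 ^ n))), BPl h b → OverPl b Q →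
      ∃ T : U ≃+* U, AuE E K0 T ∧ T r = -r ∧ Moves T _ Q Q) ∧
    (∀ b : Place E (L0 E K0 (U := U)),
      {Q : Place E (NX E K0 r (2 ^ n)) | OverPl b Q}.Finite ∧
      {Q : Place E (NX E K0 r (2 ^ n)) | OverPl b Q}.Nonempty) ∧
    ∀ Q : Place E (NX E K0 r (2 ^ n)), {Q' : Place E (NX E K0 r (2 ^ (n + 1))) |
      OverPl Q Q'}.Nonempty

/-- BLOCK PX2 (any `Y`): automorphisms which fix certain finitely many elements of `N` fix the places
over `b` (take for every `Q` over `b` a function with a pole only at `Q`). -/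
def StmtPX2 : Prop :=
  ∀ (k K0 E U : Type) [Field k] [NumberField k] [Field K0] [Field E] [Field U] [Algebra k K0]
    [Algebra k E] [Algebra E U] [Algebra K0 U] [Algebra k U] [IsScalarTower k E U]
    [IsScalarTower k K0 U] (h : K0) (r : U), Geo k K0 E U h r → ∀ (n : ℕ)
    (b : Place E (L0 E K0 (U := U))), ∃ Z : Finset U, ∀ T : U ≃+* U, Au E K0 T →
      (∀ z ∈ Z, T z = z) → ∀ Q : Place E (NX E K0 r (2 ^ n)), OverPl b Q → Moves T _ Q Q

/-- BLOCK KX1 (any `Y`): the classes of order a power of two of `X` are divisible. -/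
def StmtKX1 : Prop :=
  ∀ (k K0 E U : Type) [Field k] [NumberField k] [Field K0] [Field E] [Field U] [Algebra k K0]
    [Algebra k E] [Algebra E U] [Algebra K0 U] [Algebra k U] [IsScalarTower k E U]
    [IsScalarTower k K0 U] (h : K0) (r : U), Geo k K0 E U h r → ∀ (j : ℕ) (w : U),
    RX E K0 r (2 ^ j) w → ∃ u m : U, RX E K0 r (2 ^ (j + 1)) u ∧ m ∈ MM E K0 r ∧ m ≠ 0 ∧
      u ^ 2 = w * m

/-- BLOCK KD (any `Y`; Kummer theory, duality): every character of the group of classes of order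
dividing `2 ^ n` is given by an automorphism of `U` over `M`. -/
def StmtKD : Prop :=
  ∀ (k K0 E U : Type) [Field k] [NumberField k] [Field K0] [Field E] [Field U] [Algebra k K0]
    [Algebra k E] [Algebra E U] [Algebra K0 U] [Algebra k U] [IsScalarTower k E U]
    [IsScalarTower k K0 U] (h : K0) (r : U), Geo k K0 E U h r → ∀ (n : ℕ) (χ : U → E),
    (∀ w w' : U, RX E K0 r (2 ^ n) w → RX E K0 r (2 ^ n) w' → χ (w * w') = χ w * χ w') →
    (∀ w ∈ MM E K0 r, w ≠ 0 → χ w = 1) → (∀ w : U, RX E K0 r (2 ^ n) w → χ w ^ 2 ^ n = 1) →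
    ∃ T : U ≃+* U, AuE E K0 T ∧ T r = r ∧
      ∀ w : U, RX E K0 r (2 ^ n) w → T w = algebraMap E U (χ w) * w

/-- BLOCK INF (hyperelliptic): the branch point at infinity. -/
def StmtINF : Prop :=
  ∀ (k K0 E U : Type) [Field k] [NumberField k] [Field K0] [Field E] [Field U] [Algebra k K0]
    [Algebra k E] [Algebra E U] [Algebra K0 U] [Algebra k U] [IsScalarTower k E U]
    [IsScalarTower k K0 U] (x : K0) (f : Polynomial k) (r : U), Hyp E x f r →
    ∃ b₀ : Place E (L0 E K0 (U := U)), BPl (Polynomial.aeval x f) b₀ ∧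
      (∀ (n : ℕ) (Q : Place E (NX E K0 r (2 ^ n))), Infp x Q ↔ OverPl b₀ Q) ∧
      ∀ T : U ≃+* U, Au E K0 T → Moves T _ b₀ b₀

/-- BLOCK KX2 (hyperelliptic): `-1`, and the classes of order two. -/
def StmtKX2 : Prop :=
  ∀ (k K0 E U : Type) [Field k] [NumberField k] [Field K0] [Field E] [Field U] [Algebra k K0]
    [Algebra k E] [Algebra E U] [Algebra K0 U] [Algebra k U] [IsScalarTower k E U]
    [IsScalarTower k K0 U] (x : K0) (f : Polynomial k) (r : U), Hyp E x f r →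
    (∀ β : E, Polynomial.aeval β f = 0 → ∃ w : U, w ^ 2 = algebraMap K0 U x - algebraMap E U β) ∧
    (∀ T : U ≃+* U, AuE E K0 T → T r = -r → ∀ (j : ℕ) (w : U), RX E K0 r (2 ^ j) w →
      w * T w ∈ MM E K0 r) ∧
    ∀ ww : E → U, (∀ β : E, Polynomial.aeval β f = 0 →
        ww β ^ 2 = algebraMap K0 U x - algebraMap E U β) →
      (∀ w : U, RX E K0 r 2 w → ∃ S : Finset E, (∀ β ∈ S, Polynomial.aeval β f = 0) ∧
        w * ∏ β ∈ S, ww β ∈ MM E K0 r) ∧
      ∀ S : Finset E, (∀ β ∈ S, Polynomial.aeval β f = 0) →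
        (∏ β ∈ S, ww β ∈ MM E K0 r ↔ S = ∅ ∨ ∀ β : E, Polynomial.aeval β f = 0 → β ∈ S)

/-- BLOCK KG (any `Y`): the field `KQ Q` gives again a double cover with the same `h`, `r`, `U`; the
place `b₁` below `Q` is a branch point, and `Q` is the only place above it. -/
def StmtKG : Prop :=
  ∀ (k K0 E U : Type) [Field k] [NumberField k] [Field K0] [Field E] [Field U] [Algebra k K0]
    [Algebra k E] [Algebra E U] [Algebra K0 U] [Algebra k U] [IsScalarTower k E U]
    [IsScalarTower k K0 U] (h : K0) (r : U), Geo k K0 E U h r →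
    ∀ (n : ℕ) (b₀ : Place E (L0 E K0 (U := U))) (Q : Place E (NX E K0 r (2 ^ n))), BPl h b₀ →
    OverPl b₀ Q → ∀ (c₀ : k) (Φ₀ : (E ≃ₐ[k] E) →* (U ≃+* U)), c₀ ≠ 0 →
    Act (K0 := K0) r c₀ Φ₀ → (∀ g : E ≃ₐ[k] E, Moves (Φ₀ g) _ Q Q) →
    Geo k (KQ Q) E U (algebraMap K0 (KQ Q) h) r ∧
    L0 E (KQ Q) ≤ NX E K0 r (2 ^ n) ∧
    (∀ z ∈ NX E K0 r (2 ^ n), (∀ T : U ≃+* U, AuE E K0 T → T r = -r → Moves T _ Q Q → T z = z) →
      z ∈ L0 E (KQ Q) (U := U)) ∧
    (∀ T : U ≃+* U, AuE E K0 T → Moves T _ Q Q → ∀ z ∈ L0 E (KQ Q) (U := U), T z = z) ∧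
    ∃ b₁ : Place E (L0 E (KQ Q) (U := U)), BPl (algebraMap K0 (KQ Q) h) b₁ ∧ OverPl b₁ Q ∧
      ∀ Q' : Place E (NX E K0 r (2 ^ n)), OverPl b₁ Q' → Q' = Q

/-- BLOCK ORB (hyperelliptic; from `StmtKX1`, `StmtKX2`, `StmtKD`, `StmtPX1`, `StmtKG`, `StmtINF`): the branch points of the
double cover given by `KQ Q`. -/
def StmtORB : Prop :=
  ∀ (k K0 E U : Type) [Field k] [NumberField k] [Field K0] [Field E] [Field U] [Algebra k K0]
    [Algebra k E] [Algebra E U] [Algebra K0 U] [Algebra k U] [IsScalarTower k E U]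
    [IsScalarTower k K0 U] (x : K0) (f : Polynomial k) (r : U), Hyp E x f r →
    ∀ (n : ℕ) (Q : Place E (NX E K0 r (2 ^ n))), Infp x Q →
    ∀ (c₀ : k) (Φ₀ : (E ≃ₐ[k] E) →* (U ≃+* U)), c₀ ≠ 0 → Act (K0 := K0) r c₀ Φ₀ →
    (∀ g : E ≃ₐ[k] E, Moves (Φ₀ g) _ Q Q) →
    ∀ b₁ : Place E (L0 E (KQ Q) (U := U)), OverPl b₁ Q →
    (∀ (c : k) (Φ : (E ≃ₐ[k] E) →* (U ≃+* U)), c ≠ 0 → Act (K0 := KQ Q) r c Φ →
      (∀ σ : E ≃ₐ[k] E, Moves (Φ σ) _ b₁ b₁) ∧
      ∀ b : Place E (L0 E (KQ Q) (U := U)), BPl (algebraMap K0 (KQ Q) (Polynomial.aeval x f)) b →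
        b ≠ b₁ → ∃ σ : E ≃ₐ[k] E, ¬ Moves (Φ σ) _ b b) ∧
    5 ≤ Set.ncard {b : Place E (L0 E (KQ Q) (U := U)) |
      BPl (algebraMap K0 (KQ Q) (Polynomial.aeval x f)) b}

/-- BLOCK SA (hyperelliptic; from `StmtKX1`, `StmtKX2`, `StmtKD`, `StmtPX1`): the characters `ψ β` of the
stabilisers of the roots, for an action which fixes a place `Q` of level `n`: they are trivial on
elements which fix a place of level `n + 1` over `Q`, and if all are trivial then the action fixes a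
place of level `n + 1` over `Q`. -/
def StmtSA : Prop :=
  ∀ (k K0 E U : Type) [Field k] [NumberField k] [Field K0] [Field E] [Field U] [Algebra k K0]
    [Algebra k E] [Algebra E U] [Algebra K0 U] [Algebra k U] [IsScalarTower k E U]
    [IsScalarTower k K0 U] (x : K0) (f : Polynomial k) (r : U), Hyp E x f r →
    ∀ (n : ℕ) (Q : Place E (NX E K0 r (2 ^ n))), Infp x Q →
    ∀ (c : k) (Φ : (E ≃ₐ[k] E) →* (U ≃+* U)), c ≠ 0 → Act (K0 := K0) r c Φ →
    (∀ g : E ≃ₐ[k] E, Moves (Φ g) _ Q Q) →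
    ∃ ψ : (β : E) → ((IntermediateField.adjoin k {β}).fixingSubgroup →* ℤˣ),
      (∀ β : E, Polynomial.aeval β f = 0 →
        ∀ g : (IntermediateField.adjoin k {β}).fixingSubgroup,
        (∃ Q' : Place E (NX E K0 r (2 ^ (n + 1))), OverPl Q Q' ∧
          Moves (Φ (g : E ≃ₐ[k] E)) _ Q' Q') → ψ β g = 1) ∧
      (∀ β : E, Polynomial.aeval β f = 0 →
        ∃ L' : IntermediateField k E, FiniteDimensional k L' ∧
        ∀ g : (IntermediateField.adjoin k {β}).fixingSubgroup,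
          (∀ z ∈ L', (g : E ≃ₐ[k] E) z = z) → ψ β g = 1) ∧
      ((∀ β : E, Polynomial.aeval β f = 0 → ψ β = 1) →
        ∃ Q' : Place E (NX E K0 r (2 ^ (n + 1))), OverPl Q Q' ∧
          ∀ g : E ≃ₐ[k] E, Moves (Φ g) _ Q' Q')

/-- BLOCK STEP (from all the blocks above). -/
def StmtSTEP : Prop :=
  ∀ (k K0 E U : Type) [Field k] [NumberField k] [Field K0] [Field E] [Field U] [Algebra k K0]
    [Algebra k E] [Algebra E U] [Algebra K0 U] [Algebra k U] [IsScalarTower k E U]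
    [IsScalarTower k K0 U] (x : K0) (f : Polynomial k) (r : U), Hyp E x f r →
    ∀ (n : ℕ) (Q : Place E (NX E K0 r (2 ^ n))), Infp x Q →
    Rare (fun c : k => ∃ Φ : (E ≃ₐ[k] E) →* (U ≃+* U), Act (K0 := K0) r c Φ ∧
      (∀ g : E ≃ₐ[k] E, Moves (Φ g) _ Q Q) ∧
      ¬ ∃ Q' : Place E (NX E K0 r (2 ^ (n + 1))), OverPl Q Q' ∧
          ∀ g : E ≃ₐ[k] E, Moves (Φ g) _ Q' Q')

/-- THE TOWER THEOREM. -/
def StmtTower : Prop :=
  ∀ (k K0 E U : Type) [Field k] [NumberField k] [Field K0] [Field E] [Field U] [Algebra k K0]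
    [Algebra k E] [Algebra E U] [Algebra K0 U] [Algebra k U] [IsScalarTower k E U]
    [IsScalarTower k K0 U] (x : K0) (f : Polynomial k) (r : U), Hyp E x f r → ∀ n : ℕ,
    Rare (fun c : k => ∃ Φ : (E ≃ₐ[k] E) →* (U ≃+* U), Act (K0 := K0) r c Φ ∧
      ¬ ∃ Q : Place E (NX E K0 r (2 ^ n)), Infp x Q ∧ ∀ g : E ≃ₐ[k] E, Moves (Φ g) _ Q Q)

end

end Pool.Agent.TOW
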