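import Pool.Agent.Helper32.TW.OrbC
import Pool.Agent.Helper45.TW.SDefs

/-!
# Project TW: block OI3 for separable `f` (copy of helper32's proof)
-/

set_option autoImplicit false
set_option linter.unusedSectionVars false
set_option linter.unusedVariables false

namespace Pool.Agent.TOWS

open VC IntermediateField NumberField IsDedekindDomain Pool.Agent.SC Pool.Agent.L Pool.Agent.M
open Polynomial (aeval)
open Pool.Agent.TOW

noncomputable section

section poly

variable {k K0 E U : Type} [Field k] [NumberField k] [Field K0] [Field E] [Field U]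
  [Algebra k K0] [Algebra k E] [Algebra E U] [Algebra K0 U] [Algebra k U] [IsScalarTower k E U]
  [IsScalarTower k K0 U] {x : K0} {f : Polynomial k} {r : U}

theorem split32 (H : Pool.Agent.TOWS.Hyp E x f r) : ∃ (c : E) (R : Finset E), c ≠ 0 ∧
    (∀ β : E, β ∈ R ↔ aeval β f = 0) ∧ R.card = f.natDegree ∧
    algebraMap K0 U (aeval x f) =
      algebraMap E U c * ∏ β ∈ R, (algebraMap K0 U x - algebraMap E U β) := by
  classical
  have hcl : IsAlgClosed E := H.geo.clE
  have hsep : f.Separable := H.sep
  have hf0 : f ≠ 0 := H.sep.ne_zero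
  have hsep' : (f.map (algebraMap k E)).Separable := hsep.map
  have hf0' : f.map (algebraMap k E) ≠ 0 := by
    rwa [Ne, Polynomial.map_eq_zero]
  have hsp : (f.map (algebraMap k E)).Splits := IsAlgClosed.splits _
  have hnd : (f.map (algebraMap k E)).roots.Nodup := Polynomial.nodup_roots hsep'
  refine ⟨(f.map (algebraMap k E)).leadingCoeff, (f.map (algebraMap k E)).roots.toFinset, ?_, ?_,
    ?_, ?_⟩
  · rwa [Ne, Polynomial.leadingCoeff_eq_zero]
  · intro β
    rw [Multiset.mem_toFinset, Polynomial.mem_roots hf0', Polynomial.IsRoot.def,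
      Polynomial.eval_map_algebraMap]
  · rw [Multiset.toFinset_card_of_nodup hnd, ← hsp.natDegree_eq_card_roots,
      Polynomial.natDegree_map]
  · have h1 : algebraMap K0 U (aeval x f) = aeval (algebraMap K0 U x) f :=
      (Polynomial.aeval_algebraMap_apply U x f).symm
    have h2 : aeval (algebraMap K0 U x) f = aeval (algebraMap K0 U x) (f.map (algebraMap k E)) :=
      (Polynomial.aeval_map_algebraMap E (algebraMap K0 U x) f).symm
    rw [h1, h2]
    conv_lhs => rw [hsp.eq_prod_roots]
    rw [map_mul, Polynomial.aeval_C, map_multiset_prod, Multiset.map_map]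
    congr 1
    rw [Finset.prod_eq_multiset_prod, Multiset.toFinset_val, hnd.dedup]
    congr 1
    refine Multiset.map_congr rfl fun β _ => ?_
    simp only [Function.comp, map_sub, Polynomial.aeval_X, Polynomial.aeval_C]

theorem trans32 (H : Pool.Agent.TOWS.Hyp E x f r) : Transcendental E (algebraMap K0 U x) := by
  have halg : Algebra.IsAlgebraic k E := H.geo.algE
  intro h
  have h1 : IsAlgebraic k (algebraMap K0 U x) := h.restrictScalars k
  exact H.tr ((isAlgebraic_algebraMap_iff (algebraMap K0 U).injective).1 h1)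

theorem sub_ne32 (H : Pool.Agent.TOWS.Hyp E x f r) (β : E) : algebraMap K0 U x - algebraMap E U β ≠ 0 := by
  intro h
  rw [sub_eq_zero] at h
  apply trans32 H
  rw [h]
  exact isAlgebraic_algebraMap β

theorem chE32 (H : Pool.Agent.TOWS.Hyp E x f r) : CharZero E :=
  charZero_of_injective_algebraMap (algebraMap k E).injective

theorem r_ne32 (H : Pool.Agent.TOWS.Hyp E x f r) : r ≠ 0 := by
  rintro rfl
  exact H.geo.rnot (zero_mem _)

theorem gen32 (H : Pool.Agent.TOWS.Hyp E x f r) (β : E) :
    IntermediateField.adjoin E {inL0 (E := E) (U := U) x - algebraMap E (L0 E K0 (U := U)) β} =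
      ⊤ := by
  obtain ⟨F, hF⟩ : ∃ F : IntermediateField E (L0 E K0 (U := U)), F = IntermediateField.adjoin E
    {inL0 (E := E) (U := U) x - algebraMap E (L0 E K0 (U := U)) β} := ⟨_, rfl⟩
  rw [← hF]
  have hx : inL0 (E := E) (U := U) x ∈ F := by
    have h1 : inL0 (E := E) (U := U) x - algebraMap E (L0 E K0 (U := U)) β ∈ F := by
      rw [hF]
      exact IntermediateField.mem_adjoin_simple_self E _
    have h2 := add_mem h1 (F.algebraMap_mem β)
    rwa [sub_add_cancel] at h2
  have hK : ∀ y : K0, inL0 (E := E) (U := U) y ∈ F := by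
    intro y
    have hy : y ∈ IntermediateField.adjoin k {x} := by
      rw [H.gen]
      trivial
    induction hy using IntermediateField.adjoin_induction with
    | mem y hy =>
      rw [Set.mem_singleton_iff] at hy
      rw [hy]
      exact hx
    | algebraMap a =>
      have h1 : inL0 (E := E) (U := U) (algebraMap k K0 a) =
          algebraMap E (L0 E K0 (U := U)) (algebraMap k E a) := by
        apply Subtype.ext
        change algebraMap K0 U (algebraMap k K0 a) = algebraMap E U (algebraMap k E a)
        rw [← IsScalarTower.algebraMap_apply k K0 U, ← IsScalarTower.algebraMap_apply k E U]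
      rw [h1]
      exact F.algebraMap_mem _
    | add y z _ _ h1 h2 =>
      have h3 : inL0 (E := E) (U := U) (y + z) = inL0 y + inL0 z :=
        Subtype.ext (map_add (algebraMap K0 U) y z)
      rw [h3]
      exact add_mem h1 h2
    | inv y _ h1 =>
      have h3 : inL0 (E := E) (U := U) y⁻¹ = (inL0 y)⁻¹ := Subtype.ext (map_inv₀ (algebraMap K0 U) y)
      rw [h3]
      exact inv_mem h1
    | mul y z _ _ h1 h2 =>
      have h3 : inL0 (E := E) (U := U) (y * z) = inL0 y * inL0 z :=
        Subtype.ext (map_mul (algebraMap K0 U) y z)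
      rw [h3]
      exact mul_mem h1 h2
  rw [eq_top_iff]
  rintro ⟨z, hz⟩ -
  change z ∈ IntermediateField.adjoin E (Set.range (algebraMap K0 U)) at hz
  have key : ∀ z ∈ IntermediateField.adjoin E (Set.range (algebraMap K0 U)),
      ∃ hz : z ∈ L0 E K0 (U := U), (⟨z, hz⟩ : L0 E K0 (U := U)) ∈ F := by
    intro z hz
    induction hz using IntermediateField.adjoin_induction with
    | mem y hy =>
      obtain ⟨c, rfl⟩ := hy
      exact ⟨K_mem32 c, hK c⟩
    | algebraMap e => exact ⟨(L0 E K0 (U := U)).algebraMap_mem e, F.algebraMap_mem e⟩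
    | add y z _ _ h1 h2 =>
      obtain ⟨h1, h1'⟩ := h1
      obtain ⟨h2, h2'⟩ := h2
      exact ⟨add_mem h1 h2, add_mem h1' h2'⟩
    | inv y _ h1 =>
      obtain ⟨h1, h1'⟩ := h1
      exact ⟨inv_mem h1, inv_mem h1'⟩
    | mul y z _ _ h1 h2 =>
      obtain ⟨h1, h1'⟩ := h1
      obtain ⟨h2, h2'⟩ := h2
      exact ⟨mul_mem h1 h2, mul_mem h1' h2'⟩
  exact (key z hz).2

end poly

theorem oI3 : Pool.Agent.TOWS.StmtOI3 := by
  intro k K0 E U _ _ _ _ _ _ _ _ _ _ _ _ x f r H
  classical
  have hcl : IsAlgClosed E := H.geo.clE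
  have hch : CharZero E := chE32 H
  have hff := H.geo.ff
  obtain ⟨c, R, hc0, hR, hRc, hprod⟩ := split32 H
  have hprod' : inL0 (E := E) (U := U) (aeval x f) = algebraMap E (L0 E K0 (U := U)) c *
      ∏ β ∈ R, (inL0 x - algebraMap E (L0 E K0 (U := U)) β) := by
    apply (algebraMap (L0 E K0 (U := U)) U).injective
    rw [map_mul, map_prod]
    exact hprod
  constructor
  · intro b hb hx
    obtain ⟨γ, hγ⟩ := FF.exists_residue hff b hx
    rw [ValuationSubring.mem_nonunits_iff] at hγ
    refine ⟨γ, ?_, hγ⟩
    by_contra hcon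
    apply hb
    rw [ord_zero32 hff b]
    · exact dvd_zero _
    rw [hprod', map_mul, val_const32 b hc0, one_mul, map_prod]
    refine Finset.prod_eq_one fun β hβ => val_fin32 b hγ ?_
    rintro rfl
    exact hcon ((hR β).1 hβ)
  · intro β hβ
    have htr : Transcendental E (inL0 (E := E) (U := U) x - algebraMap E (L0 E K0 (U := U)) β) := by
      intro h
      apply trans32 H
      have h1 : IsAlgebraic E (inL0 (E := E) (U := U) x) := by
        have h2 := h.add (isAlgebraic_algebraMap (R := E) (A := L0 E K0 (U := U)) β)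
        rwa [sub_add_cancel] at h2
      exact (isAlgebraic_algebraMap_iff (R := E) (A := U)
        (algebraMap (L0 E K0 (U := U)) U).injective).2 h1
    obtain ⟨b, hb⟩ := FF.exists_place htr
    have hb' := hb
    rw [ValuationSubring.mem_nonunits_iff] at hb'
    refine ⟨b, ?_, hb'⟩
    have ht0 : inL0 (E := E) (U := U) x - algebraMap E (L0 E K0 (U := U)) β ≠ 0 := by
      intro h
      rw [h] at htr
      exact htr isAlgebraic_zero
    have h1 : ord b.ring (inL0 (E := E) (U := U) x - algebraMap E (L0 E K0 (U := U)) β) ≤ 1 := by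
      have h2 := FF.sum_ord_le hff htr {b} (fun P hP => by
        rw [Finset.mem_singleton] at hP
        rw [hP]
        exact hb)
      rw [Finset.sum_singleton] at h2
      refine h2.trans (le_of_eq ?_)
      rw [gen32 H β, IntermediateField.finrank_top]
      rfl
    have h2 : 0 < ord b.ring (inL0 (E := E) (U := U) x - algebraMap E (L0 E K0 (U := U)) β) :=
      (FF.ord_pos_iff hff b ht0).2 hb
    have hβR : β ∈ R := (hR β).2 hβ
    obtain ⟨q, hq⟩ : ∃ q, q = algebraMap E (L0 E K0 (U := U)) c *
      ∏ γ ∈ R.erase β, (inL0 x - algebraMap E (L0 E K0 (U := U)) γ) := ⟨_, rfl⟩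
    have hq1 : b.ring.valuation q = 1 := by
      rw [hq, map_mul, val_const32 b hc0, one_mul, map_prod]
      exact Finset.prod_eq_one fun γ hγ => val_fin32 b hb' (Finset.ne_of_mem_erase hγ)
    have hq0 : q ≠ 0 := by
      rintro h0
      rw [h0, map_zero] at hq1
      exact zero_ne_one hq1
    have h3 : inL0 (E := E) (U := U) (aeval x f) =
        q * (inL0 x - algebraMap E (L0 E K0 (U := U)) β) := by
      rw [hprod', hq, mul_assoc, Finset.prod_erase_mul _ _ hβR]
    unfold BPl
    rw [h3, FF.ord_mul hff b hq0 ht0, ord_zero32 hff b hq1]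
    omega

end

end Pool.Agent.TOWS
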