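import Pool.Agent.Helper45.TW.SAd

/-!
# Project TW, block SA: the levels, the signs
-/

set_option autoImplicit false

namespace Pool.Agent.TOW

open VC IntermediateField NumberField IsDedekindDomain Pool.Agent.SC Pool.Agent.L Pool.Agent.M
open Pool.Agent.HG (Pr nm IsOdd)

section places

variable {E K0 U : Type} [Field E] [Field K0] [Field U] [Algebra E U] [Algebra K0 U]

/-- the place below is unique -/
theorem over_unique {N N' : IntermediateField E U} (hle : N ≤ N') {Q P : Place E N}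
    {Q' : Place E N'} (h : OverPl Q Q') (h' : OverPl P Q') : Q = P := by
  refine place_ext fun x => ?_
  have h1 := h x x.2 (hle x.2)
  have h2 := h' x x.2 (hle x.2)
  exact h1.trans h2.symm

theorem over_trans' {N N' N'' : IntermediateField E U} (h1 : N ≤ N') {Q : Place E N}
    {Q' : Place E N'} {Q'' : Place E N''} (h : OverPl Q Q') (h' : OverPl Q' Q'') :
    OverPl Q Q'' := by
  intro x hx hx'
  rw [h x hx (h1 hx), h' x (h1 hx) hx']

theorem L0_le_NX {r : U} {m : ℕ} : L0 E K0 (U := U) ≤ NX E K0 r m := L0_le_MM.trans MM_le_NX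

end places

/-- The levels. -/
theorem exists_Lv (hPX1 : StmtPX1) (hINF : StmtINF) {k K0 E U : Type} [Field k] [NumberField k]
    [Field K0] [Field E] [Field U] [Algebra k K0]
    [Algebra k E] [Algebra E U] [Algebra K0 U] [Algebra k U] [IsScalarTower k E U]
    [IsScalarTower k K0 U] {x : K0} {f : Polynomial k} {r : U} (H : Hyp E x f r) {n : ℕ}
    {Q : Place E (NX E K0 r (2 ^ n))} (hQ : Infp x Q) :
    Lv E K0 r n Q ∧ ∃ Q' : Place E (NX E K0 r (2 ^ (n + 1))), OverPl Q Q' := by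
  obtain ⟨b₀, hb₀, hinf, -⟩ := hINF k K0 E U x f r H
  obtain ⟨h1, -, -, -, h5, -, -, h8⟩ := hPX1 k K0 E U _ r H.geo n
  obtain ⟨g1, -, -, g4, g5, g6, -, -⟩ := hPX1 k K0 E U _ r H.geo (n + 1)
  have hrr : ∀ T : U ≃+* U, Au E K0 T → T r = r ∨ T r = -r := by
    intro T hT
    apply sq_eq_sq_iff_eq_or_eq_neg.1
    rw [← map_pow, H.geo.rsq, hT.fixK]
  have hbQ : OverPl b₀ Q := (hinf n Q).1 hQ
  refine ⟨⟨h1, g1, fun T hT hr hm => h5 T Q hT hr hm, g5, ?_, hrr⟩, ?_⟩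
  · intro Q' Q'' h' h''
    have hb' : OverPl b₀ Q' := over_trans' L0_le_NX hbQ h'
    have hb'' : OverPl b₀ Q'' := over_trans' L0_le_NX hbQ h''
    obtain ⟨T, hT, hm⟩ := g4 Q' Q'' fun b => ⟨fun hb => by
      rw [over_unique L0_le_NX hb hb']; exact hb'', fun hb => by
      rw [over_unique L0_le_NX hb hb'']; exact hb'⟩
    rcases hrr T hT.au with h2 | h2
    · exact ⟨T, hT, h2, hm⟩
    · obtain ⟨T', hT', h3, hm'⟩ := g6 b₀ Q'' hb₀ hb''
      refine ⟨T' * T, hT'.mul hT, ?_, moves_comp (g1 T hT.au) hm hm'⟩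
      show T' (T r) = r
      rw [h2, map_neg, h3, neg_neg]
  · exact h8 Q

section act

variable {k K0 E U : Type} [Field k] [Field K0] [Field E] [Field U] [Algebra k K0]
    [Algebra k E] [Algebra E U] [Algebra K0 U]

theorem act_au {r : U} {c : k} {Φ : (E ≃ₐ[k] E) →* (U ≃+* U)} (hΦ : Act (K0 := K0) r c Φ)
    (g : E ≃ₐ[k] E) : Au E K0 (Φ g) := ⟨hΦ.fixK g, fun e => ⟨g e, hΦ.const g e⟩⟩

theorem act_au_inv {r : U} {c : k} {Φ : (E ≃ₐ[k] E) →* (U ≃+* U)} (hΦ : Act (K0 := K0) r c Φ)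
    (g : E ≃ₐ[k] E) : Au E K0 (Φ g)⁻¹ := by
  rw [← map_inv]
  exact act_au hΦ g⁻¹

/-- The signs. -/
structure Sg (E K0 : Type) {k U : Type} [Field k] [Field E] [Field K0] [Field U] [Algebra E U]
    [Algebra K0 U] [Algebra k E] (r : U) (n : ℕ) (Q' : Place E (NX E K0 r (2 ^ (n + 1))))
    (Φ : (E ≃ₐ[k] E) →* (U ≃+* U)) (R : Finset E) (u : E → U)
    (a : (E ≃ₐ[k] E) → (U ≃+* U)) (s : (E ≃ₐ[k] E) → E → ℤˣ) : Prop where
  ad : ∀ g, Ad E K0 r n Q' (Φ g) (a g)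
  sg : ∀ g, ∀ β ∈ R, a g (u β) = ((s g β : ℤ) : U) * u β

variable {r : U} {n : ℕ} {Q : Place E (NX E K0 r (2 ^ n))} {x : K0} {R : Finset E} {ww u : E → U}
  {c : k} {Φ : (E ≃ₐ[k] E) →* (U ≃+* U)} {Q' : Place E (NX E K0 r (2 ^ (n + 1)))}

theorem exists_Sg [CharZero U] (hL : Lv E K0 r n Q) (D : RD E K0 r x n R ww u)
    (hΦ : Act (K0 := K0) r c Φ) (hfix : ∀ g : E ≃ₐ[k] E, Moves (Φ g) _ Q Q)
    (hQ' : OverPl Q Q') :
    ∃ a s, Sg E K0 r n Q' Φ R u a s := by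
  have h1 : ∀ g, ∃ a, Ad E K0 r n Q' (Φ g) a := fun g =>
    hL.exists_ad hQ' (act_au hΦ g) (act_au_inv hΦ g) (hfix g)
  choose a ha using h1
  have h2 : ∀ g β, ∃ s : ℤˣ, β ∈ R → a g (u β) = ((s : ℤ) : U) * u β := by
    intro g β
    by_cases hβ : β ∈ R
    · obtain ⟨s, hs⟩ := D.sign (ha g).tr hβ
      exact ⟨s, fun _ => hs⟩
    · exact ⟨1, fun h => absurd h hβ⟩
  choose s hs using h2
  exact ⟨a, s, ha, fun g β hβ => hs g β hβ⟩

theorem units_ring (s s' : ℤˣ) : (((s * s' : ℤˣ) : ℤ) : U) = ((s : ℤ) : U) * ((s' : ℤ) : U) := by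
  push_cast
  rfl

/-- the cocycle relation -/
theorem Sg.mul [CharZero U] {a s} (S : Sg E K0 r n Q' Φ R u a s) (hL : Lv E K0 r n Q)
    (D : RD E K0 r x n R ww u) (hΦ : Act (K0 := K0) r c Φ)
    (hR : ∀ (g : E ≃ₐ[k] E), ∀ β ∈ R, g β ∈ R) (g g' : E ≃ₐ[k] E) {β : E} (hβ : β ∈ R) :
    s (g * g') β = s g β * s g' (g⁻¹ β) := by
  have h1 := hL.ad_mul (act_au hΦ g) (act_au_inv hΦ g) (act_au hΦ g') (S.ad g) (S.ad g')
  rw [← map_mul] at h1
  have h2 := hL.ad_unique (act_au hΦ (g * g')) (act_au_inv hΦ (g * g')) (S.ad (g * g')) h1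
    (u β) (D.hu β hβ).mem
  have hgg : g (g⁻¹ β) = β := g.apply_symm_apply β
  have h3 := hL.sign_conj D (act_au hΦ g) (act_au_inv hΦ g) (hR g⁻¹ β hβ) hβ
    (by rw [hΦ.const, hgg]) (S.ad g').tr (S.sg g' _ (hR g⁻¹ β hβ))
  have h4 : (Φ g * a g' * (Φ g)⁻¹ * a g) (u β) =
      (((s g β * s g' (g⁻¹ β) : ℤˣ) : ℤ) : U) * u β := by
    show (Φ g * a g' * (Φ g)⁻¹) (a g (u β)) = _
    rw [S.sg g β hβ, map_mul, map_intCast, h3, units_ring, mul_assoc]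
  rw [S.sg _ β hβ, h4] at h2
  exact sign_inj (D.hu β hβ).1 h2

/-- an element which fixes a place over `Q` has trivial signs -/
theorem Sg.one_of_fix [CharZero U] {a s} (S : Sg E K0 r n Q' Φ R u a s) (hL : Lv E K0 r n Q)
    (D : RD E K0 r x n R ww u) (hΦ : Act (K0 := K0) r c Φ) (hQ' : OverPl Q Q')
    {g : E ≃ₐ[k] E} {β : E} (hβ : β ∈ R) (hg : g β = β) {P : Place E (NX E K0 r (2 ^ (n + 1)))}
    (hP : OverPl Q P) (hm : Moves (Φ g) _ P P) : s g β = 1 := by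
  obtain ⟨b, hb, hbr, hbt, hbm⟩ := hL.conj' hQ' hP
  have hbi : ∀ z ∈ NX E K0 r (2 ^ n), b⁻¹ z = z := fun z hz => inv_fix (hbt z hz)
  obtain ⟨c1, c2, c3⟩ := hL.ad_conj (act_au hΦ g) (act_au_inv hΦ g) (act_au_inv hΦ g).presE
    hb.inv (inv_fix hbr) hbi
  have h1 : Ad E K0 r n Q' (Φ g) (Φ g * b⁻¹ * (Φ g)⁻¹ * b) := by
    refine ⟨c1.mul hb, ?_, fun z hz => ?_, ?_⟩
    · show (Φ g * b⁻¹ * (Φ g)⁻¹) (b r) = r
      rw [hbr, c2]
    · show (Φ g * b⁻¹ * (Φ g)⁻¹) (b z) = z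
      rw [hbt z hz, c3 z hz]
    · have e : (Φ g * b⁻¹ * (Φ g)⁻¹ * b)⁻¹ * Φ g = b⁻¹ * (Φ g * b) := by group
      rw [e]
      have h2 : Moves (Φ g * b) _ Q' P := moves_comp (hL.stab1 b hb.au) hbm hm
      exact moves_comp (hL.stab1 _ ((act_au hΦ g).mul hb.au)) h2
        (moves_inv (hL.stab1 _ hb.inv.au) hbm)
  have h2 := hL.ad_unique (act_au hΦ g) (act_au_inv hΦ g) (S.ad g) h1 (u β) (D.hu β hβ).mem
  obtain ⟨t, ht⟩ := D.sign hbt hβ
  have hss : ∀ s : ℤˣ, ((s : ℤ) : U) * ((s : ℤ) : U) = 1 := by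
    intro s
    rw [← units_ring, ← pow_two, units_sq]
    simp
  have ht' : b⁻¹ (u β) = ((t : ℤ) : U) * u β := by
    have h3 : b⁻¹ (b (u β)) = u β := b.symm_apply_apply _
    rw [ht, map_mul, map_intCast] at h3
    calc b⁻¹ (u β) = ((t : ℤ) : U) * (((t : ℤ) : U) * b⁻¹ (u β)) := by
          rw [← mul_assoc, hss, one_mul]
      _ = _ := by rw [h3]
  have h3 := hL.sign_conj D (act_au hΦ g) (act_au_inv hΦ g) hβ hβ
    (by rw [hΦ.const, hg]) hbi ht'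
  have h4 : (Φ g * b⁻¹ * (Φ g)⁻¹ * b) (u β) = ((((1 : ℤˣ) : ℤ)) : U) * u β := by
    show (Φ g * b⁻¹ * (Φ g)⁻¹) (b (u β)) = _
    rw [ht, map_mul, map_intCast, h3, ← mul_assoc, hss]
    simp
  rw [S.sg _ β hβ, h4] at h2
  exact sign_inj (D.hu β hβ).1 h2

end act

end Pool.Agent.TOW
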