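import Pool.Agent.Helper17.TW.INF
import Pool.Agent.Helper45.TW.SDefs

/-!
# Project TW: block INF for separable `f` (copy of helper17's proof)
-/

set_option autoImplicit false
set_option linter.unusedSectionVars false

namespace Pool.Agent.TOWS

open VC IntermediateField NumberField IsDedekindDomain Pool.Agent.SC Pool.Agent.L Pool.Agent.M
open Polynomial WithZero
open Pool.Agent.TOW

theorem iNF : Pool.Agent.TOWS.StmtINF := by
  intro k K0 E U _ _ _ _ _ _ _ _ _ _ _ _ x f r H
  have hcl := H.geo.clE
  have halg := H.geo.algE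
  -- the generator of `L0`
  let xh : L0 E K0 (U := U) := inL0 x
  have hxh : (xh : U) = algebraMap K0 U x := rfl
  have hle : L0 E K0 (U := U) ≤ IntermediateField.adjoin E {algebraMap K0 U x} := by
    refine IntermediateField.adjoin_le_iff.2 ?_
    rintro _ ⟨y, rfl⟩
    let N : IntermediateField k U :=
      (IntermediateField.adjoin E {algebraMap K0 U x}).restrictScalars k
    have h1 : IntermediateField.adjoin k {x} ≤ N.comap (IsScalarTower.toAlgHom k K0 U) := by
      refine IntermediateField.adjoin_le_iff.2 ?_
      rintro z hz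
      rw [Set.mem_singleton_iff] at hz
      subst hz
      change algebraMap K0 U z ∈ IntermediateField.adjoin E {algebraMap K0 U z}
      exact IntermediateField.mem_adjoin_simple_self E _
    rw [H.gen] at h1
    exact h1 (IntermediateField.mem_top (x := y))
  have hgen : IntermediateField.adjoin E {xh⁻¹} = ⊤ := by
    have h1 : IntermediateField.adjoin E {xh} = ⊤ := by
      rw [eq_top_iff]
      intro z _
      have h2 : (z : U) ∈ IntermediateField.adjoin E {algebraMap K0 U x} := hle z.2
      have h3 : (IntermediateField.adjoin E {xh}).map (L0 E K0 (U := U)).val =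
          IntermediateField.adjoin E {algebraMap K0 U x} := by
        rw [IntermediateField.adjoin_map, Set.image_singleton]
        rfl
      rw [← h3] at h2
      obtain ⟨w, hw, hwz⟩ := h2
      have h4 : w = z := Subtype.ext hwz
      rw [← h4]
      exact hw
    rw [eq_top_iff, ← h1]
    refine IntermediateField.adjoin_le_iff.2 ?_
    intro z hz
    rw [Set.mem_singleton_iff] at hz
    rw [hz]
    have h2 : xh⁻¹ ∈ IntermediateField.adjoin E {xh⁻¹} := IntermediateField.mem_adjoin_simple_self E _
    have h3 := inv_mem h2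
    rwa [inv_inv] at h3
  have htr : Transcendental E xh⁻¹ := by
    intro h
    have h1 : IsAlgebraic E xh := by
      have := h.inv
      rwa [inv_inv] at this
    have h2 : IsAlgebraic E (algebraMap K0 U x) := h1.algHom (L0 E K0 (U := U)).val
    have h3 : IsAlgebraic k (algebraMap K0 U x) := h2.restrictScalars k
    rw [isAlgebraic_algebraMap_iff (algebraMap K0 U).injective] at h3
    exact H.tr h3
  obtain ⟨b₀, hb1, hb2, hb3⟩ := exists_zero17 xh⁻¹ htr hgen
  have hx0 : xh ≠ 0 := by
    intro h
    apply htr
    rw [h, inv_zero]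
    exact isAlgebraic_zero
  -- characterisation
  have key : ∀ R : ValuationSubring (L0 E K0 (U := U)),
      (∀ a : E, algebraMap E (L0 E K0 (U := U)) a ∈ R) → xh ∉ R → R = b₀.ring := by
    intro R hR hx
    refine hb3 R hR ?_
    rw [ValuationSubring.mem_nonunits_iff_or, inv_inv]
    exact Or.inr hx
  have hxb : xh ∉ b₀.ring := by
    rw [ValuationSubring.mem_nonunits_iff_or, inv_inv] at hb1
    rcases hb1 with h | h
    · exact absurd (inv_eq_zero.1 h) hx0
    · exact h
  refine ⟨b₀, ?_, fun n Q => ⟨fun hQ => ?_, fun hQ hx hmem => ?_⟩, fun T hT => ?_⟩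
  · have h1 : inL0 (E := E) (U := U) (aeval x f) = aeval (xh⁻¹)⁻¹ (f.map (algebraMap k E)) := by
      apply Subtype.ext
      rw [inv_inv]
      have h2 := Polynomial.aeval_algHom_apply (L0 E K0 (U := U)).val xh (f.map (algebraMap k E))
      have h3 : ((aeval xh (f.map (algebraMap k E)) : L0 E K0 (U := U)) : U) =
          aeval (algebraMap K0 U x) (f.map (algebraMap k E)) := h2.symm
      rw [h3, Polynomial.aeval_map_algebraMap, Polynomial.aeval_algebraMap_apply]
      rfl
    unfold BPl
    rw [h1, hb2 _ (by rw [Ne, Polynomial.map_eq_zero]; exact H.sep.ne_zero), Polynomial.natDegree_map]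
    intro h2
    have h3 : (2 : ℤ) ∣ (f.natDegree : ℤ) := by
      rw [← dvd_neg]
      exact h2
    have h4 : 2 ∣ f.natDegree := by exact_mod_cast h3
    exact (Nat.not_even_iff_odd.2 H.odd) (even_iff_two_dvd.2 h4)
  · have hsub : L0 E K0 (U := U) ≤ NX E K0 r (2 ^ n) := by
      intro z hz
      refine IntermediateField.subset_adjoin _ _ (Or.inl ?_)
      refine IntermediateField.adjoin.mono _ _ _ Set.subset_union_left hz
    let i : L0 E K0 (U := U) →+* NX E K0 r (2 ^ n) := (IntermediateField.inclusion hsub : _ →ₐ[E] _)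
    have hi : ∀ (z : U) (hz : z ∈ L0 E K0 (U := U)) (hz' : z ∈ NX E K0 r (2 ^ n)),
        i ⟨z, hz⟩ = ⟨z, hz'⟩ := fun z hz hz' => rfl
    have h1 : Q.ring.comap i = b₀.ring := by
      refine key _ (fun a => ?_) fun h2 => ?_
      · rw [ValuationSubring.mem_comap]
        exact Q.algebraMap_mem a
      · rw [ValuationSubring.mem_comap] at h2
        exact hQ (hsub xh.2) h2
    intro z hz hz'
    rw [← h1, ValuationSubring.mem_comap, hi z hz hz']
  · exact hxb ((hQ _ xh.2 hx).2 hmem)
  · have hst : ∀ z ∈ L0 E K0 (U := U), T z ∈ L0 E K0 (U := U) := by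
      intro z hz
      refine IntermediateField.adjoin_induction E (s := Set.range (algebraMap K0 U))
        (p := fun z _ => T z ∈ L0 E K0 (U := U)) ?_ ?_ ?_ ?_ ?_ hz
      · rintro _ ⟨y, rfl⟩
        rw [hT.fixK]
        exact IntermediateField.subset_adjoin _ _ ⟨y, rfl⟩
      · intro e
        obtain ⟨e', he'⟩ := hT.presE e
        rw [he']
        exact (L0 E K0 (U := U)).algebraMap_mem e'
      · intro a b _ _ ha hb
        rw [map_add]
        exact add_mem ha hb
      · intro a _ ha
        rw [map_inv₀]
        exact inv_mem ha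
      · intro a b _ _ ha hb
        rw [map_mul]
        exact mul_mem ha hb
    let τ : L0 E K0 (U := U) →+* L0 E K0 (U := U) :=
      ((T : U →+* U).comp (algebraMap (L0 E K0 (U := U)) U)).codRestrict
        (L0 E K0 (U := U)).toSubfield (fun z => hst z z.2)
    have hτ : ∀ (z : U) (hz : z ∈ L0 E K0 (U := U)) (hz' : T z ∈ L0 E K0 (U := U)),
        τ ⟨z, hz⟩ = ⟨T z, hz'⟩ := fun z hz hz' => rfl
    have h1 : b₀.ring.comap τ = b₀.ring := by
      refine key _ (fun a => ?_) fun h2 => ?_
      · rw [ValuationSubring.mem_comap]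
        obtain ⟨e', he'⟩ := hT.presE a
        have h3 : τ (algebraMap E (L0 E K0 (U := U)) a) = algebraMap E (L0 E K0 (U := U)) e' :=
          Subtype.ext he'
        rw [h3]
        exact b₀.algebraMap_mem e'
      · rw [ValuationSubring.mem_comap] at h2
        have h3 : τ xh = xh := Subtype.ext (hT.fixK x)
        rw [h3] at h2
        exact hxb h2
    intro z hz hz'
    rw [← hτ z hz hz', ← ValuationSubring.mem_comap, h1]

end Pool.Agent.TOWS
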