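import Pool.Agent.Helper28.TW.KX2
import Pool.Agent.Helper45.TW.SDefs

/-!
# Project TW: block KX2 for separable `f` (from helper28's `kX2S`)
-/

set_option autoImplicit false

namespace Pool.Agent.TOWS

open VC IntermediateField NumberField IsDedekindDomain Pool.Agent.SC Pool.Agent.L Pool.Agent.M

theorem kX2 : StmtKX2 := by
  intro k K0 E U _ _ _ _ _ _ _ _ _ _ _ _ x f r H
  exact Pool.Agent.TOW.kX2S H.geo H.gen H.tr H.sep H.odd

end Pool.Agent.TOWS
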