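import Pool.Agent.Helper45.TW.SOne
import Pool.Agent.Helper45.TW.SKX2
import Pool.Agent.Helper45.TW.SINF

/-!
# Project TW: change of coordinates `x' = 1 / (x - a)`, and the common fixed place above a rational
branch point
-/

set_option autoImplicit false
set_option linter.unusedSectionVars false

namespace Pool.Agent.TOWS

open VC IntermediateField NumberField IsDedekindDomain Pool.Agent.SC Pool.Agent.L Pool.Agent.M
open Pool.Agent.TOW (RX NX Au AuE Infp RD Lv Sg over_im over_unique over_trans' exists_im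
  moves_inv eq_on_NX L0_le_MM MM_le_NX L0_le_NX act_au act_au_inv au_sign NX_le_succ)

noncomputable section

/-! ## The polynomial -/

/-- `X ^ (deg f + 1) f(a + 1 / X)` -/
def cc {k : Type} [Field k] (a : k) (f : Polynomial k) : Polynomial k :=
  Polynomial.X * (f.comp (Polynomial.X + Polynomial.C a)).reverse

section poly

open Polynomial

variable {k : Type} [Field k] {a : k} {f : k[X]}

theorem comp_natDegree : (f.comp (X + C a)).natDegree = f.natDegree := by
  rw [natDegree_comp, natDegree_X_add_C, mul_one]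

theorem comp_ne (hf : f ≠ 0) : f.comp (X + C a) ≠ 0 := by
  intro h
  rw [comp_eq_zero_iff] at h
  rcases h with h | ⟨-, h⟩
  · exact hf h
  · have h1 := congrArg natDegree h
    rw [natDegree_X_add_C, natDegree_C] at h1
    exact one_ne_zero h1

theorem aeval_compX {A : Type} [CommRing A] [Algebra k A] (y : A) :
    aeval (y - algebraMap k A a) (f.comp (X + C a)) = aeval y f := by
  rw [Polynomial.aeval_comp, map_add, aeval_X, aeval_C, sub_add_cancel]

theorem cc_ne (hf : f ≠ 0) : cc a f ≠ 0 :=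
  mul_ne_zero X_ne_zero (by rw [Ne, reverse_eq_zero]; exact comp_ne hf)

theorem cc_natDegree_le (hf : f ≠ 0) (ha : eval a f = 0) : (cc a f).natDegree ≤ f.natDegree := by
  rw [cc, natDegree_X_mul (by rw [Ne, reverse_eq_zero]; exact comp_ne hf), reverse_natDegree,
    comp_natDegree]
  have h0 : (f.comp (X + C a)).coeff 0 = 0 := by
    rw [coeff_zero_eq_eval_zero, eval_comp]
    simpa using ha
  have h1 : 1 ≤ (f.comp (X + C a)).natTrailingDegree := by
    rw [Nat.one_le_iff_ne_zero]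
    intro h2
    have h3 := trailingCoeff_nonzero_iff_nonzero.2 (comp_ne (a := a) hf)
    rw [trailingCoeff, h2] at h3
    exact h3 h0
  have h2 := natTrailingDegree_le_natDegree (f.comp (X + C a))
  rw [comp_natDegree] at h2
  omega

theorem aeval_cc {A : Type} [Field A] [Algebra k A] {y : A} (hy : y - algebraMap k A a ≠ 0) :
    aeval (y - algebraMap k A a)⁻¹ (cc a f) =
      aeval y f * (y - algebraMap k A a)⁻¹ ^ (f.natDegree + 1) := by
  let _ : Invertible (y - algebraMap k A a) := invertibleOfNonzero hy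
  have h1 := eval₂_reverse_mul_pow (algebraMap k A) (y - algebraMap k A a) (f.comp (X + C a))
  rw [comp_natDegree] at h1
  have h2 : eval₂ (algebraMap k A) (y - algebraMap k A a) (f.comp (X + C a)) = aeval y f :=
    aeval_compX y
  rw [h2, invOf_eq_inv] at h1
  have h3 : aeval (y - algebraMap k A a)⁻¹ (cc a f) = (y - algebraMap k A a)⁻¹ *
      eval₂ (algebraMap k A) (y - algebraMap k A a)⁻¹ (f.comp (X + C a)).reverse := by
    rw [cc, map_mul, aeval_X]
    rfl
  have h4 : (y - algebraMap k A a) ^ f.natDegree * (y - algebraMap k A a)⁻¹ ^ f.natDegree = 1 := by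
    rw [← mul_pow, mul_inv_cancel₀ hy, one_pow]
  rw [h3, ← h1, pow_succ, ← mul_assoc, mul_assoc _ _ ((y - algebraMap k A a)⁻¹ ^ f.natDegree), h4,
    mul_one, mul_comm]

/-- the roots -/
theorem root_cc {E : Type} [Field E] [Algebra k E] {β : E} (hβ : aeval β f = 0) :
    aeval (β - algebraMap k E a)⁻¹ (cc a f) = 0 := by
  by_cases h : β - algebraMap k E a = 0
  · rw [h, inv_zero, cc, map_mul, aeval_X, zero_mul]
  · rw [aeval_cc h, hβ, zero_mul]

theorem cc_sep [CharZero k] {E : Type} [Field E] [Algebra k E] [IsAlgClosed E]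
    (hsep : f.Separable) (ha : eval a f = 0) :
    (cc a f).Separable ∧ (cc a f).natDegree = f.natDegree := by
  classical
  have hf0 : f ≠ 0 := hsep.ne_zero
  have h1 : Fintype.card (f.rootSet E) = f.natDegree :=
    card_rootSet_eq_natDegree hsep (IsAlgClosed.splits _)
  have hmem : ∀ β : f.rootSet E, ((β : E) - algebraMap k E a)⁻¹ ∈ (cc a f).rootSet E := by
    intro β
    rw [mem_rootSet]
    exact ⟨cc_ne hf0, root_cc (mem_rootSet.1 β.2).2⟩
  have h2 : Fintype.card (f.rootSet E) ≤ Fintype.card ((cc a f).rootSet E) := by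
    refine Fintype.card_le_of_injective (fun β => ⟨_, hmem β⟩) ?_
    intro β β' h
    have h3 := congrArg Subtype.val h
    have h4 : ((β : E) - algebraMap k E a) = ((β' : E) - algebraMap k E a) := inv_injective h3
    exact Subtype.ext (sub_left_injective h4)
  have h3 : Fintype.card ((cc a f).rootSet E) ≤ (cc a f).natDegree := by
    rw [← Set.toFinset_card]
    have h4 : ((cc a f).rootSet E).toFinset = ((cc a f).aroots E).toFinset := by
      ext z
      rw [Set.mem_toFinset, mem_rootSet, Multiset.mem_toFinset, mem_aroots]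
    rw [h4]
    refine (Multiset.toFinset_card_le _).trans ?_
    rw [aroots]
    refine (card_roots' _).trans ?_
    exact natDegree_map_le
  have h4 := cc_natDegree_le hf0 ha
  have h5 : (cc a f).natDegree = f.natDegree := by omega
  refine ⟨?_, h5⟩
  rw [← card_rootSet_eq_natDegree_iff_of_splits (K := E) (cc_ne hf0) (IsAlgClosed.splits _)]
  omega

end poly

/-! ## The coordinate -/

section coord

variable {k K0 E U : Type} [Field k] [NumberField k]
    [Field K0] [Field E] [Field U] [Algebra k K0]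
    [Algebra k E] [Algebra E U] [Algebra K0 U] [Algebra k U] [IsScalarTower k E U]
    [IsScalarTower k K0 U] {x : K0} {f : Polynomial k} {r : U}

theorem Hyp.sub_ne (H : Hyp E x f r) (a : k) : x - algebraMap k K0 a ≠ 0 := by
  intro h
  apply H.tr
  rw [sub_eq_zero.1 h]
  exact isAlgebraic_algebraMap a

theorem MM_scale (r : U) {t : K0} (ht : t ≠ 0) :
    MM E K0 (r * algebraMap K0 U t) = MM E K0 r := by
  have ht' : algebraMap K0 U t ≠ 0 := (map_ne_zero _).2 ht
  refine le_antisymm ?_ ?_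
  · refine IntermediateField.adjoin_le_iff.2 ?_
    rintro z (⟨y, rfl⟩ | hz)
    · exact subset_adjoin _ _ (Or.inl ⟨y, rfl⟩)
    · rw [Set.mem_singleton_iff.1 hz]
      exact mul_mem (subset_adjoin _ _ (Or.inr rfl)) (subset_adjoin _ _ (Or.inl ⟨t, rfl⟩))
  · refine IntermediateField.adjoin_le_iff.2 ?_
    rintro z (⟨y, rfl⟩ | hz)
    · exact subset_adjoin _ _ (Or.inl ⟨y, rfl⟩)
    · rw [Set.mem_singleton_iff.1 hz]
      have h1 : r * algebraMap K0 U t * (algebraMap K0 U t)⁻¹ = r := by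
        rw [mul_assoc, mul_inv_cancel₀ ht', mul_one]
      have h2 : r * algebraMap K0 U t ∈ MM E K0 (r * algebraMap K0 U t) :=
        subset_adjoin _ _ (Or.inr rfl)
      have h3 : algebraMap K0 U t ∈ MM E K0 (r * algebraMap K0 U t) :=
        subset_adjoin _ _ (Or.inl ⟨t, rfl⟩)
      have h4 := mul_mem h2 (inv_mem h3)
      rwa [h1] at h4

theorem NX_congr {r r' : U} (h : MM E K0 r' = MM E K0 r) (m : ℕ) : NX E K0 r' m = NX E K0 r m := by
  unfold NX RX
  rw [h]

/-- **Change of coordinates.** -/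
theorem Hyp.cc (H : Hyp E x f r) {a : k} (ha : Polynomial.eval a f = 0) :
    Hyp E (x - algebraMap k K0 a)⁻¹ (cc a f)
      (r * algebraMap K0 U ((x - algebraMap k K0 a)⁻¹ ^ ((f.natDegree + 1) / 2))) := by
  have hcl : IsAlgClosed E := H.geo.clE
  have hx := H.sub_ne a
  have hx' : (x - algebraMap k K0 a)⁻¹ ≠ 0 := inv_ne_zero hx
  have ht : (x - algebraMap k K0 a)⁻¹ ^ ((f.natDegree + 1) / 2) ≠ 0 := pow_ne_zero _ hx'
  obtain ⟨hs, hd⟩ := cc_sep (E := E) H.sep ha
  have hM := MM_scale (E := E) r ht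
  have hev : 2 * ((f.natDegree + 1) / 2) = f.natDegree + 1 := by
    obtain ⟨m, hm⟩ := H.odd
    omega
  refine ⟨⟨H.geo.algE, hcl, H.geo.ff, ?_, ?_, ?_, ?_, H.geo.normal⟩, ?_, ?_, hs, ?_, ?_⟩
  · rw [aeval_cc hx, mul_pow, H.geo.rsq, map_mul, ← map_pow, ← pow_mul,
      mul_comm ((f.natDegree + 1) / 2) 2, hev]
  · intro h1
    apply H.geo.rnot
    have ht' : algebraMap K0 U ((x - algebraMap k K0 a)⁻¹ ^ ((f.natDegree + 1) / 2)) ≠ 0 :=
      (map_ne_zero _).2 ht
    have h2 := mul_mem h1 (inv_mem (subset_adjoin E (Set.range (algebraMap K0 U))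
      ⟨(x - algebraMap k K0 a)⁻¹ ^ ((f.natDegree + 1) / 2), rfl⟩))
    rwa [mul_assoc, mul_inv_cancel₀ ht', mul_one] at h2
  · rw [hM]
    exact H.geo.cover
  · rw [hM]
    exact H.geo.nonrat
  · rw [eq_top_iff, ← H.gen]
    refine IntermediateField.adjoin_le_iff.2 ?_
    intro z hz
    rw [Set.mem_singleton_iff.1 hz]
    have h2 : (x - algebraMap k K0 a)⁻¹ ∈ IntermediateField.adjoin k
        {(x - algebraMap k K0 a)⁻¹} := mem_adjoin_simple_self k _
    have h3 := add_mem (inv_mem h2) ((IntermediateField.adjoin k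
      {(x - algebraMap k K0 a)⁻¹}).algebraMap_mem a)
    have h4 : x ∈ IntermediateField.adjoin k {(x - algebraMap k K0 a)⁻¹} := by
      rw [inv_inv, sub_add_cancel] at h3
      exact h3
    exact h4
  · intro h1
    apply H.tr
    have h2 := h1.inv
    rw [inv_inv] at h2
    have h3 := h2.add (isAlgebraic_algebraMap a)
    rwa [sub_add_cancel] at h3
  · rw [hd]; exact H.odd
  · rw [hd]; exact H.deg

/-- the actions -/
theorem Act.scale {r : U} {c : k} {Φ : (E ≃ₐ[k] E) →* (U ≃+* U)} (hΦ : Act (K0 := K0) r c Φ)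
    (t : K0) : Act (K0 := K0) (r * algebraMap K0 U t) c Φ := by
  refine ⟨hΦ.const, hΦ.fixK, fun g d hd => ?_, hΦ.cont⟩
  have h1 := hΦ.tw g d hd
  rw [map_mul, hΦ.fixK]
  calc Φ g r * algebraMap K0 U t * algebraMap E U (g d)
      = (Φ g r * algebraMap E U (g d)) * algebraMap K0 U t := by ring
    _ = _ := by rw [h1]; ring

end coord

/-! ## The common fixed place -/

section fix

variable {k K0 E U : Type} [Field k] [NumberField k]
    [Field K0] [Field E] [Field U] [Algebra k K0]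
    [Algebra k E] [Algebra E U] [Algebra K0 U] [Algebra k U] [IsScalarTower k E U]
    [IsScalarTower k K0 U] {x : K0} {f : Polynomial k} {r : U}

/-- infinity -/
theorem fix_inf (hPX1 : Pool.Agent.TOW.StmtPX1)
    (hKD : Pool.Agent.TOW.StmtKD) (H : Hyp E x f r)
    {b₀ : Place E (L0 E K0 (U := U))} (hb₀ : BPl (Polynomial.aeval x f) b₀)
    (hbfix : ∀ T : U ≃+* U, Au E K0 T → Moves T _ b₀ b₀)
    {c : k} {Φ : (E ≃ₐ[k] E) →* (U ≃+* U)} (hΦ : Act (K0 := K0) r c Φ)
    (hcon : ∀ g : E ≃ₐ[k] E, ∃ Q : Place E (NX E K0 r (2 ^ 1)), OverPl b₀ Q ∧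
      Moves (Φ g) _ Q Q) :
    ∃ P : Place E (NX E K0 r (2 ^ 1)), OverPl b₀ P ∧ ∀ g : E ≃ₐ[k] E, Moves (Φ g) _ P P := by
  classical
  have hcl : IsAlgClosed E := H.geo.clE
  have halg : Algebra.IsAlgebraic k E := H.geo.algE
  have hchE : CharZero E := charZero_of_injective_algebraMap (algebraMap k E).injective
  have hchU : CharZero U := charZero_of_injective_algebraMap (algebraMap k U).injective
  obtain ⟨p1, -, -, p4, -, p6, p7, -⟩ := hPX1 k K0 E U _ r H.geo 0
  obtain ⟨-, Q, hQ⟩ := p7 b₀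
  have hbQ : OverPl b₀ Q := hQ
  obtain ⟨hL, Q', hQ'⟩ := exists_LvS hPX1 H hb₀ hbQ
  obtain ⟨R, ww, hR, hodd, D⟩ := exists_RDS kX2 H
  have hfix : ∀ g : E ≃ₐ[k] E, Moves (Φ g) _ Q Q := by
    intro g
    have hT := act_au hΦ g
    have hTi := act_au_inv hΦ g
    obtain ⟨Q₁, hQ₁⟩ := exists_im (p1 _ hT) (p1 _ hTi) hTi.presE Q
    have hbQ₁ : OverPl b₀ Q₁ := over_im L0_le_NX (L0_au hT) (L0_au hTi) hbQ (hbfix _ hT) hQ₁
    rw [unique0 hPX1 H.geo hb₀ hbQ₁ hbQ] at hQ₁
    exact hQ₁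
  obtain ⟨a, s, S⟩ := Pool.Agent.TOW.exists_Sg hL D hΦ hfix hQ'
  have hgR : ∀ (g : E ≃ₐ[k] E), ∀ β ∈ R, g β ∈ R := by
    intro g β hβ
    rw [hR] at hβ ⊢
    have h1 : Polynomial.aeval (g β) f = g (Polynomial.aeval β f) :=
      Polynomial.aeval_algHom_apply g.toAlgHom β f
    rw [h1, hβ, map_zero]
  have hnormal : Normal K0 U := H.geo.normal
  have hall : ∀ g : E ≃ₐ[k] E, ∃ Q' : Place E (NX E K0 r (2 ^ (0 + 1))), OverPl Q Q' ∧
      Moves (Φ g) _ Q' Q' := by
    intro g
    obtain ⟨Q', h1, h2⟩ := hcon g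
    obtain ⟨Q₁, hQ₁⟩ := exists_down (K0 := K0) (NX_le_succ (r := r) (n := 0))
      (fun z => L0_le_NX (IntermediateField.subset_adjoin _ _ ⟨z, rfl⟩))
      (fun z => hnormal.isIntegral z) Q'
    have h3 : OverPl b₀ Q₁ := by
      intro z hz hz'
      rw [h1 z hz (NX_le_succ (L0_le_NX hz)), hQ₁ z hz' (NX_le_succ hz')]
    rw [unique0 hPX1 H.geo hb₀ h3 hbQ] at hQ₁
    exact ⟨Q', hQ₁, h2⟩
  have hone : ∀ β ∈ R, ∀ g : E ≃ₐ[k] E, g β = β → s g β = 1 := by
    intro β hβ g hg
    obtain ⟨P, hP, hm⟩ := hall g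
    exact S.one_of_fix hL D hΦ hQ' hβ hg hP hm
  obtain ⟨t, ht1, ht2⟩ := Pool.Agent.TOW.exists_cob (G := E ≃ₐ[k] E) hgR hodd
    (fun g g' β hβ => S.mul hL D hΦ hgR g g' hβ) hone
  obtain ⟨P, hP, hPfix⟩ := S.fix_of_cob hL D hΦ hQ' hgR
    (fun χ h1 h2 h3 => hKD k K0 E U _ r H.geo (0 + 1) χ h1 h2 h3) ht1 ht2
  exact ⟨P, over_trans' L0_le_NX hbQ hP, hPfix⟩

/-- the branch place above a rational root -/
theorem fix_root (hPX1 : Pool.Agent.TOW.StmtPX1)
    (hKD : Pool.Agent.TOW.StmtKD) (H : Hyp E x f r) {a : k} (ha : Polynomial.eval a f = 0)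
    {b : Place E (L0 E K0 (U := U))}
    (hba : b.ring.valuation (inL0 x - algebraMap E _ (algebraMap k E a)) < 1)
    {c : k} {Φ : (E ≃ₐ[k] E) →* (U ≃+* U)} (hΦ : Act (K0 := K0) r c Φ)
    (hcon : ∀ g : E ≃ₐ[k] E, ∃ Q : Place E (NX E K0 r (2 ^ 1)), OverPl b Q ∧
      Moves (Φ g) _ Q Q) :
    ∃ P : Place E (NX E K0 r (2 ^ 1)), OverPl b P ∧ ∀ g : E ≃ₐ[k] E, Moves (Φ g) _ P P := by
  have H' := H.cc ha
  obtain ⟨t, ht⟩ : ∃ t, t = (x - algebraMap k K0 a)⁻¹ ^ ((f.natDegree + 1) / 2) := ⟨_, rfl⟩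
  have ht0 : t ≠ 0 := by
    rw [ht]
    exact pow_ne_zero _ (inv_ne_zero (H.sub_ne a))
  rw [← ht] at H'
  obtain ⟨b₀, hb₀, hinf, hbfix⟩ := iNF k K0 E U _ _ _ H'
  have hNX := NX_congr (MM_scale (E := E) r ht0) (2 ^ 1)
  -- `b = b₀`
  have hbb : b = b₀ := by
    obtain ⟨-, -, -, -, -, -, p7, -⟩ := hPX1 k K0 E U _ _ H'.geo 0
    obtain ⟨-, Q, hQ⟩ := p7 b
    have hbQ : OverPl b Q := hQ
    have h1 : Infp (x - algebraMap k K0 a)⁻¹ Q := by
      intro hx hmem
      have hx0 : algebraMap K0 U (x - algebraMap k K0 a)⁻¹ ∈ L0 E K0 (U := U) :=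
        subset_adjoin _ _ ⟨_, rfl⟩
      have h2 := (hbQ _ hx0 hx).2 hmem
      have h3 : (⟨algebraMap K0 U (x - algebraMap k K0 a)⁻¹, hx0⟩ : L0 E K0 (U := U)) =
          (inL0 x - algebraMap E _ (algebraMap k E a))⁻¹ := by
        apply Subtype.ext
        show algebraMap K0 U (x - algebraMap k K0 a)⁻¹ =
          (algebraMap K0 U x - algebraMap E U (algebraMap k E a))⁻¹
        rw [map_inv₀, map_sub, ← IsScalarTower.algebraMap_apply k K0 U,
          ← IsScalarTower.algebraMap_apply k E U]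
      rw [h3, ← ValuationSubring.valuation_le_one_iff, map_inv₀] at h2
      have h4 : inL0 x - algebraMap E (L0 E K0 (U := U)) (algebraMap k E a) ≠ 0 := by
        intro h5
        apply H.sub_ne a
        have h6 := congrArg Subtype.val h5
        have h7 : algebraMap K0 U x - algebraMap E U (algebraMap k E a) = 0 := h6
        rw [← IsScalarTower.algebraMap_apply k E U, IsScalarTower.algebraMap_apply k K0 U,
          ← map_sub, map_eq_zero] at h7
        exact h7
      have h5 : b.ring.valuation (inL0 x - algebraMap E _ (algebraMap k E a)) ≠ 0 :=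
        (Valuation.ne_zero_iff _).2 h4
      have h6 := (inv_le_one₀ (zero_lt_iff.2 h5)).1 h2
      exact absurd hba (not_lt.2 h6)
    exact over_unique L0_le_NX hbQ ((hinf 0 Q).1 h1)
  rw [hbb] at hcon ⊢
  have h1 := fix_inf hPX1 hKD H' hb₀ hbfix (Act.scale hΦ t)
  rw [hNX] at h1
  exact h1 hcon

end fix

end

end Pool.Agent.TOWS
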