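import Pool.Agent.Helper45.TW.CC
import Pool.Agent.Helper37.TW3.Defs

/-!
# Project TW3, blocks W7a, W7b
-/

set_option autoImplicit false

namespace Pool.Agent.TW3

open VC IntermediateField NumberField IsDedekindDomain Pool.Agent.SC Pool.Agent.L Pool.Agent.M
open Pool.Agent.TOW (RX NX Au AuE Infp eq_on_NX MM_le_NX au_sign)

/-- **BLOCK W7a.** -/
theorem cHG : StmtCHG := by
  intro k K0 E U _ _ _ _ _ _ _ _ _ _ _ _ x f r H α hα
  have hx := H.sub_ne α
  have hev : ((f.natDegree + 1) / 2) * 2 = f.natDegree + 1 := by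
    obtain ⟨m, hm⟩ := H.odd
    omega
  refine ⟨Pool.Agent.TOWS.cc α f, (x - algebraMap k K0 α)⁻¹ ^ ((f.natDegree + 1) / 2),
    pow_ne_zero _ (inv_ne_zero hx), H.cc hα, ?_⟩
  rw [Pool.Agent.TOWS.aeval_cc hx, ← pow_mul, hev]

/-- **BLOCK W7b.** -/
theorem cOM (hPX1 : Pool.Agent.TOW.StmtPX1) (hKD : Pool.Agent.TOW.StmtKD) : StmtCOM := by
  intro k K0 E U _ _ _ _ _ _ _ _ _ _ _ _ x f r H
  classical
  have hchE : CharZero E := charZero_of_injective_algebraMap (algebraMap k E).injective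
  have hchU : CharZero U := charZero_of_injective_algebraMap (algebraMap k U).injective
  constructor
  · obtain ⟨R, ww, hR, hodd, D⟩ := Pool.Agent.TOWS.exists_RDS Pool.Agent.TOWS.kX2 H
    intro a ha
    have haE : AuE E K0 a.toRingEquiv :=
      ⟨fun z => ha _ (IntermediateField.subset_adjoin _ _ ⟨_, rfl⟩), fun e => a.commutes e⟩
    have hMM : ∀ z ∈ MM E K0 r, (a.toRingEquiv * a.toRingEquiv) z = z := by
      refine (haE.mul haE).onMM ?_
      show a.toRingEquiv (a.toRingEquiv r) = r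
      rcases au_sign H.geo.rsq haE.au with h | h
      · rw [h, h]
      · rw [h, map_neg, h, neg_neg]
    have hww : ∀ β ∈ R, (a.toRingEquiv * a.toRingEquiv) (ww β) = ww β := by
      intro β hβ
      have h1 : a.toRingEquiv (ww β) = ww β ∨ a.toRingEquiv (ww β) = -ww β := by
        apply sq_eq_sq_iff_eq_or_eq_neg.1
        rw [← map_pow, D.hww β hβ, map_sub, haE.fixK, haE.fixE]
      show a.toRingEquiv (a.toRingEquiv (ww β)) = ww β
      rcases h1 with h | h
      · rw [h, h]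
      · rw [h, map_neg, h, neg_neg]
    have hNX0 : ∀ z ∈ NX E K0 r (2 ^ 0), (a.toRingEquiv * a.toRingEquiv) z = (1 : U ≃+* U) z := by
      refine eq_on_NX (T' := 1) hMM fun w hw => ?_
      have h1 : w ∈ MM E K0 r := by
        have := hw.2
        rwa [pow_zero, pow_one] at this
      exact hMM w h1
    exact D.triv (T' := 1) hNX0 hww
  · intro c Φ hc hΦ hcon
    obtain ⟨b₀, hb₀, hinf, hbfix⟩ := Pool.Agent.TOWS.iNF k K0 E U _ _ _ H
    obtain ⟨P, hP, hfix⟩ := Pool.Agent.TOWS.fix_inf hPX1 hKD H hb₀ hbfix hΦ fun g => by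
      obtain ⟨Q, hQ, hm⟩ := hcon g
      exact ⟨Q, (hinf 1 Q).1 hQ, hm⟩
    exact ⟨P, (hinf 1 P).2 hP, hfix⟩

end Pool.Agent.TW3
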