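import Pool.Agent.Helper45.TW.SAf

/-!
# Project TW, block SA
-/

set_option autoImplicit false

namespace Pool.Agent.TOW

open VC IntermediateField NumberField IsDedekindDomain Pool.Agent.SC Pool.Agent.L Pool.Agent.M
open Pool.Agent.HG (Pr nm IsOdd)

/-- transitivity on the roots -/
theorem exists_conj {k E : Type} [Field k] [CharZero k] [Field E] [Algebra k E] [IsAlgClosed E]
    [Algebra.IsAlgebraic k E] {f : Polynomial k} (hf : Irreducible f) {β β' : E}
    (hβ : Polynomial.aeval β f = 0) (hβ' : Polynomial.aeval β' f = 0) :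
    ∃ g : E ≃ₐ[k] E, g β = β' := by
  have : IsAlgClosure k E := ⟨inferInstance, inferInstance⟩
  have : Normal k E := IsAlgClosure.normal k E
  have h1 : minpoly k β = minpoly k β' := by
    rw [← minpoly.eq_of_irreducible hf hβ, ← minpoly.eq_of_irreducible hf hβ']
  have h2 : IsConjRoot k β' β := h1.symm
  obtain ⟨g, hg⟩ := (isConjRoot_iff_exists_algEquiv).1 h2
  exact ⟨g, hg⟩

theorem mem_fix {k E : Type} [Field k] [Field E] [Algebra k E] {β : E} {g : E ≃ₐ[k] E}
    (h : g β = β) : g ∈ (IntermediateField.adjoin k {β}).fixingSubgroup := by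
  rw [IntermediateField.mem_fixingSubgroup_iff]
  intro x hx
  refine IntermediateField.adjoin_induction (p := fun z _ => g z = z) k ?_ ?_ ?_ ?_ ?_ hx
  · intro z hz
    rw [Set.mem_singleton_iff.1 hz, h]
  · intro e
    exact g.commutes e
  · intro a b _ _ ha hb
    rw [map_add, ha, hb]
  · intro a _ ha
    rw [map_inv₀, ha]
  · intro a b _ _ ha hb
    rw [map_mul, ha, hb]

theorem fix_mem {k E : Type} [Field k] [Field E] [Algebra k E] {β : E} {g : E ≃ₐ[k] E}
    (h : g ∈ (IntermediateField.adjoin k {β}).fixingSubgroup) : g β = β :=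
  (IntermediateField.mem_fixingSubgroup_iff _ _).1 h β (mem_adjoin_simple_self k β)

/-- **BLOCK SA.** -/
theorem sA (hKX1 : StmtKX1) (hKX2 : StmtKX2) (hKD : StmtKD) (hPX1 : StmtPX1) (hINF : StmtINF) :
    StmtSA := by
  intro k K0 E U _ _ _ _ _ _ _ _ _ _ _ _ x f r H n Q hQ c Φ hc hΦ hfix
  classical
  have hcl : IsAlgClosed E := H.geo.clE
  have halg : Algebra.IsAlgebraic k E := H.geo.algE
  have : CharZero E := charZero_of_injective_algebraMap (algebraMap k E).injective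
  have : CharZero U := charZero_of_injective_algebraMap (algebraMap k U).injective
  obtain ⟨hL, Q', hQ'⟩ := exists_Lv hPX1 hINF H hQ
  obtain ⟨R, ww, u, hR, hodd, D⟩ := exists_RD hKX1 hKX2 H n
  obtain ⟨a, s, S⟩ := exists_Sg hL D hΦ hfix hQ'
  have hgR : ∀ (g : E ≃ₐ[k] E), ∀ β ∈ R, g β ∈ R := by
    intro g β hβ
    rw [hR] at hβ ⊢
    have h1 : Polynomial.aeval (g β) f = g (Polynomial.aeval β f) :=
      Polynomial.aeval_algHom_apply g.toAlgHom β f
    rw [h1, hβ, map_zero]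
  have hψ : ∀ β : E, ∃ ψ : ((IntermediateField.adjoin k {β}).fixingSubgroup →* ℤˣ),
      β ∈ R → ∀ g, ψ g = s (g : E ≃ₐ[k] E) β := by
    intro β
    by_cases hβ : β ∈ R
    · have hmul : ∀ g g' : (IntermediateField.adjoin k {β}).fixingSubgroup,
          s ((g : E ≃ₐ[k] E) * (g' : E ≃ₐ[k] E)) β =
            s (g : E ≃ₐ[k] E) β * s (g' : E ≃ₐ[k] E) β := by
        intro g g'
        have h1 : (g : E ≃ₐ[k] E)⁻¹ β = β := fix_mem (inv_mem g.2)
        rw [S.mul hL D hΦ hgR _ _ hβ, h1]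
      refine ⟨⟨⟨fun g => s (g : E ≃ₐ[k] E) β, ?_⟩, fun g g' => hmul g g'⟩, fun _ g => rfl⟩
      have h1 := hmul 1 1
      have e : (((1 : (IntermediateField.adjoin k {β}).fixingSubgroup) : E ≃ₐ[k] E)) *
          (((1 : (IntermediateField.adjoin k {β}).fixingSubgroup) : E ≃ₐ[k] E)) =
          ((1 : (IntermediateField.adjoin k {β}).fixingSubgroup) : E ≃ₐ[k] E) := by simp
      rw [e] at h1
      exact left_eq_mul.1 h1
    · exact ⟨1, fun h => absurd h hβ⟩
  choose ψ hψ using hψ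
  refine ⟨ψ, ?_, ?_, ?_⟩
  · rintro β hβ g ⟨P, hP, hm⟩
    have hβR : β ∈ R := (hR β).2 hβ
    rw [hψ β hβR]
    exact S.one_of_fix hL D hΦ hQ' hβR (fix_mem g.2) hP hm
  · intro β hβ
    have hβR : β ∈ R := (hR β).2 hβ
    obtain ⟨-, -, hF, -⟩ := hPX1 k K0 E U _ r H.geo (n + 1)
    obtain ⟨L', hL', h1⟩ := S.cont D hΦ H.geo.cover hF halg hβR
    refine ⟨L', hL', fun g hg => ?_⟩
    rw [hψ β hβR]
    exact h1 _ hg
  · intro h
    refine S.exists_fix hL D hΦ hQ' hgR hodd ?_ ?_ ?_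
    · intro β hβ β' hβ'
      exact exists_conj H.irr ((hR β).1 hβ) ((hR β').1 hβ')
    · exact fun χ h1 h2 h3 => hKD k K0 E U _ r H.geo (n + 1) χ h1 h2 h3
    · intro β hβ g hg
      have h1 := hψ β hβ ⟨g, mem_fix hg⟩
      rw [h β ((hR β).1 hβ)] at h1
      exact h1.symm

end Pool.Agent.TOW
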