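import Pool.Agent.Helper45.TW.STEPa

/-!
# Project TW, block STEP
-/

set_option autoImplicit false

namespace Pool.Agent.TOW

open VC IntermediateField NumberField IsDedekindDomain Pool.Agent.SC Pool.Agent.L Pool.Agent.M
open Filter
open Pool.Agent.HG (Pr nm IsOdd)

/-- **BLOCK STEP.** -/
theorem sTEP (hLVL : Pool.Agent.TW.StmtLVL) (hPX1 : StmtPX1) (hKX2 : StmtKX2) (hINF : StmtINF)
    (hKG : StmtKG) (hORB : StmtORB) (hSA : StmtSA) : StmtSTEP := by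
  intro k K0 E U _ _ _ _ _ _ _ _ _ _ _ _ x f r H n Q hQ
  classical
  by_cases hex : ∃ (c₀ : k) (Φ₀ : (E ≃ₐ[k] E) →* (U ≃+* U)), c₀ ≠ 0 ∧ Act (K0 := K0) r c₀ Φ₀ ∧
      ∀ g : E ≃ₐ[k] E, Moves (Φ₀ g) _ Q Q
  swap
  · refine Rare.of_none fun c hc ⟨Φ, h1, h2, _⟩ => hex ⟨c, Φ, hc, h1, h2⟩
  obtain ⟨c₀, Φ₀, hc₀, hΦ₀, hfix₀⟩ := hex
  obtain ⟨b₀, hb₀, hinf, -⟩ := hINF k K0 E U x f r H
  have hbQ : OverPl b₀ Q := (hinf n Q).1 hQ
  obtain ⟨hG1, hle, hfixL, hLfix, b₁, hb₁, hb₁Q, huniq⟩ :=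
    hKG k K0 E U _ r H.geo n b₀ Q hb₀ hbQ c₀ Φ₀ hc₀ hΦ₀ hfix₀
  obtain ⟨horb, hfive⟩ := hORB k K0 E U x f r H n Q hQ c₀ Φ₀ hc₀ hΦ₀ hfix₀ b₁ hb₁Q
  obtain ⟨p1, -, -, -, p5, p6, -, p8⟩ := hPX1 k K0 E U _ r H.geo n
  obtain ⟨q1, -, q3, -, q5, q6, -, -⟩ := hPX1 k K0 E U _ r H.geo (n + 1)
  have hOne : Pool.Agent.TW.OneRat (k := k) (algebraMap K0 (KQ Q) (Polynomial.aeval x f)) r b₁ :=
    ⟨hb₁, fun c Φ hc hΦ => (horb c Φ hc hΦ).1, fun c Φ hc hΦ => (horb c Φ hc hΦ).2, by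
      rw [← Set.coe_ofPred, Nat.card_coe_set_eq]
      exact hfive⟩
  have hKQ : ∀ z : KQ Q, algebraMap (KQ Q) U z ∈ NX E K0 r (2 ^ (n + 1)) := fun z =>
    NX_le_succ z.2.1
  have hK0 : ∀ z : K0, algebraMap K0 U z = algebraMap (KQ Q) U (algebraMap K0 (KQ Q) z) :=
    fun z => IsScalarTower.algebraMap_apply K0 (KQ Q) U z
  -- the level
  have hLvl : Pool.Agent.TW.Lvl E (KQ Q) (NX E K0 r (2 ^ (n + 1))) := by
    refine ⟨q3, hKQ, fun T hT hE => q1 T ⟨fun z => ?_, hE⟩⟩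
    rw [hK0, hT]
  have hMM : MM E (KQ Q) r ≤ NX E K0 r (2 ^ (n + 1)) := by
    refine IntermediateField.adjoin_le_iff.2 ?_
    rintro z (⟨y, rfl⟩ | hz)
    · exact hKQ y
    · rw [Set.mem_singleton_iff.1 hz]
      exact MM_le_NX (IntermediateField.subset_adjoin _ _ (Or.inr rfl))
  have hexp : ∀ a : U ≃ₐ[E] U, (∀ z ∈ L0 E (KQ Q) (U := U), a z = z) →
      ∀ z ∈ NX E K0 r (2 ^ (n + 1)), a (a z) = z := by
    intro a ha
    have haE : AuE E K0 a.toRingEquiv := by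
      refine ⟨fun z => ?_, fun e => a.commutes e⟩
      show a (algebraMap K0 U z) = _
      rw [hK0]
      exact ha _ (IntermediateField.subset_adjoin _ _ ⟨_, rfl⟩)
    have hst : ∀ z ∈ L0 E (KQ Q) (U := U), a.toRingEquiv z ∈ L0 E (KQ Q) (U := U) := by
      intro z hz
      have h1 : a.toRingEquiv z = z := ha z hz
      rw [h1]; exact hz
    have hst' : ∀ z ∈ L0 E (KQ Q) (U := U), a.toRingEquiv⁻¹ z ∈ L0 E (KQ Q) (U := U) := by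
      intro z hz
      have h1 : a.toRingEquiv⁻¹ z = z := inv_fix (ha z hz)
      rw [h1]; exact hz
    have hmb : Moves a.toRingEquiv _ b₁ b₁ :=
      moves_congr (T := 1) (T' := a.toRingEquiv) (fun z hz => (ha z hz).symm) (moves_one b₁)
    obtain ⟨Q₁, hQ₁⟩ := exists_im (p1 _ haE.au) (p1 _ haE.inv.au) haE.inv.au.presE Q
    have h2 : OverPl b₁ Q₁ := over_im hle hst hst' hb₁Q hmb hQ₁
    rw [huniq Q₁ h2] at hQ₁
    exact sq_triv hPX1 hKX2 H hb₀ hbQ haE hQ₁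
  have htow : IsScalarTower k (KQ Q) U := IsScalarTower.of_algebraMap_eq fun c => rfl
  have hR := hLVL k (KQ Q) E U _ r hG1 b₁ hOne _ hLvl hMM hexp
  refine Rare.mono hR ?_
  rintro c hc ⟨Φ, hΦ, hfix, hno⟩
  have hΦ' : Act (K0 := KQ Q) r c Φ :=
    ⟨hΦ.const, fun g z => z.2.2 (Φ g) (act_au hΦ g) (hfix g), hΦ.tw, hΦ.cont⟩
  refine ⟨Φ, hΦ', ?_⟩
  by_contra hcon
  push Not at hcon
  -- every element fixes a place above `Q`
  have hnormal : Normal K0 U := H.geo.normal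
  have hall : ∀ g : E ≃ₐ[k] E, ∃ Q' : Place E (NX E K0 r (2 ^ (n + 1))), OverPl Q Q' ∧
      Moves (Φ g) _ Q' Q' := by
    intro g
    obtain ⟨Q', h1, h2⟩ := hcon g
    obtain ⟨Q₁, hQ₁⟩ := exists_down (K0 := K0) (NX_le_succ (r := r) (n := n))
      (fun z => L0_le_NX (IntermediateField.subset_adjoin _ _ ⟨z, rfl⟩))
      (fun z => hnormal.isIntegral z) Q'
    have h3 : OverPl b₁ Q₁ := by
      intro z hz hz'
      rw [h1 z hz (NX_le_succ (hle hz)), hQ₁ z hz' (NX_le_succ hz')]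
    rw [huniq Q₁ h3] at hQ₁
    exact ⟨Q', hQ₁, h2⟩
  obtain ⟨ψ, s1, -, s3⟩ := hSA k K0 E U x f r H n Q hQ c Φ hc hΦ hfix
  apply hno
  apply s3
  intro β hβ
  ext g
  rw [s1 β hβ g (hall g)]
  rfl

end Pool.Agent.TOW
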