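import Pool.Agent.Helper45.TW.SAe
import Pool.Agent.Helper97.TW.Defs
import Pool.Agent.Helper45.M.INTf

/-!
# Project TW, block STEP: exponent two; rare sets
-/

set_option autoImplicit false

namespace Pool.Agent.TOW

open VC IntermediateField NumberField IsDedekindDomain Pool.Agent.SC Pool.Agent.L Pool.Agent.M
open Filter
open Pool.Agent.HG (Pr nm IsOdd)

/-! ## Rare sets -/

section rare

variable {k : Type} [Field k] [NumberField k] {P P' : k → Prop}

theorem Rare.mono (h : Rare P') (hP : ∀ c : k, c ≠ 0 → P c → P' c) : Rare P := by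
  intro ε hε
  filter_upwards [h ε hε] with X hX T h1 h2
  exact hX T h1 fun c hc => ⟨(h2 c hc).1, (h2 c hc).2.1, hP c (h2 c hc).1 (h2 c hc).2.2⟩

theorem Rare.of_none (hP : ∀ c : k, c ≠ 0 → ¬ P c) : Rare P := by
  intro ε hε
  refine Eventually.of_forall fun X T _ h2 => ?_
  have h3 : T = ∅ := by
    rw [Finset.eq_empty_iff_forall_notMem]
    intro c hc
    exact hP c (h2 c hc).1 (h2 c hc).2.2
  rw [h3, Finset.card_empty]
  push_cast
  positivity

theorem Rare.or (h : Rare P) (h' : Rare P') : Rare (fun c => P c ∨ P' c) := by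
  classical
  intro ε hε
  filter_upwards [h (ε / 2) (by positivity), h' (ε / 2) (by positivity)] with X hX hX' T h1 h2
  have h3 := hX (T.filter P) (fun c hc c' hc' => h1 c (Finset.mem_filter.1 hc).1 c'
    (Finset.mem_filter.1 hc').1) fun c hc => by
      rw [Finset.mem_filter] at hc
      exact ⟨(h2 c hc.1).1, (h2 c hc.1).2.1, hc.2⟩
  have h4 := hX' (T.filter P') (fun c hc c' hc' => h1 c (Finset.mem_filter.1 hc).1 c'
    (Finset.mem_filter.1 hc').1) fun c hc => by
      rw [Finset.mem_filter] at hc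
      exact ⟨(h2 c hc.1).1, (h2 c hc.1).2.1, hc.2⟩
  have h5 : T ⊆ T.filter P ∪ T.filter P' := by
    intro c hc
    rw [Finset.mem_union, Finset.mem_filter, Finset.mem_filter]
    rcases (h2 c hc).2.2 with h6 | h6
    · exact Or.inl ⟨hc, h6⟩
    · exact Or.inr ⟨hc, h6⟩
  have h6 : T.card ≤ (T.filter P).card + (T.filter P').card :=
    (Finset.card_le_card h5).trans (Finset.card_union_le _ _)
  have h7 : (T.card : ℝ) ≤ (T.filter P).card + (T.filter P').card := by exact_mod_cast h6
  linarith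

theorem Rare.finite {ι : Type} (S : Finset ι) {F : ι → k → Prop} (h : ∀ i ∈ S, Rare (F i)) :
    Rare (fun c => ∃ i ∈ S, F i c) := by
  classical
  induction S using Finset.induction_on with
  | empty => exact Rare.of_none fun c _ ⟨i, hi, _⟩ => absurd hi (Finset.notMem_empty i)
  | insert i S hi ih =>
    have h1 := (h i (Finset.mem_insert_self _ _)).or (ih fun j hj => h j (Finset.mem_insert_of_mem hj))
    refine h1.mono fun c _ ⟨j, hj, hc⟩ => ?_
    rcases Finset.mem_insert.1 hj with rfl | h2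
    · exact Or.inl hc
    · exact Or.inr ⟨j, h2, hc⟩

end rare

/-! ## Exponent two -/

section expo

variable {k K0 E U : Type} [Field k] [NumberField k] [Field K0] [Field E] [Field U]
  [Algebra k K0] [Algebra k E] [Algebra E U] [Algebra K0 U] [Algebra k U] [IsScalarTower k E U]
  [IsScalarTower k K0 U]

theorem au_sign {r : U} {h : K0} (hr : r ^ 2 = algebraMap K0 U h) {T : U ≃+* U}
    (hT : Au E K0 T) : T r = r ∨ T r = -r := by
  apply sq_eq_sq_iff_eq_or_eq_neg.1
  rw [← map_pow, hr, hT.fixK]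

/-- the square of an automorphism which fixes a place of level `n` is trivial on level `n + 1` -/
theorem sq_triv (hPX1 : StmtPX1) (hKX2 : StmtKX2) {x : K0} {f : Polynomial k} {r : U}
    (H : Hyp E x f r) {n : ℕ} {Q : Place E (NX E K0 r (2 ^ n))}
    {b₀ : Place E (L0 E K0 (U := U))} (hb₀ : BPl (Polynomial.aeval x f) b₀) (hbQ : OverPl b₀ Q)
    {a : U ≃+* U} (ha : AuE E K0 a) (hm : Moves a _ Q Q) :
    ∀ z ∈ NX E K0 r (2 ^ (n + 1)), a (a z) = z := by
  obtain ⟨-, -, -, -, p5, p6, -, p8⟩ := hPX1 k K0 E U _ r H.geo n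
  obtain ⟨q1, -, -, -, q5, q6, -, -⟩ := hPX1 k K0 E U _ r H.geo (n + 1)
  have hrsq := H.geo.rsq
  -- an automorphism which is trivial on level `n` acts by signs on the roots of level `n + 1`
  have hsgn : ∀ t : U ≃+* U, (∀ z ∈ NX E K0 r (2 ^ n), t z = z) → ∀ w : U,
      RX E K0 r (2 ^ (n + 1)) w → t w = w ∨ t w = -w := by
    intro t ht w hw
    apply sq_eq_sq_iff_eq_or_eq_neg.1
    rw [← map_pow]
    exact ht _ hw.sq.mem
  have hMM : ∀ z ∈ MM E K0 r, (a * a) z = z := by
    refine (ha.mul ha).onMM ?_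
    show a (a r) = r
    rcases au_sign hrsq ha.au with h | h
    · rw [h, h]
    · rw [h, map_neg, h, neg_neg]
  rcases au_sign hrsq ha.au with har | har
  · have ht : ∀ z ∈ NX E K0 r (2 ^ n), a z = z := p5 a Q ha har hm
    have h1 := eq_on_NX (T := a * a) (T' := 1) (r := r) (m := 2 ^ (n + 1)) hMM fun w hw => by
      show a (a w) = w
      rcases hsgn a ht w hw with h2 | h2
      · rw [h2, h2]
      · rw [h2, map_neg, h2, neg_neg]
    exact h1
  · obtain ⟨Q', hQ'⟩ := p8 Q
    obtain ⟨i, hi, hir, him⟩ := q6 b₀ Q' hb₀ (over_trans' L0_le_NX hbQ hQ')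
    have hiQ : Moves i _ Q Q := moves_over NX_le_succ hQ' hQ' him
    have hii : ∀ z ∈ NX E K0 r (2 ^ (n + 1)), i (i z) = z := by
      have h1 : (i * i) r = r := by
        show i (i r) = r
        rw [hir, map_neg, hir, neg_neg]
      exact q5 (i * i) Q' (hi.mul hi) h1 (moves_comp (q1 i hi.au) him him)
    -- `t = a * i`
    have hat : ∀ z ∈ NX E K0 r (2 ^ n), (a * i) z = z := by
      refine p5 (a * i) Q (ha.mul hi) ?_ ?_
      · show a (i r) = r
        rw [hir, map_neg, har, neg_neg]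
      · obtain ⟨p1, -⟩ := hPX1 k K0 E U _ r H.geo n
        exact moves_comp (p1 i hi.au) hiQ hm
    have htM : ∀ z ∈ MM E K0 r, (a * i) z = z := fun z hz => hat z (MM_le_NX hz)
    refine eq_on_NX (T := a * a) (T' := 1) (r := r) (m := 2 ^ (n + 1)) hMM fun w hw => ?_
    show a (a w) = w
    have hiw : i w ∈ NX E K0 r (2 ^ (n + 1)) := q1 i hi.au w hw.mem
    have hwm := (hKX2 k K0 E U x f r H).2.1 i hi hir (n + 1) w hw
    obtain ⟨m, hmm⟩ : ∃ m, m = w * i w := ⟨_, rfl⟩
    rw [← hmm] at hwm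
    have hw0 : w ≠ 0 := hw.1
    have hiw' : i w = m * w⁻¹ := by
      rw [hmm]
      field_simp
    have h3 : a (i w) = (a * i) w := rfl
    have h4 : a w = (a * i) (i w) := by
      show a w = a (i (i w))
      rw [hii w hw.mem]
    have h5 : (a * i) (i w) = m * ((a * i) w)⁻¹ := by
      rw [hiw', map_mul, map_inv₀, htM m hwm]
    have h6 : a w = m * ((a * i) w)⁻¹ := h4.trans h5
    rcases hsgn (a * i) hat w hw with h7 | h7
    · have h8 : a w = i w := by rw [h6, h7, hiw']
      rw [h8, h3, h7]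
    · have h8 : a w = -i w := by rw [h6, h7, hiw', inv_neg]; ring
      rw [h8, map_neg, h3, h7, neg_neg]

end expo

end Pool.Agent.TOW
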