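import Pool.Agent.Helper45.TW.YDefs
import Pool.Agent.Helper45.TW.STEPa
import Pool.Agent.Helper59.TW.PX1
import Pool.Agent.Helper79.TW.KGa

/-!
# Project TW (A''), block OVL
-/

set_option autoImplicit false

namespace Pool.Agent.TOWS

open VC Polynomial IntermediateField NumberField IsDedekindDomain Pool.Agent.SC Pool.Agent.L
  Pool.Agent.M
open Pool.Agent.TOW (RX NX Au AuE StmtPX1 over_im over_unique over_trans' exists_im moves_inv
  L0_le_MM L0_le_NX act_au act_au_inv au_sign above59 below59)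
open Pool.Agent.TW (OneRat RatPl OverK Rare StmtLVL)

section

variable {k K0 E U : Type} [Field k] [NumberField k] [Field K0] [Field E] [Field U]
    [Algebra k K0] [Algebra k E] [Algebra E U] [Algebra K0 U] [Algebra k U] [IsScalarTower k E U]
    [IsScalarTower k K0 U]

omit [Field k] [NumberField k] [Algebra k K0] [Algebra k E] [Algebra k U] [IsScalarTower k E U]
  [IsScalarTower k K0 U] in
theorem L0_auY {T : U ≃+* U} (hT : Au E K0 T) : ∀ z ∈ L0 E K0 (U := U), T z ∈ L0 E K0 (U := U) := by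
  intro z hz
  refine IntermediateField.adjoin_induction (p := fun z _ => T z ∈ L0 E K0 (U := U)) E
    ?_ ?_ ?_ ?_ ?_ hz
  · rintro _ ⟨x, rfl⟩
    rw [hT.fixK]
    exact subset_adjoin _ _ ⟨x, rfl⟩
  · intro e
    obtain ⟨e', he'⟩ := hT.presE e
    rw [he']
    exact (L0 E K0 (U := U)).algebraMap_mem e'
  · intro a b _ _ ha hb
    rw [map_add]; exact add_mem ha hb
  · intro a _ ha
    rw [map_inv₀]; exact inv_mem ha
  · intro a b _ _ ha hb
    rw [map_mul]; exact mul_mem ha hb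

omit [Field k] [NumberField k] [Algebra k K0] [Algebra k E] [Algebra k U] [IsScalarTower k E U]
  [IsScalarTower k K0 U] in
theorem L0_le_Y2 : L0 E K0 (U := U) ≤ Y2 E K0 := fun _ hx => subset_adjoin _ _ (Or.inl hx)

omit [Field k] [NumberField k] [Algebra k K0] [Algebra k E] [Algebra k U] [IsScalarTower k E U]
  [IsScalarTower k K0 U] in
theorem RY.mem {w : U} (h : RY E K0 w) : w ∈ Y2 E K0 (U := U) := subset_adjoin _ _ (Or.inr h)

omit [Field k] [NumberField k] [Algebra k K0] [Algebra k E] [Algebra k U] [IsScalarTower k E U]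
  [IsScalarTower k K0 U] in
theorem Y2_le_NX {r : U} : Y2 E K0 (U := U) ≤ NX E K0 r (2 ^ 1) := by
  refine IntermediateField.adjoin_le_iff.2 ?_
  rintro z (hz | hz)
  · exact L0_le_NX hz
  · refine subset_adjoin _ _ (Or.inr ⟨hz.1, ?_⟩)
    rw [pow_one]
    exact L0_le_MM hz.2

omit [Field k] [NumberField k] [Algebra k K0] [Algebra k E] [Algebra k U] [IsScalarTower k E U]
  [IsScalarTower k K0 U] in
theorem MM_le_Y2 {h : K0} {r : U} (hr : r ^ 2 = algebraMap K0 U h)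
    (hn : r ∉ L0 E K0 (U := U)) : MM E K0 r ≤ Y2 E K0 := by
  refine IntermediateField.adjoin_le_iff.2 ?_
  rintro z (hz | hz)
  · exact L0_le_Y2 (subset_adjoin _ _ hz)
  · rw [Set.mem_singleton_iff.1 hz]
    refine RY.mem ⟨?_, ?_⟩
    · rintro rfl
      exact hn (zero_mem _)
    · rw [hr]
      exact subset_adjoin _ _ ⟨h, rfl⟩

omit [Field k] [NumberField k] [Algebra k K0] [Algebra k E] [Algebra k U] [IsScalarTower k E U]
  [IsScalarTower k K0 U] in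
theorem Y2_stab {T : U ≃+* U} (hT : Au E K0 T) :
    ∀ z ∈ Y2 E K0 (U := U), T z ∈ Y2 E K0 (U := U) := by
  intro z hz
  refine IntermediateField.adjoin_induction (p := fun z _ => T z ∈ Y2 E K0 (U := U)) E
    ?_ ?_ ?_ ?_ ?_ hz
  · rintro w (hw | hw)
    · exact L0_le_Y2 (L0_auY hT w hw)
    · refine RY.mem ⟨(map_ne_zero_iff T T.injective).2 hw.1, ?_⟩
      rw [← map_pow]
      exact L0_auY hT _ hw.2
  · intro e
    obtain ⟨e', he'⟩ := hT.presE e
    rw [he']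
    exact (Y2 E K0 (U := U)).algebraMap_mem e'
  · intro a b _ _ ha hb
    rw [map_add]; exact add_mem ha hb
  · intro a _ ha
    rw [map_inv₀]; exact inv_mem ha
  · intro a b _ _ ha hb
    rw [map_mul]; exact mul_mem ha hb

omit [Field k] [NumberField k] [Algebra k K0] [Algebra k E] [Algebra k U] [IsScalarTower k E U]
  [IsScalarTower k K0 U] in
theorem Y2_sign {T : U ≃+* U} (hT : AuE E K0 T) {w : U} (hw : RY E K0 w) :
    T w = w ∨ T w = -w := by
  apply sq_eq_sq_iff_eq_or_eq_neg.1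
  rw [← map_pow, hT.onL0 _ hw.2]

omit [Field k] [NumberField k] [Algebra k K0] [Algebra k E] [Algebra k U] [IsScalarTower k E U]
  [IsScalarTower k K0 U] in
/-- equality on `Y2` -/
theorem eq_on_Y2 {T T' : U ≃+* U} (h0 : ∀ z ∈ L0 E K0 (U := U), T z = T' z)
    (h1 : ∀ w, RY E K0 w → T w = T' w) : ∀ z ∈ Y2 E K0 (U := U), T z = T' z := by
  intro z hz
  refine IntermediateField.adjoin_induction (p := fun z _ => T z = T' z) E ?_ ?_ ?_ ?_ ?_ hz
  · rintro x (hx | hx)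
    · exact h0 x hx
    · exact h1 x hx
  · intro e
    exact h0 _ ((L0 E K0 (U := U)).algebraMap_mem e)
  · intro a b _ _ ha hb
    rw [map_add, map_add, ha, hb]
  · intro a _ ha
    rw [map_inv₀, map_inv₀, ha]
  · intro a b _ _ ha hb
    rw [map_mul, map_mul, ha, hb]

omit [Field k] [NumberField k] [Algebra k K0] [Algebra k E] [Algebra k U] [IsScalarTower k E U]
  [IsScalarTower k K0 U] in
theorem Y2_comm {T T' : U ≃+* U} (hT : AuE E K0 T) (hT' : AuE E K0 T') :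
    ∀ z ∈ Y2 E K0 (U := U), (T * T') z = (T' * T) z := by
  refine eq_on_Y2 (fun z hz => ?_) fun w hw => ?_
  · rw [(hT.mul hT').onL0 z hz, (hT'.mul hT).onL0 z hz]
  · show T (T' w) = T' (T w)
    rcases Y2_sign hT hw with h1 | h1 <;> rcases Y2_sign hT' hw with h2 | h2 <;>
      simp only [h1, h2, map_neg]

omit [Field k] [NumberField k] [Algebra k K0] [Algebra k E] [Algebra k U] [IsScalarTower k E U]
  [IsScalarTower k K0 U] in
theorem Y2_sq {T : U ≃+* U} (hT : AuE E K0 T) :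
    ∀ z ∈ Y2 E K0 (U := U), (T * T) z = (1 : U ≃+* U) z := by
  refine eq_on_Y2 (fun z hz => ?_) fun w hw => ?_
  · rw [(hT.mul hT).onL0 z hz]
    rfl
  · show T (T w) = w
    rcases Y2_sign hT hw with h1 | h1
    · rw [h1, h1]
    · rw [h1, map_neg, h1, neg_neg]

/-- conjugation of the places of `Y2` above a place of `L0` -/
theorem Y2_conj (hPX1 : StmtPX1) {h : K0} {r : U} (G : Geo k K0 E U h r)
    {b : Place E (L0 E K0 (U := U))} {Q Q' : Place E (Y2 E K0 (U := U))} (hQ : OverPl b Q)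
    (hQ' : OverPl b Q') : ∃ T : U ≃+* U, AuE E K0 T ∧ Moves T _ Q Q' := by
  obtain ⟨-, -, -, p4, -⟩ := hPX1 k K0 E U _ r G 1
  obtain ⟨R, hR⟩ := above59 (Y2_le_NX (r := r)) Q
  obtain ⟨R', hR'⟩ := above59 (Y2_le_NX (r := r)) Q'
  have hb : OverPl b R := over_trans' L0_le_Y2 hQ hR
  have hb' : OverPl b R' := over_trans' L0_le_Y2 hQ' hR'
  obtain ⟨T, hT, hm⟩ := p4 R R' fun b' => ⟨fun hx => by
    rw [over_unique L0_le_NX hx hb]; exact hb', fun hx => by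
    rw [over_unique L0_le_NX hx hb']; exact hb⟩
  exact ⟨T, hT, moves_over Y2_le_NX hR hR' hm⟩

theorem Y2_finite (hPX1 : StmtPX1) {h : K0} {r : U} (G : Geo k K0 E U h r)
    (b : Place E (L0 E K0 (U := U))) :
    {Q : Place E (Y2 E K0 (U := U)) | OverPl b Q}.Finite := by
  obtain ⟨-, -, -, -, -, -, p7, -⟩ := hPX1 k K0 E U _ r G 1
  obtain ⟨hfin, -⟩ := p7 b
  have h1 : ∀ Q : Place E (Y2 E K0 (U := U)), ∃ R : Place E (NX E K0 r (2 ^ 1)), OverPl Q R :=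
    fun Q => above59 (Y2_le_NX (r := r)) Q
  choose A hA using h1
  refine Set.Finite.of_finite_image (f := A) (hfin.subset ?_) ?_
  · rintro _ ⟨Q, hQ, rfl⟩
    have hQ' : OverPl b Q := hQ
    exact over_trans' L0_le_Y2 hQ' (hA Q)
  · intro Q _ Q' _ h2
    have h3 := hA Q
    rw [h2] at h3
    exact over_unique Y2_le_NX h3 (hA Q')

/-- **BLOCK OVL.** -/
theorem oVL (hLVL : StmtLVL) (hPX1 : StmtPX1) : StmtOVL := by
  intro k K0 E U _ _ _ _ _ _ _ _ _ _ _ _ h r G b₀ hOne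
  classical
  refine ⟨fun T hT => Y2_stab hT, ?_⟩
  by_cases hex : ∃ (c₀ : k) (Φ₀ : (E ≃ₐ[k] E) →* (U ≃+* U)), c₀ ≠ 0 ∧ Act (K0 := K0) r c₀ Φ₀
  swap
  · refine ⟨⊥, inferInstance, ?_⟩
    exact Pool.Agent.TOW.Rare.of_none fun c hc ⟨Φ, h1, _⟩ => hex ⟨c, Φ, hc, h1⟩
  obtain ⟨c₀, Φ₀, hc₀, hΦ₀⟩ := hex
  have hPfin := Y2_finite hPX1 G b₀
  obtain ⟨-, -, q3, -, -, -, -, -⟩ := hPX1 k K0 E U _ r G 1
  have hMMY : MM E K0 r ≤ Y2 E K0 := MM_le_Y2 G.rsq G.rnot
  have hffY : IsFunctionField E (Y2 E K0 (U := U)) := by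
    obtain ⟨t, ht, -⟩ := G.ff
    refine Pool.Agent.TOW.ff_of_le79 Y2_le_NX q3 ⟨(t : U), L0_le_Y2 t.2, ?_⟩
    exact (transcendental_algebraMap_iff (S := L0 E K0 (U := U)) (A := U)
      (algebraMap (L0 E K0 (U := U)) U).injective).2 ht
  have hclE : IsAlgClosed E := G.clE
  -- elements which separate the places above `b₀`
  have hsep : ∀ p : Place E (Y2 E K0 (U := U)) × Place E (Y2 E K0 (U := U)), ∃ z : Y2 E K0 (U := U),
      p.1 ≠ p.2 → z ∈ p.1.ring ∧ z ∉ p.2.ring := by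
    rintro ⟨Q, Q'⟩
    by_cases hQQ : Q = Q'
    · exact ⟨0, fun h1 => absurd hQQ h1⟩
    · obtain ⟨z, hz⟩ := FF.exists_mem_notMem hffY hQQ
      exact ⟨z, fun _ => hz⟩
  choose z hz using hsep
  have hLz : ∀ p : Place E (Y2 E K0 (U := U)) × Place E (Y2 E K0 (U := U)),
      ∃ L : IntermediateField k E, FiniteDimensional k L ∧
        ∀ g : E ≃ₐ[k] E, (∀ x ∈ L, g x = x) → Φ₀ g (z p : U) = z p := fun p => hΦ₀.cont _
  choose Lz hLz1 hLz2 using hLz
  obtain ⟨S, hS⟩ : ∃ S : Finset (Place E (Y2 E K0 (U := U)) × Place E (Y2 E K0 (U := U))),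
      S = hPfin.toFinset ×ˢ hPfin.toFinset := ⟨_, rfl⟩
  have hLfin : FiniteDimensional k (⨆ p ∈ S, Lz p : IntermediateField k E) :=
    IntermediateField.finiteDimensional_iSup_of_finset' fun p _ => hLz1 p
  refine ⟨⨆ p ∈ S, Lz p, hLfin, ?_⟩
  -- the action `Φ₀`
  have hA : ∀ σ : E ≃ₐ[k] E, (∀ x ∈ (⨆ p ∈ S, Lz p : IntermediateField k E), σ x = x) →
      ∀ Q : Place E (Y2 E K0 (U := U)), OverPl b₀ Q → Moves (Φ₀ σ) _ Q Q := by
    intro σ hσ Q hQ
    have hT := act_au hΦ₀ σ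
    have hTi := act_au_inv hΦ₀ σ
    obtain ⟨Q', hQ'⟩ := exists_im (Y2_stab hT) (Y2_stab hTi) hTi.presE Q
    have hbQ' : OverPl b₀ Q' := over_im L0_le_Y2 (L0_auY hT) (L0_auY hTi) hQ
      (hOne.fix c₀ Φ₀ hc₀ hΦ₀ σ) hQ'
    have hQQ : Q = Q' := by
      by_contra hne
      obtain ⟨h1, h2⟩ := hz (Q, Q') hne
      have hp : (Q, Q') ∈ S := by
        rw [hS, Finset.mem_product]
        exact ⟨hPfin.mem_toFinset.2 hQ, hPfin.mem_toFinset.2 hbQ'⟩
      have h3 : Φ₀ σ (z (Q, Q') : U) = z (Q, Q') := by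
        refine hLz2 (Q, Q') σ fun x hx => hσ x ?_
        exact (le_iSup₂_of_le (f := fun p (_ : p ∈ S) => Lz p) (Q, Q') hp le_rfl) hx
      have h4 : Φ₀ σ (z (Q, Q') : U) ∈ Y2 E K0 (U := U) := by rw [h3]; exact (z (Q, Q')).2
      have h5 := (hQ' (z (Q, Q') : U) (z (Q, Q')).2 h4).1 h1
      have e : (⟨Φ₀ σ (z (Q, Q') : U), h4⟩ : Y2 E K0 (U := U)) = z (Q, Q') := Subtype.ext h3
      rw [e] at h5
      exact h2 h5
    rw [← hQQ] at hQ'
    exact hQ'
  have hR := hLVL k K0 E U _ r G b₀ hOne (Y2 E K0 (U := U))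
    ⟨hffY, fun x => L0_le_Y2 (subset_adjoin _ _ ⟨x, rfl⟩), fun T hT hE => Y2_stab ⟨hT, hE⟩⟩
    hMMY fun a ha z hz => by
      have haE : AuE E K0 a.toRingEquiv :=
        ⟨fun z => ha _ (IntermediateField.subset_adjoin _ _ ⟨_, rfl⟩), fun e => a.commutes e⟩
      exact Y2_sq haE z hz
  refine Pool.Agent.TOW.Rare.mono hR ?_
  rintro c hc ⟨Φ, hΦ, σ, hσ, Q', hQ', hno⟩
  refine ⟨Φ, hΦ, σ, ?_⟩
  rintro ⟨Q, hQ, hm⟩
  apply hno
  obtain ⟨a, ha⟩ : ∃ a : U ≃+* U, a = Φ σ * (Φ₀ σ)⁻¹ := ⟨_, rfl⟩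
  have hT := act_au hΦ σ
  have hT0 := act_au hΦ₀ σ
  have hT0i := act_au_inv hΦ₀ σ
  have haE : AuE E K0 a := by
    rw [ha]
    refine ⟨fun x => ?_, fun e => ?_⟩
    · show Φ σ ((Φ₀ σ)⁻¹ _) = _
      rw [hT0i.fixK, hT.fixK]
    · show Φ σ ((Φ₀ σ)⁻¹ _) = _
      rw [← map_inv, hΦ₀.const, hΦ.const]
      congr 1
      exact σ.apply_symm_apply e
  have h0i : ∀ Q : Place E (Y2 E K0 (U := U)), OverPl b₀ Q → Moves (Φ₀ σ)⁻¹ _ Q Q := fun Q hQ =>
    moves_inv (Y2_stab hT0i) (hA σ hσ Q hQ)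
  have haQ : Moves a _ Q Q := by
    rw [ha]
    exact moves_comp (Y2_stab hT0i) (h0i Q hQ) hm
  obtain ⟨T, hTE, hTm⟩ := Y2_conj hPX1 G hQ hQ'
  have haQ' : Moves a _ Q' Q' := by
    have h1 : Moves (T * (a * T⁻¹)) _ Q' Q' := by
      have h2 : Moves T⁻¹ _ Q' Q := moves_inv (Y2_stab hTE.inv.au) hTm
      have h3 : Moves (a * T⁻¹) _ Q' Q := moves_comp (Y2_stab hTE.inv.au) h2 haQ
      exact moves_comp (Y2_stab (haE.mul hTE.inv).au) h3 hTm
    refine moves_congr (fun z hz => ?_) h1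
    have h2 := Y2_comm hTE haE (T⁻¹ z) (Y2_stab hTE.inv.au z hz)
    have h3 : (T * (a * T⁻¹)) z = (T * a) (T⁻¹ z) := rfl
    have h4 : (a * T) (T⁻¹ z) = a z := by
      show a (T (T⁻¹ z)) = a z
      congr 1
      exact T.apply_symm_apply z
    rw [h3, h2, h4]
  have h5 : Moves (a * Φ₀ σ) _ Q' Q' := moves_comp (Y2_stab hT0) (hA σ hσ Q' hQ') haQ'
  have e : a * Φ₀ σ = Φ σ := by rw [ha, inv_mul_cancel_right]
  rw [e] at h5
  exact h5

end

end Pool.Agent.TOWS
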