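import Pool.Agent.Helper45.TW.SAa

/-!
# Project TW, block SA: the roots
-/

set_option autoImplicit false

namespace Pool.Agent.TOW

open VC IntermediateField NumberField IsDedekindDomain Pool.Agent.SC Pool.Agent.L Pool.Agent.M
open Pool.Agent.HG (Pr nm IsOdd)

/-- The roots of `f`, the square roots `ww β` of `x - β` and their `2 ^ n`-th roots `u β` up to
elements of `M`. -/
structure RD (E K0 : Type) {U : Type} [Field E] [Field K0] [Field U] [Algebra E U]
    [Algebra K0 U] (r : U) (x : K0) (n : ℕ) (R : Finset E) (ww u : E → U) : Prop where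
  hww : ∀ β ∈ R, ww β ^ 2 = algebraMap K0 U x - algebraMap E U β
  hu : ∀ β ∈ R, RX E K0 r (2 ^ (n + 1)) (u β)
  hum : ∀ β ∈ R, ∃ m ∈ MM E K0 r, m ≠ 0 ∧ u β ^ 2 ^ n = ww β * m
  dec : ∀ w : U, RX E K0 r (2 ^ (n + 1)) w → ∃ S ⊆ R, w ^ 2 ^ n * ∏ β ∈ S, ww β ∈ MM E K0 r
  ind : ∀ S ⊆ R, ∏ β ∈ S, ww β ∈ MM E K0 r ↔ S = ∅ ∨ S = R

section

variable {E K0 U : Type} [Field E] [Field K0] [Field U] [Algebra E U] [Algebra K0 U]
  {r : U} {x : K0} {n : ℕ} {R : Finset E} {ww u : E → U}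

theorem RD.ww_ne (D : RD E K0 r x n R ww u) {β : E} (hβ : β ∈ R) : ww β ≠ 0 := by
  obtain ⟨m, -, -, hm⟩ := D.hum β hβ
  intro h0
  rw [h0, zero_mul] at hm
  exact (D.hu β hβ).1 (pow_eq_zero_iff (pow_ne_zero n two_ne_zero) |>.1 hm)

theorem RD.prod (D : RD E K0 r x n R ww u) {S : Finset E} (hS : S ⊆ R) :
    ∃ m ∈ MM E K0 r, m ≠ 0 ∧ (∏ β ∈ S, u β) ^ 2 ^ n = (∏ β ∈ S, ww β) * m := by
  classical
  induction S using Finset.induction_on with
  | empty => exact ⟨1, one_mem _, one_ne_zero, by simp⟩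
  | insert β S hβ ih =>
    obtain ⟨m, hm, hm0, h1⟩ := ih fun x hx => hS (Finset.mem_insert_of_mem hx)
    obtain ⟨m', hm', hm0', h2⟩ := D.hum β (hS (Finset.mem_insert_self _ _))
    refine ⟨m' * m, mul_mem hm' hm, mul_ne_zero hm0' hm0, ?_⟩
    rw [Finset.prod_insert hβ, Finset.prod_insert hβ, mul_pow, h1, h2]
    ring

/-- squares of products -/
theorem RD.sq (D : RD E K0 r x n R ww u) {S : Finset E} (hS : S ⊆ R) :
    (∏ β ∈ S, ww β) ^ 2 ∈ MM E K0 r := by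
  rw [← Finset.prod_pow]
  refine prod_mem fun β hβ => ?_
  rw [D.hww β (hS hβ)]
  exact sub_mem (L0_le_MM (subset_adjoin _ _ ⟨x, rfl⟩)) ((MM E K0 r).algebraMap_mem β)

/-- the rest of the decomposition -/
theorem RD.rest (D : RD E K0 r x n R ww u) {w : U} (hw : RX E K0 r (2 ^ (n + 1)) w)
    {S : Finset E} (hS : S ⊆ R) (h : w ^ 2 ^ n * ∏ β ∈ S, ww β ∈ MM E K0 r) :
    RX E K0 r (2 ^ n) (w * ∏ β ∈ S, u β) := by
  obtain ⟨m, hm, hm0, h1⟩ := D.prod hS
  refine ⟨mul_ne_zero hw.1 (Finset.prod_ne_zero_iff.2 fun β hβ => (D.hu β (hS hβ)).1), ?_⟩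
  rw [mul_pow, h1, ← mul_assoc]
  exact mul_mem h hm

/-- automorphisms which are trivial on the lower level and on the `u β` are trivial -/
theorem RD.triv (D : RD E K0 r x n R ww u) {T T' : U ≃+* U}
    (hM : ∀ z ∈ NX E K0 r (2 ^ n), T z = T' z) (hu : ∀ β ∈ R, T (u β) = T' (u β)) :
    ∀ z ∈ NX E K0 r (2 ^ (n + 1)), T z = T' z := by
  refine eq_on_NX (fun z hz => hM z (MM_le_NX hz)) fun w hw => ?_
  obtain ⟨S, hS, h1⟩ := D.dec w hw
  have h2 := hM _ (D.rest hw hS h1).mem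
  rw [map_mul, map_mul, map_prod, map_prod] at h2
  have h3 : ∏ β ∈ S, T (u β) = ∏ β ∈ S, T' (u β) :=
    Finset.prod_congr rfl fun β hβ => hu β (hS hβ)
  rw [h3] at h2
  refine mul_right_cancel₀ ?_ h2
  refine Finset.prod_ne_zero_iff.2 fun β hβ => ?_
  exact (map_ne_zero_iff T' T'.injective).2 (D.hu β (hS hβ)).1

/-- a sign -/
theorem RD.sign [CharZero U] (D : RD E K0 r x n R ww u) {T : U ≃+* U}
    (hM : ∀ z ∈ NX E K0 r (2 ^ n), T z = z) {β : E} (hβ : β ∈ R) :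
    ∃ s : ℤˣ, T (u β) = ((s : ℤ) : U) * u β := by
  have h1 : T (u β) ^ 2 = u β ^ 2 := by
    rw [← map_pow]
    exact hM _ (D.hu β hβ).sq.mem
  rcases sq_eq_sq_iff_eq_or_eq_neg.1 h1 with h2 | h2
  · exact ⟨1, by rw [h2]; simp⟩
  · exact ⟨-1, by rw [h2]; simp⟩

theorem sign_inj [CharZero U] {w : U} (hw : w ≠ 0) {s s' : ℤˣ}
    (h : ((s : ℤ) : U) * w = ((s' : ℤ) : U) * w) : s = s' := by
  have h1 := mul_right_cancel₀ hw h
  exact Units.ext (by exact_mod_cast h1)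

end

/-- existence of the root data -/
theorem exists_RD (hKX1 : StmtKX1) (hKX2 : StmtKX2) {k K0 E U : Type} [Field k] [NumberField k]
    [Field K0] [Field E] [Field U] [Algebra k K0]
    [Algebra k E] [Algebra E U] [Algebra K0 U] [Algebra k U] [IsScalarTower k E U]
    [IsScalarTower k K0 U] {x : K0} {f : Polynomial k} {r : U} (H : Hyp E x f r) (n : ℕ) :
    ∃ (R : Finset E) (ww u : E → U), (∀ β, β ∈ R ↔ Polynomial.aeval β f = 0) ∧ Odd R.card ∧
      RD E K0 r x n R ww u := by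
  classical
  have hcl : IsAlgClosed E := H.geo.clE
  have hf0 : f ≠ 0 := H.irr.ne_zero
  have hch : CharZero k := inferInstance
  have hsep : f.Separable := H.irr.separable
  let R : Finset E := (f.rootSet E).toFinset
  have hR : ∀ β, β ∈ R ↔ Polynomial.aeval β f = 0 := by
    intro β
    rw [Set.mem_toFinset, Polynomial.mem_rootSet]
    exact ⟨fun h => h.2, fun h => ⟨hf0, h⟩⟩
  have hcard : R.card = f.natDegree := by
    rw [Set.toFinset_card]
    exact Polynomial.card_rootSet_eq_natDegree hsep (IsAlgClosed.splits _)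
  obtain ⟨hroot, -, hrest⟩ := hKX2 k K0 E U x f r H
  have hww : ∀ β : E, ∃ w : U, Polynomial.aeval β f = 0 →
      w ^ 2 = algebraMap K0 U x - algebraMap E U β := by
    intro β
    by_cases hβ : Polynomial.aeval β f = 0
    · obtain ⟨w, hw⟩ := hroot β hβ
      exact ⟨w, fun _ => hw⟩
    · exact ⟨0, fun h => absurd h hβ⟩
  choose ww hww using hww
  obtain ⟨hdec, hind⟩ := hrest ww hww
  have hxβ : ∀ β : E, algebraMap K0 U x - algebraMap E U β ≠ 0 := by
    intro β h0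
    have hch' : Algebra.IsAlgebraic k E := H.geo.algE
    have h1 : algebraMap K0 U x = algebraMap E U β := sub_eq_zero.1 h0
    apply H.tr
    have h2 : IsAlgebraic k (algebraMap K0 U x) := by
      rw [h1]
      exact (Algebra.IsAlgebraic.isAlgebraic (R := k) β).algebraMap
    exact (isAlgebraic_algebraMap_iff (algebraMap K0 U).injective).1 h2
  have hwne : ∀ β : E, Polynomial.aeval β f = 0 → ww β ≠ 0 := by
    intro β hβ h0
    have h1 := hww β hβ
    rw [h0, zero_pow two_ne_zero] at h1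
    exact hxβ β h1.symm
  have hwRX : ∀ β : E, Polynomial.aeval β f = 0 → RX E K0 r 2 (ww β) := by
    intro β hβ
    refine ⟨hwne β hβ, ?_⟩
    rw [hww β hβ]
    exact sub_mem (L0_le_MM (subset_adjoin _ _ ⟨x, rfl⟩)) ((MM E K0 r).algebraMap_mem β)
  -- the iterated roots
  have hu : ∀ (β : E), Polynomial.aeval β f = 0 → ∀ n : ℕ, ∃ u : U,
      RX E K0 r (2 ^ (n + 1)) u ∧ ∃ m ∈ MM E K0 r, m ≠ 0 ∧ u ^ 2 ^ n = ww β * m := by
    intro β hβ n
    induction n with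
    | zero =>
      refine ⟨ww β, by rw [zero_add, pow_one]; exact hwRX β hβ, 1, one_mem _, one_ne_zero, ?_⟩
      rw [pow_zero, pow_one, mul_one]
    | succ n ih =>
      obtain ⟨u, hu, m, hm, hm0, h1⟩ := ih
      obtain ⟨u', m', hu', hm', hm0', h2⟩ := hKX1 k K0 E U _ r H.geo (n + 1) u hu
      refine ⟨u', hu', m * m' ^ 2 ^ n, mul_mem hm (pow_mem hm' _),
        mul_ne_zero hm0 (pow_ne_zero _ hm0'), ?_⟩
      rw [pow_succ' 2 n, pow_mul, h2, mul_pow, h1]
      ring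
  have hu' : ∀ β : E, ∃ u : U, Polynomial.aeval β f = 0 → RX E K0 r (2 ^ (n + 1)) u ∧
      ∃ m ∈ MM E K0 r, m ≠ 0 ∧ u ^ 2 ^ n = ww β * m := by
    intro β
    by_cases hβ : Polynomial.aeval β f = 0
    · obtain ⟨u, h1⟩ := hu β hβ n
      exact ⟨u, fun _ => h1⟩
    · exact ⟨0, fun h => absurd h hβ⟩
  choose u hu' using hu'
  refine ⟨R, ww, u, hR, by rw [hcard]; exact H.odd, fun β hβ => hww β ((hR β).1 hβ),
    fun β hβ => (hu' β ((hR β).1 hβ)).1, fun β hβ => (hu' β ((hR β).1 hβ)).2, ?_, ?_⟩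
  · intro w hw
    have h1 : RX E K0 r 2 (w ^ 2 ^ n) :=
      ⟨pow_ne_zero _ hw.1, by rw [← pow_mul, ← pow_succ]; exact hw.2⟩
    obtain ⟨S, hS, h2⟩ := hdec _ h1
    exact ⟨S, fun β hβ => (hR β).2 (hS β hβ), h2⟩
  · intro S hS
    rw [hind S fun β hβ => (hR β).1 (hS hβ)]
    constructor
    · rintro (h | h)
      · exact Or.inl h
      · exact Or.inr (Finset.Subset.antisymm hS fun β hβ => h β ((hR β).1 hβ))
    · rintro (h | h)
      · exact Or.inl h
      · exact Or.inr fun β hβ => by rw [h]; exact (hR β).2 hβ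

end Pool.Agent.TOW
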