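import Pool.Agent.Helper45.TW.SAb

/-!
# Project TW, block SA: the cocycle
-/

set_option autoImplicit false

namespace Pool.Agent.TOW

open VC IntermediateField NumberField IsDedekindDomain Pool.Agent.SC Pool.Agent.L Pool.Agent.M
open Pool.Agent.HG (Pr nm IsOdd)

section

variable {E K0 U : Type} [Field E] [Field K0] [Field U] [Algebra E U] [Algebra K0 U]

/-- What we need about the places of two consecutive levels. -/
structure Lv (E K0 : Type) {U : Type} [Field E] [Field K0] [Field U] [Algebra E U]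
    [Algebra K0 U] (r : U) (n : ℕ) (Q : Place E (NX E K0 r (2 ^ n))) : Prop where
  stab0 : ∀ T : U ≃+* U, Au E K0 T → ∀ z ∈ NX E K0 r (2 ^ n), T z ∈ NX E K0 r (2 ^ n)
  stab1 : ∀ T : U ≃+* U, Au E K0 T → ∀ z ∈ NX E K0 r (2 ^ (n + 1)), T z ∈ NX E K0 r (2 ^ (n + 1))
  triv0 : ∀ T : U ≃+* U, AuE E K0 T → T r = r → Moves T _ Q Q →
    ∀ z ∈ NX E K0 r (2 ^ n), T z = z
  triv1 : ∀ (T : U ≃+* U) (Q' : Place E (NX E K0 r (2 ^ (n + 1)))), AuE E K0 T → T r = r →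
    Moves T _ Q' Q' → ∀ z ∈ NX E K0 r (2 ^ (n + 1)), T z = z
  conj : ∀ Q' Q'' : Place E (NX E K0 r (2 ^ (n + 1))), OverPl Q Q' → OverPl Q Q'' →
    ∃ a : U ≃+* U, AuE E K0 a ∧ a r = r ∧ Moves a _ Q' Q''
  rr : ∀ T : U ≃+* U, Au E K0 T → T r = r ∨ T r = -r

theorem Lv.au_MM {r : U} {n : ℕ} {Q : Place E (NX E K0 r (2 ^ n))} (hL : Lv E K0 r n Q)
    {T : U ≃+* U} (hT : Au E K0 T) : ∀ z ∈ MM E K0 r, T z ∈ MM E K0 r := by
  intro z hz
  refine IntermediateField.adjoin_induction (p := fun z _ => T z ∈ MM E K0 r) E ?_ ?_ ?_ ?_ ?_ hz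
  · rintro _ (⟨x, rfl⟩ | hx)
    · rw [hT.fixK]
      exact subset_adjoin _ _ (Or.inl ⟨x, rfl⟩)
    · rw [Set.mem_singleton_iff.1 hx]
      have h1 : r ∈ MM E K0 r := subset_adjoin _ _ (Or.inr rfl)
      rcases hL.rr T hT with h2 | h2
      · rw [h2]; exact h1
      · rw [h2]; exact neg_mem h1
  · intro e
    obtain ⟨e', he'⟩ := hT.presE e
    rw [he']
    exact (MM E K0 r).algebraMap_mem e'
  · intro a b _ _ ha hb
    rw [map_add]; exact add_mem ha hb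
  · intro a _ ha
    rw [map_inv₀]; exact inv_mem ha
  · intro a b _ _ ha hb
    rw [map_mul]; exact mul_mem ha hb

theorem Lv.au_RX {r : U} {n : ℕ} {Q : Place E (NX E K0 r (2 ^ n))} (hL : Lv E K0 r n Q)
    {T : U ≃+* U} (hT : Au E K0 T) {m : ℕ} {w : U} (h : RX E K0 r m w) : RX E K0 r m (T w) :=
  ⟨(map_ne_zero_iff T T.injective).2 h.1, by rw [← map_pow]; exact hL.au_MM hT _ h.2⟩

theorem Lv.conj' {r : U} {n : ℕ} {Q : Place E (NX E K0 r (2 ^ n))} (hL : Lv E K0 r n Q)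
    {Q' Q'' : Place E (NX E K0 r (2 ^ (n + 1)))} (h' : OverPl Q Q') (h'' : OverPl Q Q'') :
    ∃ a : U ≃+* U, AuE E K0 a ∧ a r = r ∧ (∀ z ∈ NX E K0 r (2 ^ n), a z = z) ∧
      Moves a _ Q' Q'' := by
  obtain ⟨a, ha, har, hm⟩ := hL.conj Q' Q'' h' h''
  exact ⟨a, ha, har, hL.triv0 a ha har (moves_over NX_le_succ h' h'' hm), hm⟩

/-- the image of a place over a fixed place is over the fixed place -/
theorem over_im {N N' : IntermediateField E U} (hle : N ≤ N') {T : U ≃+* U}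
    (hst : ∀ z ∈ N, T z ∈ N) (hst' : ∀ z ∈ N, T⁻¹ z ∈ N) {Q : Place E N} {Q' Q'' : Place E N'}
    (h : OverPl Q Q') (hQ : Moves T N Q Q) (hm : Moves T N' Q' Q'') : OverPl Q Q'' := by
  intro x hx hx'
  have h1 : T (T⁻¹ x) = x := T.apply_symm_apply x
  have h2 := hst' x hx
  have h3 := hQ (T⁻¹ x) h2 (by rw [h1]; exact hx)
  have h4 := hm (T⁻¹ x) (hle h2) (by rw [h1]; exact hx')
  have h5 := h (T⁻¹ x) h2 (hle h2)
  have e3 : (⟨T (T⁻¹ x), by rw [h1]; exact hx⟩ : N) = ⟨x, hx⟩ := Subtype.ext h1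
  have e4 : (⟨T (T⁻¹ x), by rw [h1]; exact hx'⟩ : N') = ⟨x, hx'⟩ := Subtype.ext h1
  rw [e3] at h3
  rw [e4] at h4
  rw [← h3, h5, h4]

/-- `a⁻¹ T` fixes the place `Q'` -/
structure Ad (E K0 : Type) {U : Type} [Field E] [Field K0] [Field U] [Algebra E U]
    [Algebra K0 U] (r : U) (n : ℕ) (Q' : Place E (NX E K0 r (2 ^ (n + 1)))) (T a : U ≃+* U) :
    Prop where
  au : AuE E K0 a
  ar : a r = r
  tr : ∀ z ∈ NX E K0 r (2 ^ n), a z = z
  mv : Moves (a⁻¹ * T) _ Q' Q'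

theorem Lv.exists_ad {r : U} {n : ℕ} {Q : Place E (NX E K0 r (2 ^ n))} (hL : Lv E K0 r n Q)
    {Q' : Place E (NX E K0 r (2 ^ (n + 1)))} (hQ' : OverPl Q Q') {T : U ≃+* U}
    (hT : Au E K0 T) (hT' : Au E K0 T⁻¹) (hQ : Moves T _ Q Q) :
    ∃ a, Ad E K0 r n Q' T a := by
  obtain ⟨Q'', hm⟩ := exists_im (hL.stab1 T hT) (hL.stab1 _ hT') hT'.presE Q'
  have h1 : OverPl Q Q'' := over_im NX_le_succ (hL.stab0 T hT) (hL.stab0 _ hT') hQ' hQ hm
  obtain ⟨a, ha, har, hat, hma⟩ := hL.conj' hQ' h1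
  refine ⟨a, ha, har, hat, moves_comp (hL.stab1 T hT) hm ?_⟩
  exact moves_inv (hL.stab1 _ ha.inv.au) hma

theorem Lv.ad_unique {r : U} {n : ℕ} {Q : Place E (NX E K0 r (2 ^ n))} (hL : Lv E K0 r n Q)
    {Q' : Place E (NX E K0 r (2 ^ (n + 1)))} {T a a' : U ≃+* U} (hT : Au E K0 T)
    (hT' : Au E K0 T⁻¹) (h : Ad E K0 r n Q' T a) (h' : Ad E K0 r n Q' T a') :
    ∀ z ∈ NX E K0 r (2 ^ (n + 1)), a z = a' z := by
  have h1 : Moves (a'⁻¹ * a) _ Q' Q' := by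
    have e : a'⁻¹ * a = (a'⁻¹ * T) * (a⁻¹ * T)⁻¹ := by group
    rw [e]
    have h2 : Au E K0 (a⁻¹ * T)⁻¹ := by
      rw [mul_inv_rev, inv_inv]
      exact hT'.mul h.au.au
    exact moves_comp (hL.stab1 _ h2) (moves_inv (hL.stab1 _ h2) h.mv) h'.mv
  have h3 : (a'⁻¹ * a) r = r := by
    show a'⁻¹ (a r) = r
    rw [h.ar]
    exact inv_fix h'.ar
  intro z hz
  have h4 := hL.triv1 _ Q' (h'.au.inv.mul h.au) h3 h1 z hz
  have h5 : a'⁻¹ (a z) = z := h4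
  have h6 : a' (a'⁻¹ (a z)) = a z := a'.apply_symm_apply _
  rw [h5] at h6
  exact h6.symm

theorem Lv.ad_conj {r : U} {n : ℕ} {Q : Place E (NX E K0 r (2 ^ n))} (hL : Lv E K0 r n Q)
    {T a : U ≃+* U} (hT : Au E K0 T) (hT' : Au E K0 T⁻¹)
    (hinj : ∀ e : E, ∃ e', T⁻¹ (algebraMap E U e) = algebraMap E U e') (ha : AuE E K0 a)
    (har : a r = r) (hat : ∀ z ∈ NX E K0 r (2 ^ n), a z = z) :
    AuE E K0 (T * a * T⁻¹) ∧ (T * a * T⁻¹) r = r ∧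
      ∀ z ∈ NX E K0 r (2 ^ n), (T * a * T⁻¹) z = z := by
  have hTT : ∀ z, T (T⁻¹ z) = z := fun z => T.apply_symm_apply z
  refine ⟨⟨fun x => ?_, fun e => ?_⟩, ?_, fun z hz => ?_⟩
  · show T (a (T⁻¹ _)) = _
    rw [hT'.fixK, ha.fixK, hT.fixK]
  · show T (a (T⁻¹ _)) = _
    obtain ⟨e', he'⟩ := hinj e
    rw [he', ha.fixE, ← he', hTT]
  · show T (a (T⁻¹ r)) = r
    rcases hL.rr _ hT' with h2 | h2
    · have h5 : T r = r := by
        have := hTT r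
        rwa [h2] at this
      rw [h2, har, h5]
    · have h5 : T r = -r := by
        have := hTT r
        rw [h2, map_neg] at this
        exact neg_eq_iff_eq_neg.1 this
      rw [h2, map_neg, har, map_neg, h5, neg_neg]
  · show T (a (T⁻¹ z)) = z
    rw [hat _ (hL.stab0 _ hT' z hz), hTT]

theorem Lv.ad_mul {r : U} {n : ℕ} {Q : Place E (NX E K0 r (2 ^ n))} (hL : Lv E K0 r n Q)
    {Q' : Place E (NX E K0 r (2 ^ (n + 1)))} {T T' a a' : U ≃+* U} (hT : Au E K0 T)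
    (hTi : Au E K0 T⁻¹) (hT' : Au E K0 T') (h : Ad E K0 r n Q' T a) (h' : Ad E K0 r n Q' T' a') :
    Ad E K0 r n Q' (T * T') (T * a' * T⁻¹ * a) := by
  obtain ⟨h1, h2, h3⟩ := hL.ad_conj hT hTi hTi.presE h'.au h'.ar h'.tr
  refine ⟨h1.mul h.au, ?_, fun z hz => ?_, ?_⟩
  · show (T * a' * T⁻¹) (a r) = r
    rw [h.ar, h2]
  · show (T * a' * T⁻¹) (a z) = z
    rw [h.tr z hz, h3 z hz]
  · have e : (T * a' * T⁻¹ * a)⁻¹ * (T * T') = (a⁻¹ * T) * (a'⁻¹ * T') := by group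
    rw [e]
    exact moves_comp (hL.stab1 _ (h'.au.inv.au.mul hT')) h'.mv h.mv

/-- the action on the roots -/
theorem Lv.au_u [CharZero U] {r : U} {n : ℕ} {Q : Place E (NX E K0 r (2 ^ n))}
    (hL : Lv E K0 r n Q)
    {x : K0} {R : Finset E} {ww u : E → U} (D : RD E K0 r x n R ww u) {T : U ≃+* U}
    (hT : Au E K0 T) {β β' : E} (hβ : β ∈ R) (hβ' : β' ∈ R)
    (hTβ : T (algebraMap E U β) = algebraMap E U β') : RX E K0 r (2 ^ n) (T (u β) * u β') := by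
  obtain ⟨m, hm, hm0, h1⟩ := D.hum β hβ
  have h2 : T (ww β) ^ 2 = ww β' ^ 2 := by
    rw [← map_pow, D.hww β hβ, map_sub, hT.fixK, hTβ, D.hww β' hβ']
  have h3 : T (ww β) * ww β' ∈ MM E K0 r := by
    have h4 : ww β' ^ 2 ∈ MM E K0 r := by
      have := D.sq (S := {β'}) (Finset.singleton_subset_iff.2 hβ')
      rwa [Finset.prod_singleton] at this
    rcases sq_eq_sq_iff_eq_or_eq_neg.1 h2 with h5 | h5
    · rw [h5, ← pow_two]; exact h4
    · rw [h5, neg_mul, ← pow_two]; exact neg_mem h4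
  have h6 : (T (u β)) ^ 2 ^ n * ∏ γ ∈ ({β'} : Finset E), ww γ ∈ MM E K0 r := by
    rw [Finset.prod_singleton, ← map_pow, h1, map_mul]
    have e : T (ww β) * T m * ww β' = T (ww β) * ww β' * T m := by ring
    rw [e]
    exact mul_mem h3 (hL.au_MM hT m hm)
  have h7 := D.rest (hL.au_RX hT (D.hu β hβ)) (Finset.singleton_subset_iff.2 hβ') h6
  rwa [Finset.prod_singleton] at h7

/-- conjugation of signs -/
theorem Lv.sign_conj [CharZero U] {r : U} {n : ℕ} {Q : Place E (NX E K0 r (2 ^ n))}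
    (hL : Lv E K0 r n Q)
    {x : K0} {R : Finset E} {ww u : E → U} (D : RD E K0 r x n R ww u) {T a : U ≃+* U}
    (hT : Au E K0 T) (hT' : Au E K0 T⁻¹) {β β' : E} (hβ : β ∈ R) (hβ' : β' ∈ R)
    (hTβ : T (algebraMap E U β) = algebraMap E U β') (hat : ∀ z ∈ NX E K0 r (2 ^ n), a z = z)
    {s : ℤˣ} (hs : a (u β) = ((s : ℤ) : U) * u β) :
    (T * a * T⁻¹) (u β') = ((s : ℤ) : U) * u β' := by
  obtain ⟨v, hv⟩ : ∃ v, v = T (u β) * u β' := ⟨_, rfl⟩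
  have h1 : RX E K0 r (2 ^ n) v := by rw [hv]; exact hL.au_u D hT hβ hβ' hTβ
  have hu0 : u β ≠ 0 := (D.hu β hβ).1
  have hu0' : u β' ≠ 0 := (D.hu β' hβ').1
  have hTT : ∀ z, T (T⁻¹ z) = z := fun z => T.apply_symm_apply z
  have hTT' : ∀ z, T⁻¹ (T z) = z := fun z => T.symm_apply_apply z
  have h2 : T⁻¹ (u β') = T⁻¹ v * (u β)⁻¹ := by
    rw [hv, map_mul, hTT']
    field_simp
  have h3 : a (T⁻¹ v) = T⁻¹ v := hat _ (hL.stab0 _ hT' v h1.mem)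
  have hss : ((s : ℤ) : U)⁻¹ = ((s : ℤ) : U) := by
    rcases Int.units_eq_one_or s with rfl | rfl
    · simp
    · simp
  show T (a (T⁻¹ (u β'))) = _
  rw [h2, map_mul, h3, map_inv₀, hs, mul_inv, hss, map_mul, map_mul, map_intCast, hTT, map_inv₀, hv]
  have h4 : T (u β) ≠ 0 := (map_ne_zero_iff T T.injective).2 hu0
  field_simp

end

end Pool.Agent.TOW
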