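import Pool.Agent.Helper45.TW.SAc

/-!
# Project TW, block SA: the character of the group of classes given by signs
-/

set_option autoImplicit false

namespace Pool.Agent.TOW

open VC IntermediateField NumberField IsDedekindDomain Pool.Agent.SC Pool.Agent.L Pool.Agent.M
open Pool.Agent.HG (Pr nm IsOdd)

theorem prod_symm {ι M : Type} [DecidableEq ι] [CommMonoid M] (S S' : Finset ι) (f : ι → M) :
    (∏ i ∈ S, f i) * ∏ i ∈ S', f i = (∏ i ∈ symmDiff S S', f i) * (∏ i ∈ S ∩ S', f i) ^ 2 := by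
  have h1 : ∏ i ∈ S, f i = (∏ i ∈ S \ S', f i) * ∏ i ∈ S ∩ S', f i := by
    rw [← Finset.prod_union (Finset.disjoint_sdiff_inter S S'), Finset.sdiff_union_inter]
  have h2 : ∏ i ∈ S', f i = (∏ i ∈ S' \ S, f i) * ∏ i ∈ S ∩ S', f i := by
    rw [Finset.inter_comm, ← Finset.prod_union (Finset.disjoint_sdiff_inter S' S),
      Finset.sdiff_union_inter]
  have h3 : ∏ i ∈ symmDiff S S', f i = (∏ i ∈ S \ S', f i) * ∏ i ∈ S' \ S, f i := by
    rw [← Finset.prod_union, symmDiff_def]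
    · rfl
    · exact disjoint_sdiff_sdiff
  rw [h1, h2, h3, pow_two]
  exact mul_mul_mul_comm _ _ _ _

theorem units_sq (s : ℤˣ) : s ^ 2 = 1 := by
  rcases Int.units_eq_one_or s with rfl | rfl <;> rfl

section

variable {E K0 U : Type} [Field E] [Field K0] [Field U] [Algebra E U] [Algebra K0 U]
  {r : U} {x : K0} {n : ℕ} {R : Finset E} {ww u : E → U}

theorem RD.symm (D : RD E K0 r x n R ww u) [DecidableEq E] {z z' : U} {S S' : Finset E}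
    (hS : S ⊆ R)
    (h : z * ∏ β ∈ S, ww β ∈ MM E K0 r) (h' : z' * ∏ β ∈ S', ww β ∈ MM E K0 r) :
    (z * z') * ∏ β ∈ symmDiff S S', ww β ∈ MM E K0 r := by
  have h1 := mul_mem h h'
  have h2 : (z * ∏ β ∈ S, ww β) * (z' * ∏ β ∈ S', ww β) =
      ((z * z') * ∏ β ∈ symmDiff S S', ww β) * (∏ β ∈ S ∩ S', ww β) ^ 2 := by
    rw [mul_mul_mul_comm, prod_symm]
    ring
  have hSS : S ∩ S' ⊆ R := Finset.inter_subset_left.trans hS
  have h3 := D.sq hSS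
  have h4 : (∏ β ∈ S ∩ S', ww β) ^ 2 ≠ 0 :=
    pow_ne_zero 2 (Finset.prod_ne_zero_iff.2 fun β hβ => D.ww_ne (hSS hβ))
  rw [h2] at h1
  have h5 := mul_mem h1 (inv_mem h3)
  rwa [mul_inv_cancel_right₀ h4] at h5

theorem RD.well (D : RD E K0 r x n R ww u) {t : E → ℤˣ} (ht : ∏ β ∈ R, t β = 1) {w : U}
    (hw : RX E K0 r (2 ^ (n + 1)) w) {S S' : Finset E} (hS : S ⊆ R) (hS' : S' ⊆ R)
    (h : w ^ 2 ^ n * ∏ β ∈ S, ww β ∈ MM E K0 r) (h' : w ^ 2 ^ n * ∏ β ∈ S', ww β ∈ MM E K0 r) :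
    ∏ β ∈ S, t β = ∏ β ∈ S', t β := by
  classical
  have h1 := D.symm hS h h'
  have h2 : w ^ 2 ^ n * w ^ 2 ^ n ∈ MM E K0 r := by
    rw [← pow_two, ← pow_mul, ← pow_succ]; exact hw.2
  have h3 : w ^ 2 ^ n * w ^ 2 ^ n ≠ 0 := mul_ne_zero (pow_ne_zero _ hw.1) (pow_ne_zero _ hw.1)
  have h4 : ∏ β ∈ symmDiff S S', ww β ∈ MM E K0 r := by
    have h5 := mul_mem (inv_mem h2) h1
    rwa [inv_mul_cancel_left₀ h3] at h5
  have h6 : symmDiff S S' ⊆ R := by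
    intro β hβ
    rcases Finset.mem_symmDiff.1 hβ with h7 | h7
    · exact hS h7.1
    · exact hS' h7.1
  have h8 : ∏ β ∈ symmDiff S S', t β = 1 := by
    rcases (D.ind _ h6).1 h4 with h9 | h9
    · rw [h9, Finset.prod_empty]
    · rw [h9, ht]
  have h9 := prod_symm S S' t
  rw [h8, units_sq, one_mul] at h9
  have h10 : ∏ β ∈ S, t β = (∏ β ∈ S', t β)⁻¹ := eq_inv_of_mul_eq_one_left h9
  rw [h10, Int.units_inv_eq_self]

/-- an automorphism with given signs -/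
theorem RD.exists_aut (D : RD E K0 r x n R ww u)
    (hKD : ∀ χ : U → E, (∀ w w' : U, RX E K0 r (2 ^ (n + 1)) w → RX E K0 r (2 ^ (n + 1)) w' →
        χ (w * w') = χ w * χ w') →
      (∀ w ∈ MM E K0 r, w ≠ 0 → χ w = 1) →
      (∀ w : U, RX E K0 r (2 ^ (n + 1)) w → χ w ^ 2 ^ (n + 1) = 1) →
      ∃ T : U ≃+* U, AuE E K0 T ∧ T r = r ∧
        ∀ w : U, RX E K0 r (2 ^ (n + 1)) w → T w = algebraMap E U (χ w) * w)
    {t : E → ℤˣ} (ht : ∏ β ∈ R, t β = 1) :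
    ∃ b : U ≃+* U, AuE E K0 b ∧ b r = r ∧ (∀ z ∈ NX E K0 r (2 ^ n), b z = z) ∧
      ∀ β ∈ R, b (u β) = ((t β : ℤ) : U) * u β := by
  classical
  have hS : ∀ w : U, ∃ S : Finset E, RX E K0 r (2 ^ (n + 1)) w → S ⊆ R ∧
      w ^ 2 ^ n * ∏ β ∈ S, ww β ∈ MM E K0 r := by
    intro w
    by_cases hw : RX E K0 r (2 ^ (n + 1)) w
    · obtain ⟨S, h1, h2⟩ := D.dec w hw
      exact ⟨S, fun _ => ⟨h1, h2⟩⟩
    · exact ⟨∅, fun h => absurd h hw⟩
  choose S hS using hS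
  let χ : U → E := fun w => (((∏ β ∈ S w, t β : ℤˣ) : ℤ) : E)
  have hχ : ∀ (w : U), RX E K0 r (2 ^ (n + 1)) w → ∀ S' : Finset E, S' ⊆ R →
      w ^ 2 ^ n * ∏ β ∈ S', ww β ∈ MM E K0 r → χ w = (((∏ β ∈ S', t β : ℤˣ) : ℤ) : E) := by
    intro w hw S' hS' h1
    show (((∏ β ∈ S w, t β : ℤˣ) : ℤ) : E) = _
    rw [D.well ht hw (hS w hw).1 hS' (hS w hw).2 h1]
  have hχM : ∀ w, w ^ 2 ^ n ∈ MM E K0 r → w ≠ 0 → χ w = 1 := by
    intro w hw hw0
    have h1 : RX E K0 r (2 ^ (n + 1)) w := RX.succ ⟨hw0, hw⟩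
    rw [hχ w h1 ∅ (Finset.empty_subset _) (by rw [Finset.prod_empty, mul_one]; exact hw)]
    simp
  have hχmul : ∀ w w' : U, RX E K0 r (2 ^ (n + 1)) w → RX E K0 r (2 ^ (n + 1)) w' →
      χ (w * w') = χ w * χ w' := by
    intro w w' hw hw'
    obtain ⟨h1, h2⟩ := hS w hw
    obtain ⟨h3, h4⟩ := hS w' hw'
    have h5 := D.symm h1 h2 h4
    rw [← mul_pow] at h5
    have h6 : symmDiff (S w) (S w') ⊆ R := by
      intro β hβ
      rcases Finset.mem_symmDiff.1 hβ with h7 | h7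
      · exact h1 h7.1
      · exact h3 h7.1
    rw [hχ _ (hw.mul hw') _ h6 h5]
    have h9 := prod_symm (S w) (S w') t
    rw [units_sq, mul_one] at h9
    rw [← h9]
    show _ = (((∏ β ∈ S w, t β : ℤˣ) : ℤ) : E) * (((∏ β ∈ S w', t β : ℤˣ) : ℤ) : E)
    push_cast
    ring
  have hχpow : ∀ w : U, RX E K0 r (2 ^ (n + 1)) w → χ w ^ 2 ^ (n + 1) = 1 := by
    intro w hw
    show (((∏ β ∈ S w, t β : ℤˣ) : ℤ) : E) ^ 2 ^ (n + 1) = 1
    have h1 : (∏ β ∈ S w, t β : ℤˣ) ^ 2 ^ (n + 1) = 1 := by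
      rw [pow_succ', pow_mul, units_sq, one_pow]
    have h2 := congrArg (fun s : ℤˣ => ((s : ℤ) : E)) h1
    simpa using h2
  obtain ⟨b, hb, hbr, hbw⟩ := hKD χ hχmul (fun w hw hw0 => hχM w (pow_mem hw _) hw0) hχpow
  refine ⟨b, hb, hbr, ?_, fun β hβ => ?_⟩
  · refine eq_on_NX (T' := 1) (fun z hz => hb.onMM hbr z hz) fun w hw => ?_
    rw [hbw w hw.succ, hχM w hw.2 hw.1, map_one, one_mul]
    rfl
  · obtain ⟨m, hm, hm0, h1⟩ := D.hum β hβ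
    have h2 : χ (u β) = (((∏ γ ∈ ({β} : Finset E), t γ : ℤˣ) : ℤ) : E) := by
      refine hχ _ (D.hu β hβ) _ (Finset.singleton_subset_iff.2 hβ) ?_
      rw [Finset.prod_singleton, h1]
      have e : ww β * m * ww β = ww β ^ 2 * m := by ring
      rw [e, D.hww β hβ]
      exact mul_mem (sub_mem (L0_le_MM (subset_adjoin _ _ ⟨x, rfl⟩))
        ((MM E K0 r).algebraMap_mem β)) hm
    rw [hbw _ (D.hu β hβ), h2, Finset.prod_singleton, map_intCast]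

end

end Pool.Agent.TOW
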