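import Pool.Agent.Helper45.TW.SAe
import Pool.Agent.SC.PlaceExt

/-!
# Project TW, block SA: continuity of the signs; the coboundary
-/

set_option autoImplicit false

namespace Pool.Agent.TOW

open VC IntermediateField NumberField IsDedekindDomain Pool.Agent.SC Pool.Agent.L Pool.Agent.M
open Pool.Agent.HG (Pr nm IsOdd)

section act

variable {k K0 E U : Type} [Field k] [Field K0] [Field E] [Field U] [Algebra k K0]
    [Algebra k E] [Algebra E U] [Algebra K0 U] {r : U} {n : ℕ} {Q : Place E (NX E K0 r (2 ^ n))}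
    {x : K0} {R : Finset E} {ww u : E → U}
    {c : k} {Φ : (E ≃ₐ[k] E) →* (U ≃+* U)} {Q' : Place E (NX E K0 r (2 ^ (n + 1)))}

/-- the signs are locally constant -/
theorem Sg.cont [CharZero U] [CharZero E] [IsAlgClosed E] {a s} (S : Sg E K0 r n Q' Φ R u a s)
    (D : RD E K0 r x n R ww u) (hΦ : Act (K0 := K0) r c Φ) (hC : IsCover (MM E K0 r))
    (hF : IsFunctionField E (NX E K0 r (2 ^ (n + 1)))) (halg : Algebra.IsAlgebraic k E)
    {β : E} (hβ : β ∈ R) :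
    ∃ L' : IntermediateField k E, FiniteDimensional k L' ∧
      ∀ g : E ≃ₐ[k] E, (∀ z ∈ L', g z = z) → s g β = 1 := by
  obtain ⟨W, hW⟩ := _root_.SC.exists_place_over (K := E) (M := NX E K0 r (2 ^ (n + 1))) (N := U) Q'
  obtain ⟨m, hm, hval⟩ := hC.unr W.ring W.algebraMap_mem (u β)
  have hu0 : u β ≠ 0 := (D.hu β hβ).1
  have hm0 : m ≠ 0 := by
    rintro rfl
    rw [map_zero] at hval
    exact hu0 ((map_eq_zero _).1 hval)
  obtain ⟨v, hv⟩ : ∃ v : NX E K0 r (2 ^ (n + 1)), (v : U) = u β / m :=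
    ⟨⟨u β / m, div_mem (D.hu β hβ).mem (MM_le_NX hm)⟩, rfl⟩
  have hm1 : W.ring.valuation m ≠ 0 := (Valuation.ne_zero_iff _).2 hm0
  have hv1 : W.ring.valuation (v : U) = 1 := by rw [hv, map_div₀, hval, div_self hm1]
  have hvQ : v ∈ Q'.ring := by
    rw [← hW, ← ValuationSubring.valuation_le_one_iff]
    exact hv1.le
  obtain ⟨ρ, hρ⟩ := FF.exists_residue hF Q' hvQ
  have hcg : Cg Q'.ring v ρ := Q'.ring.mem_nonunits_iff.1 hρ
  have hρ0 : ρ ≠ 0 := by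
    rintro rfl
    unfold Cg at hcg
    rw [map_zero, sub_zero, ← Q'.ring.mem_nonunits_iff, Q'.ring.mem_nonunits_iff_or] at hcg
    rcases hcg with h1 | h1
    · have h2 : (v : U) = 0 := by rw [h1]; rfl
      rw [h2, map_zero] at hv1
      exact zero_ne_one hv1
    · apply h1
      rw [← hW, ← ValuationSubring.valuation_le_one_iff, map_inv₀, map_inv₀]
      have h3 : W.ring.valuation (algebraMap (NX E K0 r (2 ^ (n + 1))) U v) = 1 := hv1
      rw [h3, inv_one]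
  obtain ⟨L1, hL1, h1⟩ := hΦ.cont (u β)
  obtain ⟨L2, hL2, h2⟩ := hΦ.cont m
  have hL3 : FiniteDimensional k (IntermediateField.adjoin k ({ρ} : Set E)) :=
    IntermediateField.adjoin.finiteDimensional (halg.isAlgebraic ρ).isIntegral
  refine ⟨L1 ⊔ L2 ⊔ IntermediateField.adjoin k {ρ}, inferInstance, fun g hg => ?_⟩
  have g1 : Φ g (u β) = u β := h1 g fun z hz => hg z (le_sup_left (a := L1 ⊔ L2)
    (le_sup_left (a := L1) hz))
  have g2 : Φ g m = m := h2 g fun z hz => hg z (le_sup_left (a := L1 ⊔ L2)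
    (le_sup_right (a := L1) hz))
  have g3 : g ρ = ρ := hg ρ (le_sup_right (a := L1 ⊔ L2) (mem_adjoin_simple_self k ρ))
  have hA := S.ad g
  have hai : AuE E K0 (a g)⁻¹ := hA.au.inv
  have ha1 : (a g)⁻¹ m = m := inv_fix (hA.tr m (MM_le_NX hm))
  have hss : ((s g β : ℤ) : U) * ((s g β : ℤ) : U) = 1 := by
    rw [← units_ring, ← pow_two, units_sq]
    simp
  have ha2 : (a g)⁻¹ (u β) = ((s g β : ℤ) : U) * u β := by
    have h3 : (a g)⁻¹ (a g (u β)) = u β := (a g).symm_apply_apply _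
    rw [S.sg g β hβ, map_mul, map_intCast] at h3
    calc (a g)⁻¹ (u β) = ((s g β : ℤ) : U) * (((s g β : ℤ) : U) * (a g)⁻¹ (u β)) := by
          rw [← mul_assoc, hss, one_mul]
      _ = _ := by rw [h3]
  have hTv : ((a g)⁻¹ * Φ g) (v : U) = ((s g β : ℤ) : U) * (v : U) := by
    show (a g)⁻¹ (Φ g (v : U)) = _
    rw [hv, map_div₀, map_div₀, g1, g2, ha1, ha2, mul_div_assoc]
  have hTv' : ((a g)⁻¹ * Φ g) (v : U) ∈ NX E K0 r (2 ^ (n + 1)) := by
    rw [hTv]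
    exact mul_mem (intCast_mem _ _) v.2
  have hconst : ∀ e, ((a g)⁻¹ * Φ g) (algebraMap E U e) = algebraMap E U (g.toRingEquiv e) := by
    intro e
    show (a g)⁻¹ (Φ g _) = _
    rw [hΦ.const, hai.fixE]
    rfl
  have h4 := (Moves.cg (σ := g.toRingEquiv) hconst hA.mv v.2 hTv' (c := ρ)).1 hcg
  have e1 : (⟨((a g)⁻¹ * Φ g) (v : U), hTv'⟩ : NX E K0 r (2 ^ (n + 1))) =
      algebraMap E _ (((s g β : ℤ)) : E) * v := by
    refine Subtype.ext (hTv.trans ?_)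
    show _ = algebraMap E U (((s g β : ℤ)) : E) * (v : U)
    rw [map_intCast]
  rw [e1] at h4
  have h5 : Cg Q'.ring (algebraMap E _ (((s g β : ℤ)) : E) * v) (((s g β : ℤ) : E) * ρ) :=
    Cg.mul Q'.algebraMap_mem (cg_const _) hcg
  have h6 : g.toRingEquiv ρ = ((s g β : ℤ) : E) * ρ := Cg.unique Q'.algebraMap_mem h4 h5
  have h7 : g.toRingEquiv ρ = ρ := g3
  rw [h7] at h6
  have h8 : ((s g β : ℤ) : E) = 1 := mul_right_cancel₀ hρ0 (by rw [← h6, one_mul])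
  have h9 : (s g β : ℤ) = 1 := by exact_mod_cast h8
  exact Units.ext h9

/-- the coboundary -/
theorem Sg.exists_fix [CharZero U] {a s} (S : Sg E K0 r n Q' Φ R u a s) (hL : Lv E K0 r n Q)
    (D : RD E K0 r x n R ww u) (hΦ : Act (K0 := K0) r c Φ) (hQ' : OverPl Q Q')
    (hR : ∀ (g : E ≃ₐ[k] E), ∀ β ∈ R, g β ∈ R) (hodd : Odd R.card)
    (htr : ∀ β ∈ R, ∀ β' ∈ R, ∃ g : E ≃ₐ[k] E, g β = β')
    (hKD : ∀ χ : U → E, (∀ w w' : U, RX E K0 r (2 ^ (n + 1)) w → RX E K0 r (2 ^ (n + 1)) w' →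
        χ (w * w') = χ w * χ w') →
      (∀ w ∈ MM E K0 r, w ≠ 0 → χ w = 1) →
      (∀ w : U, RX E K0 r (2 ^ (n + 1)) w → χ w ^ 2 ^ (n + 1) = 1) →
      ∃ T : U ≃+* U, AuE E K0 T ∧ T r = r ∧
        ∀ w : U, RX E K0 r (2 ^ (n + 1)) w → T w = algebraMap E U (χ w) * w)
    (hone : ∀ β ∈ R, ∀ g : E ≃ₐ[k] E, g β = β → s g β = 1) :
    ∃ P : Place E (NX E K0 r (2 ^ (n + 1))), OverPl Q P ∧
      ∀ g : E ≃ₐ[k] E, Moves (Φ g) _ P P := by
  classical
  have hne : R.Nonempty := by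
    rw [← Finset.card_pos]
    exact hodd.pos
  obtain ⟨β₀, hβ₀⟩ := hne
  have hG : ∀ β, ∃ g : E ≃ₐ[k] E, β ∈ R → g β₀ = β := by
    intro β
    by_cases hβ : β ∈ R
    · obtain ⟨g, hg⟩ := htr β₀ hβ₀ β hβ
      exact ⟨g, fun _ => hg⟩
    · exact ⟨1, fun h => absurd h hβ⟩
  choose G hG using hG
  have hmul := fun g g' {β : E} hβ => S.mul hL D hΦ hR g g' (β := β) hβ
  obtain ⟨t, ht⟩ : ∃ t : E → ℤˣ, t = fun β => s (G β) β := ⟨_, rfl⟩
  have hcob : ∀ (g : E ≃ₐ[k] E), ∀ β ∈ R, s g β = t β * t (g⁻¹ β) := by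
    intro g β hβ
    have hβ' : g⁻¹ β ∈ R := hR g⁻¹ β hβ
    have hgg : g (g⁻¹ β) = β := g.apply_symm_apply β
    obtain ⟨h, hh⟩ : ∃ h, h = g * G (g⁻¹ β) := ⟨_, rfl⟩
    have h1 : s h β = s g β * t (g⁻¹ β) := by
      rw [hh, hmul g _ hβ, ht]
    have hh0 : h β₀ = β := by
      rw [hh]
      show g (G (g⁻¹ β) β₀) = β
      rw [hG _ hβ', hgg]
    have h2 : h = G β * ((G β)⁻¹ * h) := by group
    have hGi : (G β)⁻¹ β = β₀ := by
      have h3 := hG β hβ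
      show (G β).symm β = β₀
      rw [AlgEquiv.symm_apply_eq, h3]
    have h3 : ((G β)⁻¹ * h) β₀ = β₀ := by
      show (G β)⁻¹ (h β₀) = β₀
      rw [hh0, hGi]
    have h4 : s h β = t β := by
      rw [h2, hmul _ _ hβ, hGi, hone β₀ hβ₀ _ h3, mul_one, ht]
    rw [h4] at h1
    rw [h1, mul_assoc, ← pow_two, units_sq, mul_one]
  -- make the product trivial
  obtain ⟨ε, hε⟩ : ∃ ε : ℤˣ, ε = ∏ β ∈ R, t β := ⟨_, rfl⟩
  obtain ⟨t', ht'⟩ : ∃ t' : E → ℤˣ, t' = fun β => ε * t β := ⟨_, rfl⟩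
  have hprod : ∏ β ∈ R, t' β = 1 := by
    rw [ht', Finset.prod_mul_distrib, ← hε, Finset.prod_const, ← pow_succ]
    obtain ⟨m, hm⟩ := hodd
    rw [hm]
    have e : 2 * m + 1 + 1 = 2 * (m + 1) := by ring
    rw [e, pow_mul, units_sq, one_pow]
  have hcob' : ∀ (g : E ≃ₐ[k] E), ∀ β ∈ R, s g β = t' β * t' (g⁻¹ β) := by
    intro g β hβ
    rw [hcob g β hβ, ht']
    show _ = (ε * t β) * (ε * t (g⁻¹ β))
    rw [mul_mul_mul_comm, ← pow_two, units_sq, one_mul]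
  obtain ⟨b, hb, hbr, hbt, hbu⟩ := D.exists_aut hKD hprod
  obtain ⟨P, hbP⟩ := exists_im (hL.stab1 b hb.au) (hL.stab1 _ hb.inv.au)
    hb.inv.au.presE Q'
  have hbQ : Moves b _ Q Q := by
    refine moves_congr (T := 1) (fun z hz => (hbt z hz).symm) (moves_one Q)
  have hQP : OverPl Q P :=
    over_im NX_le_succ (hL.stab0 b hb.au) (hL.stab0 _ hb.inv.au) hQ' hbQ hbP
  refine ⟨P, hQP, fun g => ?_⟩
  have hA := S.ad g
  have hT := act_au hΦ g
  have hTi := act_au_inv hΦ g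
  have hss : ∀ s : ℤˣ, ((s : ℤ) : U) * ((s : ℤ) : U) = 1 := by
    intro s
    rw [← units_ring, ← pow_two, units_sq]
    simp
  have hbi : ∀ β ∈ R, b⁻¹ (u β) = ((t' β : ℤ) : U) * u β := by
    intro β hβ
    have h3 : b⁻¹ (b (u β)) = u β := b.symm_apply_apply _
    rw [hbu β hβ, map_mul, map_intCast] at h3
    calc b⁻¹ (u β) = ((t' β : ℤ) : U) * (((t' β : ℤ) : U) * b⁻¹ (u β)) := by
          rw [← mul_assoc, hss, one_mul]
      _ = _ := by rw [h3]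
  have hbit : ∀ z ∈ NX E K0 r (2 ^ n), b⁻¹ z = z := fun z hz => inv_fix (hbt z hz)
  -- the correction is trivial
  have hX : ∀ z ∈ NX E K0 r (2 ^ (n + 1)),
      (b * ((Φ g)⁻¹ * (a g * b⁻¹) * (Φ g)⁻¹⁻¹)) z = (1 : U ≃+* U) z := by
    have hat : ∀ z ∈ NX E K0 r (2 ^ n), (a g * b⁻¹) z = z := by
      intro z hz
      show a g (b⁻¹ z) = z
      rw [hbit z hz, hA.tr z hz]
    refine D.triv (fun z hz => ?_) fun β hβ => ?_
    · show b ((Φ g)⁻¹ ((a g * b⁻¹) ((Φ g)⁻¹⁻¹ z))) = z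
      rw [inv_inv, hat _ (hL.stab0 _ hT z hz)]
      have h1 : (Φ g)⁻¹ (Φ g z) = z := (Φ g).symm_apply_apply z
      rw [h1, hbt z hz]
    · have hgβ : g β ∈ R := hR g β hβ
      have h1 : (a g * b⁻¹) (u (g β)) =
          (((s g (g β) * t' (g β) : ℤˣ) : ℤ) : U) * u (g β) := by
        show a g (b⁻¹ (u (g β))) = _
        rw [hbi _ hgβ, map_mul, map_intCast, S.sg g _ hgβ, ← mul_assoc, ← units_ring, mul_comm (t' _)]
      have hTβ : (Φ g)⁻¹ (algebraMap E U (g β)) = algebraMap E U β := by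
        rw [← hΦ.const g β]
        exact (Φ g).symm_apply_apply _
      have h2 := hL.sign_conj D hTi (by rw [inv_inv]; exact hT) hgβ hβ hTβ hat h1
      have hgi : g⁻¹ (g β) = β := g.symm_apply_apply β
      have h3 : s g (g β) * t' (g β) = t' β := by
        rw [hcob' g _ hgβ, hgi, mul_comm (t' (g β)), mul_assoc, ← pow_two, units_sq, mul_one]
      rw [h3] at h2
      show b (((Φ g)⁻¹ * (a g * b⁻¹) * (Φ g)⁻¹⁻¹) (u β)) = u β
      rw [h2, map_mul, map_intCast, hbu β hβ, ← mul_assoc, hss, one_mul]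
  -- conclusion
  have hmv : Moves (b * (((a g)⁻¹ * Φ g) * b⁻¹)) _ P P := by
    have h1 : Moves b⁻¹ _ P Q' := moves_inv (hL.stab1 _ hb.inv.au) hbP
    have h2 : Moves (((a g)⁻¹ * Φ g) * b⁻¹) _ P Q' :=
      moves_comp (hL.stab1 _ hb.inv.au) h1 hA.mv
    exact moves_comp (hL.stab1 _ ((hA.au.inv.au.mul hT).mul hb.inv.au)) h2 hbP
  refine moves_congr (fun z hz => ?_) hmv
  have h1 := hX z hz
  have e : Φ g = (b * (((a g)⁻¹ * Φ g) * b⁻¹)) *
      (b * ((Φ g)⁻¹ * (a g * b⁻¹) * (Φ g)⁻¹⁻¹)) := by group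
  have h2 : Φ g z = (b * (((a g)⁻¹ * Φ g) * b⁻¹))
      ((b * ((Φ g)⁻¹ * (a g * b⁻¹) * (Φ g)⁻¹⁻¹)) z) := by
    conv_lhs => rw [e]
    rfl
  rw [h2, h1]
  rfl

end act

end Pool.Agent.TOW
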