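import Pool.Agent.Helper45.TW.SAf

/-!
# Project TW: the coboundary for several orbits of roots
-/

set_option autoImplicit false

namespace Pool.Agent.TOW

open VC IntermediateField NumberField IsDedekindDomain Pool.Agent.SC Pool.Agent.L Pool.Agent.M
open Pool.Agent.HG (Pr nm IsOdd)

/-- A cocycle of signs which is trivial on the stabilisers is a coboundary, of product one if the
number of points is odd. -/
theorem exists_cob {G E : Type} [Group G] [MulAction G E] [DecidableEq E] {R : Finset E}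
    (hR : ∀ (g : G), ∀ β ∈ R, g • β ∈ R) (hodd : Odd R.card) {s : G → E → ℤˣ}
    (hmul : ∀ g g' : G, ∀ β ∈ R, s (g * g') β = s g β * s g' (g⁻¹ • β))
    (hone : ∀ β ∈ R, ∀ g : G, g • β = β → s g β = 1) :
    ∃ t : E → ℤˣ, ∏ β ∈ R, t β = 1 ∧ ∀ (g : G), ∀ β ∈ R, s g β = t β * t (g⁻¹ • β) := by
  classical
  -- representatives of the orbits
  obtain ⟨ρ, hρ⟩ : ∃ ρ : E → E, ρ = fun β =>
    (Quotient.mk (MulAction.orbitRel G E) β).out := ⟨_, rfl⟩
  have hρ1 : ∀ β, ∃ g : G, g • ρ β = β := by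
    intro β
    have h1 : (MulAction.orbitRel G E).r (ρ β) β := by
      rw [hρ]
      exact Quotient.exact (Quotient.out_eq _)
    have h2 : ρ β ∈ MulAction.orbit G β := h1
    obtain ⟨g, hg⟩ := h2
    refine ⟨g⁻¹, ?_⟩
    rw [← hg]
    exact inv_smul_smul g β
  have hρ2 : ∀ (g : G) β, ρ (g • β) = ρ β := by
    intro g β
    rw [hρ]
    show (Quotient.mk (MulAction.orbitRel G E) (g • β)).out =
      (Quotient.mk (MulAction.orbitRel G E) β).out
    have h1 : Quotient.mk (MulAction.orbitRel G E) (g • β) =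
        Quotient.mk (MulAction.orbitRel G E) β := Quotient.sound ⟨g, rfl⟩
    rw [h1]
  choose G' hG' using hρ1
  obtain ⟨t, ht⟩ : ∃ t : E → ℤˣ, t = fun β => s (G' β) β := ⟨_, rfl⟩
  have hρR : ∀ β ∈ R, ρ β ∈ R := by
    intro β hβ
    have h1 : ρ β = (G' β)⁻¹ • β := by
      rw [eq_inv_smul_iff, hG']
    rw [h1]
    exact hR _ _ hβ
  have hcob : ∀ (g : G), ∀ β ∈ R, s g β = t β * t (g⁻¹ • β) := by
    intro g β hβ
    have hβ' : g⁻¹ • β ∈ R := hR g⁻¹ β hβ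
    obtain ⟨h, hh⟩ : ∃ h, h = g * G' (g⁻¹ • β) := ⟨_, rfl⟩
    have h1 : s h β = s g β * t (g⁻¹ • β) := by
      rw [hh, hmul g _ β hβ, ht]
    have hh0 : h • ρ β = β := by
      rw [hh, mul_smul, ← hρ2 g⁻¹ β, hG', smul_inv_smul]
    have h2 : h = G' β * ((G' β)⁻¹ * h) := by group
    have hGi : (G' β)⁻¹ • β = ρ β := by
      rw [inv_smul_eq_iff, hG']
    have h3 : ((G' β)⁻¹ * h) • ρ β = ρ β := by
      rw [mul_smul, hh0, hGi]
    have h4 : s h β = t β := by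
      rw [h2, hmul _ _ β hβ, hGi, hone _ (hρR β hβ) _ h3, mul_one, ht]
    rw [h4] at h1
    have h5 : t (g⁻¹ • β) * t (g⁻¹ • β) = 1 := by
      rw [← pow_two]
      exact units_sq _
    rw [h1, mul_assoc, h5, mul_one]
  -- an odd orbit
  obtain ⟨γ, hγ, hγodd⟩ : ∃ γ ∈ R.image ρ, Odd (R.filter fun β => ρ β = γ).card := by
    by_contra hcon
    push Not at hcon
    have h1 := Finset.card_eq_sum_card_image ρ R
    have h2 : Even R.card := by
      rw [h1]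
      exact Finset.even_sum _ fun γ hγ => Nat.not_odd_iff_even.1 (hcon γ hγ)
    exact (Nat.not_even_iff_odd.2 hodd) h2
  obtain ⟨ε, hε⟩ : ∃ ε : ℤˣ, ε = ∏ β ∈ R, t β := ⟨_, rfl⟩
  refine ⟨fun β => (if ρ β = γ then ε else 1) * t β, ?_, fun g β hβ => ?_⟩
  · rw [Finset.prod_mul_distrib, ← hε, Finset.prod_ite, Finset.prod_const, Finset.prod_const_one,
      mul_one, ← pow_succ]
    obtain ⟨m, hm⟩ := hγodd
    rw [hm]
    have e : 2 * m + 1 + 1 = 2 * (m + 1) := by ring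
    rw [e, pow_mul, units_sq, one_pow]
  · rw [hcob g β hβ]
    show t β * t (g⁻¹ • β) = ((if ρ β = γ then ε else 1) * t β) *
      ((if ρ (g⁻¹ • β) = γ then ε else 1) * t (g⁻¹ • β))
    rw [hρ2, mul_mul_mul_comm]
    have h1 : (if ρ β = γ then ε else 1) * (if ρ β = γ then ε else 1) = 1 := by
      rw [← pow_two]
      exact units_sq _
    rw [h1, one_mul]

section act

variable {k K0 E U : Type} [Field k] [Field K0] [Field E] [Field U] [Algebra k K0]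
    [Algebra k E] [Algebra E U] [Algebra K0 U] {r : U} {n : ℕ} {Q : Place E (NX E K0 r (2 ^ n))}
    {x : K0} {R : Finset E} {ww u : E → U}
    {c : k} {Φ : (E ≃ₐ[k] E) →* (U ≃+* U)} {Q' : Place E (NX E K0 r (2 ^ (n + 1)))}

/-- the fixed place from the coboundary -/
theorem Sg.fix_of_cob [CharZero U] {a s} (S : Sg E K0 r n Q' Φ R u a s) (hL : Lv E K0 r n Q)
    (D : RD E K0 r x n R ww u) (hΦ : Act (K0 := K0) r c Φ) (hQ' : OverPl Q Q')
    (hR : ∀ (g : E ≃ₐ[k] E), ∀ β ∈ R, g β ∈ R)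
    (hKD : ∀ χ : U → E, (∀ w w' : U, RX E K0 r (2 ^ (n + 1)) w → RX E K0 r (2 ^ (n + 1)) w' →
        χ (w * w') = χ w * χ w') →
      (∀ w ∈ MM E K0 r, w ≠ 0 → χ w = 1) →
      (∀ w : U, RX E K0 r (2 ^ (n + 1)) w → χ w ^ 2 ^ (n + 1) = 1) →
      ∃ T : U ≃+* U, AuE E K0 T ∧ T r = r ∧
        ∀ w : U, RX E K0 r (2 ^ (n + 1)) w → T w = algebraMap E U (χ w) * w)
    {t' : E → ℤˣ} (hprod : ∏ β ∈ R, t' β = 1)
    (hcob' : ∀ (g : E ≃ₐ[k] E), ∀ β ∈ R, s g β = t' β * t' (g⁻¹ β)) :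
    ∃ P : Place E (NX E K0 r (2 ^ (n + 1))), OverPl Q P ∧
      ∀ g : E ≃ₐ[k] E, Moves (Φ g) _ P P := by
  classical
  obtain ⟨b, hb, hbr, hbt, hbu⟩ := D.exists_aut hKD hprod
  obtain ⟨P, hbP⟩ := exists_im (hL.stab1 b hb.au) (hL.stab1 _ hb.inv.au)
    hb.inv.au.presE Q'
  have hbQ : Moves b _ Q Q := by
    refine moves_congr (T := 1) (fun z hz => (hbt z hz).symm) (moves_one Q)
  have hQP : OverPl Q P :=
    over_im NX_le_succ (hL.stab0 b hb.au) (hL.stab0 _ hb.inv.au) hQ' hbQ hbP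
  refine ⟨P, hQP, fun g => ?_⟩
  have hA := S.ad g
  have hT := act_au hΦ g
  have hTi := act_au_inv hΦ g
  have hss : ∀ s : ℤˣ, ((s : ℤ) : U) * ((s : ℤ) : U) = 1 := by
    intro s
    rw [← units_ring, ← pow_two, units_sq]
    simp
  have hbi : ∀ β ∈ R, b⁻¹ (u β) = ((t' β : ℤ) : U) * u β := by
    intro β hβ
    have h3 : b⁻¹ (b (u β)) = u β := b.symm_apply_apply _
    rw [hbu β hβ, map_mul, map_intCast] at h3
    calc b⁻¹ (u β) = ((t' β : ℤ) : U) * (((t' β : ℤ) : U) * b⁻¹ (u β)) := by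
          rw [← mul_assoc, hss, one_mul]
      _ = _ := by rw [h3]
  have hbit : ∀ z ∈ NX E K0 r (2 ^ n), b⁻¹ z = z := fun z hz => inv_fix (hbt z hz)
  have hX : ∀ z ∈ NX E K0 r (2 ^ (n + 1)),
      (b * ((Φ g)⁻¹ * (a g * b⁻¹) * (Φ g)⁻¹⁻¹)) z = (1 : U ≃+* U) z := by
    have hat : ∀ z ∈ NX E K0 r (2 ^ n), (a g * b⁻¹) z = z := by
      intro z hz
      show a g (b⁻¹ z) = z
      rw [hbit z hz, hA.tr z hz]
    refine D.triv (fun z hz => ?_) fun β hβ => ?_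
    · show b ((Φ g)⁻¹ ((a g * b⁻¹) ((Φ g)⁻¹⁻¹ z))) = z
      rw [inv_inv, hat _ (hL.stab0 _ hT z hz)]
      have h1 : (Φ g)⁻¹ (Φ g z) = z := (Φ g).symm_apply_apply z
      rw [h1, hbt z hz]
    · have hgβ : g β ∈ R := hR g β hβ
      have h1 : (a g * b⁻¹) (u (g β)) =
          (((s g (g β) * t' (g β) : ℤˣ) : ℤ) : U) * u (g β) := by
        show a g (b⁻¹ (u (g β))) = _
        rw [hbi _ hgβ, map_mul, map_intCast, S.sg g _ hgβ, ← mul_assoc, ← units_ring,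
          mul_comm (t' _)]
      have hTβ : (Φ g)⁻¹ (algebraMap E U (g β)) = algebraMap E U β := by
        rw [← hΦ.const g β]
        exact (Φ g).symm_apply_apply _
      have h2 := hL.sign_conj D hTi (by rw [inv_inv]; exact hT) hgβ hβ hTβ hat h1
      have hgi : g⁻¹ (g β) = β := g.symm_apply_apply β
      have h3 : s g (g β) * t' (g β) = t' β := by
        rw [hcob' g _ hgβ, hgi, mul_comm (t' (g β)), mul_assoc, ← pow_two, units_sq, mul_one]
      rw [h3] at h2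
      show b (((Φ g)⁻¹ * (a g * b⁻¹) * (Φ g)⁻¹⁻¹) (u β)) = u β
      rw [h2, map_mul, map_intCast, hbu β hβ, ← mul_assoc, hss, one_mul]
  have hmv : Moves (b * (((a g)⁻¹ * Φ g) * b⁻¹)) _ P P := by
    have h1 : Moves b⁻¹ _ P Q' := moves_inv (hL.stab1 _ hb.inv.au) hbP
    have h2 : Moves (((a g)⁻¹ * Φ g) * b⁻¹) _ P Q' :=
      moves_comp (hL.stab1 _ hb.inv.au) h1 hA.mv
    exact moves_comp (hL.stab1 _ ((hA.au.inv.au.mul hT).mul hb.inv.au)) h2 hbP
  refine moves_congr (fun z hz => ?_) hmv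
  have h1 := hX z hz
  have e : Φ g = (b * (((a g)⁻¹ * Φ g) * b⁻¹)) *
      (b * ((Φ g)⁻¹ * (a g * b⁻¹) * (Φ g)⁻¹⁻¹)) := by group
  have h2 : Φ g z = (b * (((a g)⁻¹ * Φ g) * b⁻¹))
      ((b * ((Φ g)⁻¹ * (a g * b⁻¹) * (Φ g)⁻¹⁻¹)) z) := by
    conv_lhs => rw [e]
    rfl
  rw [h2, h1]
  rfl

end act

end Pool.Agent.TOW
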