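import Pool.Agent.Helper45.TW.YFin
import Pool.Agent.Helper45.TW.OVL
import Pool.Agent.Helper45.TW.SFin
import Pool.Agent.Helper45.TW.SKX2
import Pool.Agent.Helper45.TW.SINF
import Pool.Agent.Helper45.TW.SOI3
import Pool.Agent.Helper90.TW.C5
import Pool.Agent.Helper28.TW.TRY
import Pool.Agent.Helper97.TW.AllA
import Pool.Agent.Helper54.TW.KD
import Pool.Agent.Helper76.TW.GC

/-!
# Project TW: the final theorems (A') and (A''), without hypotheses
-/

set_option autoImplicit false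

namespace Pool.Agent.TOWS

open VC Polynomial NumberField Pool.Agent.SC Pool.Agent.L Pool.Agent.M Pool.Agent.Helper91.Sect
open Pool.Agent.TW (RatPl Rare Oth stmtLVL gC)

noncomputable section

theorem px1 : Pool.Agent.TOW.StmtPX1 := Pool.Agent.TOW.pX1 Pool.Agent.M.fT

/-- (A') -/
theorem fin_oneA (k : Type) [Field k] [NumberField k] (f : k[X]) (hsep : f.Separable)
    (hodd : Odd f.natDegree) (hdeg : 5 ≤ f.natDegree) (hnr : ∀ a : k, eval a f ≠ 0) :
    Rare (fun c : k => Oth f 2 c) := by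
  have h1 := fin_one gC px1 (one stmtLVL px1 Pool.Agent.TOW.kD kX2 iNF oI3) k f hsep hodd hdeg hnr
  rw [pow_one] at h1
  exact h1

/-- (A'') -/
theorem finYA (k K0 : Type) [Field k]
    [NumberField k] [Field K0] [Algebra k K0] (h : K0) (hg : GoodCurve k h)
    {P₀ : ValuationSubring K0} (hP : RatPl k P₀)
    (hodd : ∀ z : K0, P₀.valuation h ≠ P₀.valuation z ^ 2)
    (huniq : ∀ P : ValuationSubring K0, RatPl k P →
      (∀ z : K0, P.valuation h ≠ P.valuation z ^ 2) → P = P₀)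
    (S : Finset (ValuationSubring (Y0 k K0)))
    (hS : ∀ P ∈ S, (∀ z : Y0 k K0, IsAlgebraic k (z : AlgebraicClosure K0) → z ∈ P) ∧
      ∀ (hh : algebraMap K0 (AlgebraicClosure K0) h ∈ Y0 k K0) (z : Y0 k K0),
        P.valuation ⟨_, hh⟩ ≠ P.valuation z ^ 2) (h5 : 5 ≤ S.card) :
    ∃ F : k[X], F ≠ 0 ∧ Rare (fun c : k => BadY h P₀ F c) :=
  finY (oVL stmtLVL px1) c5 tRY k K0 h hg hP hodd huniq S hS h5

end

end Pool.Agent.TOWS
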