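import Pool.Agent.Helper97.TW.Agr
import Pool.Agent.Helper90.TW.OneRat2
import Pool.Agent.Helper45.TW.SAe

/-!
# Project TW, part (A''): any double cover with exactly one rational branch point

`Y2` is the maximal extension of exponent two of `L0 = E K0` in `U`.
-/

set_option autoImplicit false

namespace Pool.Agent.TOWS

open VC Polynomial IntermediateField NumberField IsDedekindDomain Pool.Agent.SC Pool.Agent.L
  Pool.Agent.M Pool.Agent.Helper91.Sect
open Pool.Agent.TOW (RX NX Au AuE StmtPX1)
open Pool.Agent.TW (OneRat RatPl OverK Rare StmtLVL)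

noncomputable section

/-- `w` is a square root of an element of `L0` -/
def RY (E K0 : Type) {U : Type} [Field E] [Field K0] [Field U] [Algebra E U] [Algebra K0 U]
    (w : U) : Prop := w ≠ 0 ∧ w ^ 2 ∈ L0 E K0 (U := U)

/-- the field generated by all these roots -/
def Y2 (E K0 : Type) {U : Type} [Field E] [Field K0] [Field U] [Algebra E U] [Algebra K0 U] :
    IntermediateField E U :=
  IntermediateField.adjoin E ((L0 E K0 (U := U) : Set U) ∪ {w | RY E K0 w})

/-- BLOCK OVL (helper45): over a finite extension `L` of `k`, almost all actions fix all places of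
`Y2` above the rational branch point. -/
def StmtOVL : Prop :=
  ∀ (k K0 E U : Type) [Field k] [NumberField k] [Field K0] [Field E] [Field U] [Algebra k K0]
    [Algebra k E] [Algebra E U] [Algebra K0 U] [Algebra k U] [IsScalarTower k E U]
    [IsScalarTower k K0 U] (h : K0) (r : U), Geo k K0 E U h r →
    ∀ b₀ : Place E (L0 E K0 (U := U)), OneRat (k := k) h r b₀ →
    (∀ T : U ≃+* U, Au E K0 T → ∀ z ∈ Y2 E K0 (U := U), T z ∈ Y2 E K0 (U := U)) ∧
    ∃ L : IntermediateField k E, FiniteDimensional k L ∧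
      Rare (fun c : k => ∃ Φ : (E ≃ₐ[k] E) →* (U ≃+* U), Act (K0 := K0) r c Φ ∧
        ∃ σ : E ≃ₐ[k] E, (∀ x ∈ L, σ x = x) ∧ ∃ Q : Place E (Y2 E K0 (U := U)),
          OverPl b₀ Q ∧ ¬ Moves (Φ σ) _ Q Q)

/-! ## The absolute form -/

section abs

variable (k K0 : Type) {K : Type} [Field k] [Field K0] [Field K] [Algebra k K] [Algebra K0 K]

/-- The field `kbar K0`, in the algebraic closure of `K`. -/
def YB (K : Type) [Field K] [Algebra k K] [Algebra K0 K] : Subfield (AlgebraicClosure K) :=
  Subfield.closure ({z | IsAlgebraic k z} ∪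
    Set.range fun x : K0 => algebraMap K (AlgebraicClosure K) (algebraMap K0 K x))

/-- The field `kbar K0 (y)`, in the algebraic closure of `K`. -/
def XB (y : K) : Subfield (AlgebraicClosure K) :=
  Subfield.closure ({z | IsAlgebraic k z} ∪
    (Set.range fun x : K0 => algebraMap K (AlgebraicClosure K) (algebraMap K0 K x)) ∪
    {algebraMap K (AlgebraicClosure K) y})

/-- `w` is a square root of an element of `kbar K0` whose divisor on `kbar K0 (y)` is even. -/
def IsRtY (y : K) (w : AlgebraicClosure K) : Prop :=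
  ∃ u : XB k K0 y, (u : AlgebraicClosure K) = w ^ 2 ∧ (u : AlgebraicClosure K) ∈ YB k K0 K ∧
    ∀ P : ValuationSubring (XB k K0 y),
      (∀ z : XB k K0 y, IsAlgebraic k (z : AlgebraicClosure K) → z ∈ P) →
      ∃ z : XB k K0 y, P.valuation u = P.valuation z ^ 2

/-- The maximal extension of exponent two of `kbar K0` which is unramified over `kbar K0 (y)`. -/
def LevY (y : K) : Subfield (AlgebraicClosure K) :=
  Subfield.closure ({z | IsAlgebraic k z} ∪
    (Set.range fun x : K0 => algebraMap K (AlgebraicClosure K) (algebraMap K0 K x)) ∪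
    {w | IsRtY k K0 y w})

end abs

/-- All `s(g)`, `g` fixing the roots of `F`, fix all places above `P₀` of `LevY k K0 y`. -/
def FixAll {k K0 K : Type} [Field k] [Field K0] [Field K] [Algebra k K] [Algebra K0 K]
    (s : GaloisSection k K) (P₀ : ValuationSubring K0) (y : K) (F : k[X]) : Prop :=
  ∀ Q : ValuationSubring (AlgebraicClosure K), (∀ z, IsAlgebraic k z → z ∈ Q) →
    (∀ x : K0, algebraMap K (AlgebraicClosure K) (algebraMap K0 K x) ∈ Q ↔ x ∈ P₀) →
    ∀ w ∈ LevY k K0 y, ∃ hw : w ∈ Kur k K, ∀ g : Gk k K,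
      (∀ z : kbar k K, aeval z F = 0 → g z = z) →
      (w ∈ Q ↔ (s.toHom g ⟨w, hw⟩ : AlgebraicClosure K) ∈ Q)

/-- the field `kbar K0` in the algebraic closure of `K0` -/
abbrev Y0 (k K0 : Type) [Field k] [Field K0] [Algebra k K0] : Subfield (AlgebraicClosure K0) :=
  Subfield.closure (cst k K0 ∪ Set.range (algebraMap K0 (AlgebraicClosure K0)))

/-- BLOCK C5 (helper90): the number of geometric branch points. -/
def StmtC5 : Prop :=
  ∀ (k K0 E U : Type) [Field k] [NumberField k] [Field K0] [Field E] [Field U] [Algebra k K0]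
    [Algebra k E] [Algebra E U] [Algebra K0 U] [Algebra k U] [IsScalarTower k E U]
    [IsScalarTower k K0 U] (h : K0) (r : U), Geo k K0 E U h r →
    ∀ S : Finset (ValuationSubring (Y0 k K0)),
    (∀ P ∈ S, (∀ z : Y0 k K0, IsAlgebraic k (z : AlgebraicClosure K0) → z ∈ P) ∧
      ∀ (hh : algebraMap K0 (AlgebraicClosure K0) h ∈ Y0 k K0) (z : Y0 k K0),
        P.valuation ⟨_, hh⟩ ≠ P.valuation z ^ 2) →
    S.card ≤ Nat.card {b : Place E (L0 E K0 (U := U)) // BPl h b}

/-- BLOCK TRY (helper28): the transfer of the level. -/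
def StmtTRY : Prop :=
  ∀ (k K0 E U : Type) [Field k] [NumberField k] [Field K0] [Field E] [Field U] [Algebra k K0]
    [Algebra k E] [Algebra E U] [Algebra K0 U] [Algebra k U] [IsScalarTower k E U]
    [IsScalarTower k K0 U] (h : K0) (r : U), Geo k K0 E U h r →
    ∀ (K : Type) [Field K] [Algebra k K] [Algebra K0 K] [IsScalarTower k K0 K] (y : K) (c : k),
    c ≠ 0 → y ^ 2 = algebraMap k K c * algebraMap K0 K h →
    ∀ j : U →+* AlgebraicClosure K,
    (∀ x : K0, j (algebraMap K0 U x) = algebraMap K (AlgebraicClosure K) (algebraMap K0 K x)) →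
    (∀ z : E, IsAlgebraic k (j (algebraMap E U z))) →
    (∀ z : AlgebraicClosure K, IsAlgebraic k z → ∃ z' : E, j (algebraMap E U z') = z) →
    ∀ w ∈ LevY k K0 y, ∃ u ∈ Y2 E K0 (U := U), j u = w

end

end Pool.Agent.TOWS
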