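import Pool.Agent.Helper45.TW.YDefs
import Pool.Agent.Helper45.M.INTf

/-!
# Project TW (A''): the final form
-/

set_option autoImplicit false

namespace Pool.Agent.TOWS

open VC Polynomial IntermediateField NumberField IsDedekindDomain Pool.Agent.SC Pool.Agent.L
  Pool.Agent.M Pool.Agent.Helper91.Sect
open Pool.Agent.TOW (RX NX Au AuE StmtPX1)
open Pool.Agent.TW (OneRat RatPl OverK Rare StmtLVL trX)

noncomputable section

/-- some curve over `k` which maps onto `y² = c h` has a section which does not fix the places above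
`P₀` over the field generated by the roots of `F` -/
def BadY {k K0 : Type} [Field k] [Field K0] [Algebra k K0] (h : K0) (P₀ : ValuationSubring K0)
    (F : k[X]) (c : k) : Prop :=
  ∃ (K : Type) (_ : Field K) (_ : Algebra k K) (_ : Algebra K0 K) (_ : IsScalarTower k K0 K)
    (y : K), y ^ 2 = algebraMap k K c * algebraMap K0 K h ∧
    ∃ s : GaloisSection k K, ¬ FixAll s P₀ y F

theorem finY (hOVL : StmtOVL) (hC5 : StmtC5) (hTRY : StmtTRY) (k K0 : Type) [Field k]
    [NumberField k] [Field K0] [Algebra k K0] (h : K0) (hg : GoodCurve k h)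
    {P₀ : ValuationSubring K0} (hP : RatPl k P₀)
    (hodd : ∀ z : K0, P₀.valuation h ≠ P₀.valuation z ^ 2)
    (huniq : ∀ P : ValuationSubring K0, RatPl k P →
      (∀ z : K0, P.valuation h ≠ P.valuation z ^ 2) → P = P₀)
    (S : Finset (ValuationSubring (Y0 k K0)))
    (hS : ∀ P ∈ S, (∀ z : Y0 k K0, IsAlgebraic k (z : AlgebraicClosure K0) → z ∈ P) ∧
      ∀ (hh : algebraMap K0 (AlgebraicClosure K0) h ∈ Y0 k K0) (z : Y0 k K0),
        P.valuation ⟨_, hh⟩ ≠ P.valuation z ^ 2) (h5 : 5 ≤ S.card) :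
    ∃ F : k[X], F ≠ 0 ∧ Rare (fun c : k => BadY h P₀ F c) := by
  classical
  obtain ⟨E, U, _, _, _, _, _, _, _, _, r, G, hsec⟩ := trX k K0 h hg
  obtain ⟨b₀, hOne, hover, hbu⟩ := Pool.Agent.TW.oneRat_of G hP hodd huniq
    (h5.trans (hC5 k K0 E U h r G S hS))
  obtain ⟨hst, L, hL, hR⟩ := hOVL k K0 E U h r G b₀ hOne
  have halg : Algebra.IsAlgebraic k E := G.algE
  obtain ⟨C, hC⟩ := fix_findim L hL
  have hF0 : ∏ e ∈ C, minpoly k e ≠ 0 :=
    Finset.prod_ne_zero_iff.2 fun e _ => minpoly.ne_zero (halg.isAlgebraic e).isIntegral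
  have hFroot : ∀ e ∈ C, aeval e (∏ e ∈ C, minpoly k e) = 0 := by
    intro e he
    rw [map_prod]
    exact Finset.prod_eq_zero he (minpoly.aeval k e)
  have hP0 : P₀ ≠ ⊤ := by
    rintro rfl
    by_cases hh : h = 0
    · exact hodd 0 (by rw [hh]; simp)
    · refine hodd 1 ?_
      rw [map_one, one_pow]
      refine le_antisymm ?_ ?_
      · rw [ValuationSubring.valuation_le_one_iff]
        trivial
      · have h1 : (⊤ : ValuationSubring K0).valuation h⁻¹ ≤ 1 := by
          rw [ValuationSubring.valuation_le_one_iff]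
          trivial
        rw [map_inv₀] at h1
        exact (inv_le_one₀ (zero_lt_iff.2 ((Valuation.ne_zero_iff _).2 hh))).1 h1
  obtain ⟨x₀, hx₀⟩ : ∃ x₀ : K0, x₀ ∉ P₀ := by
    by_contra hcon
    push Not at hcon
    exact hP0 (eq_top_iff.mpr fun x _ => hcon x)
  have hL0Y : L0 E K0 (U := U) ≤ Y2 E K0 := fun _ hx => subset_adjoin _ _ (Or.inl hx)
  refine ⟨∏ e ∈ C, minpoly k e, hF0, ?_⟩
  intro ε hε
  filter_upwards [hR ε hε] with X hX
  intro T hT hTc
  refine hX T hT fun c hc => ?_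
  obtain ⟨hc0, hcX, K, _, _, _, _, y, hy, s, hs⟩ := hTc c hc
  obtain ⟨Φ, hΦ, j, hj1, hj2, hj3, hj4, hj5⟩ := hsec c hc0 K y hy s
  refine ⟨hc0, hcX, Φ, hΦ, ?_⟩
  by_contra hcon
  push Not at hcon
  apply hs
  intro Q hQ1 hQ2 w hw
  obtain ⟨u, hu, rfl⟩ := hTRY k K0 E U h r G K y c hc0 hy j hj1 hj2 hj3 w hw
  refine ⟨hj4 u, fun g hg' => ?_⟩
  obtain ⟨σ, hσ⟩ := hj5 g
  -- `σ` fixes `L`
  have hjk : ∀ a : k, j (algebraMap E U (algebraMap k E a)) = algebraMap k (AlgebraicClosure K) a := by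
    intro a
    rw [← IsScalarTower.algebraMap_apply k E U, IsScalarTower.algebraMap_apply k K0 U, hj1,
      ← IsScalarTower.algebraMap_apply k K0 K, ← IsScalarTower.algebraMap_apply k K]
  have hσL : ∀ x ∈ L, σ x = x := by
    refine hC σ fun e he => ?_
    have h1 : j (algebraMap E U e) ∈ kbar k K := by
      rw [mem_algebraicClosure_iff]
      exact hj2 e
    have h2 : (s.toHom g ⟨j (algebraMap E U e), hj4 _⟩ : AlgebraicClosure K) =
        g ⟨j (algebraMap E U e), h1⟩ := s.isSection g ⟨_, h1⟩ ⟨_, hj4 _⟩ rfl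
    have h3 : aeval (⟨j (algebraMap E U e), h1⟩ : kbar k K) (∏ e ∈ C, minpoly k e) = 0 := by
      apply (algebraMap (kbar k K) (AlgebraicClosure K)).injective
      rw [map_zero, ← aeval_algebraMap_apply]
      show aeval (j (algebraMap E U e)) (∏ e ∈ C, minpoly k e) = 0
      let jE : E →ₐ[k] AlgebraicClosure K :=
        { j.comp (algebraMap E U) with commutes' := fun a => hjk a }
      have h4 : aeval (jE e) (∏ e ∈ C, minpoly k e) = jE (aeval e (∏ e ∈ C, minpoly k e)) :=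
        aeval_algHom_apply jE e _
      rw [hFroot e he, map_zero] at h4
      exact h4
    have h4 := hg' _ h3
    have h5 := hσ (algebraMap E U e) (hj4 _)
    rw [h2, h4, hΦ.const] at h5
    have h6 : j (algebraMap E U e) = j (algebraMap E U (σ e)) := h5
    exact ((algebraMap E U).injective (j.injective h6)).symm
  -- the place of `Y2` below `Q`
  let ι : Y2 E K0 (U := U) →+* AlgebraicClosure K := j.comp (algebraMap (Y2 E K0 (U := U)) U)
  have hι : ∀ z : Y2 E K0 (U := U), ι z = j (z : U) := fun _ => rfl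
  let R : Place E (Y2 E K0 (U := U)) := ⟨Q.comap ι, fun e => by
    rw [ValuationSubring.mem_comap]
    exact hQ1 _ (hj2 e), fun htop => by
    apply hx₀
    rw [← hQ2, ← hj1]
    have h1 : (⟨algebraMap K0 U x₀, hL0Y (subset_adjoin _ _ ⟨x₀, rfl⟩)⟩ : Y2 E K0 (U := U)) ∈
        Q.comap ι := by rw [htop]; trivial
    exact h1⟩
  have hR' : ∀ z : Y2 E K0 (U := U), z ∈ R.ring ↔ j (z : U) ∈ Q := fun _ => Iff.rfl
  let b : Place E (L0 E K0 (U := U)) := ⟨Q.comap (j.comp (algebraMap (L0 E K0 (U := U)) U)),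
    fun e => by
    rw [ValuationSubring.mem_comap]
    exact hQ1 _ (hj2 e), fun htop => by
    apply hx₀
    rw [← hQ2, ← hj1]
    have h1 : (⟨algebraMap K0 U x₀, subset_adjoin _ _ ⟨x₀, rfl⟩⟩ : L0 E K0 (U := U)) ∈
        Q.comap (j.comp (algebraMap (L0 E K0 (U := U)) U)) := by rw [htop]; trivial
    exact h1⟩
  have hb : b = b₀ := by
    apply hbu
    intro x
    show j (algebraMap K0 U x) ∈ Q ↔ x ∈ P₀
    rw [hj1, hQ2]
  have hbR : OverPl b R := fun z hz hz' => Iff.rfl
  rw [hb] at hbR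
  have hm := hcon σ hσL R hbR
  have hTu : Φ σ u ∈ Y2 E K0 (U := U) := hst _ (Pool.Agent.TOW.act_au hΦ σ) u hu
  have h1 := hm u hu hTu
  rw [hσ]
  exact h1

end

end Pool.Agent.TOWS
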